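import Pool.Agent.LibCM2.Defs

/-!
# PX: polylogarithmic exceptional sets: definitions

`N` variables `S_i = s_k((x + c) mod q)` and `M` cotangent variables `T_i = s_k(y) + (-1)^k s_k(q - y)`, as in LibCM3.
Index set of the rows: `Ix = Fin H × expo N B`; the row of `s = (h, α)` is `φ_h(j % q) * pS(j)^α`.
`R` is a space of formal combinations `ρ : Ix → ℝ` which can be reduced: if `ρ` has degree `≤ m` (in the variables `S`), then its value at the point `(S(x), T(x))` is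
a combination of terms of degree `< m` with coefficients polynomials of degree `≤ g` in the `T(x)` (the same polynomials for all `x ∈ I`).
`hspread`: the `φ_h` are independent on every subset of `I` containing all but the proportion `1 / Sp` of its elements.
-/

namespace CM68

open Finset Polynomial

/-- the index set -/
abbrev IxT (N B H : ℕ) : Type := Fin H × (expo N B)

/-- the exponent -/
def IxT.ex {N B H : ℕ} (s : IxT N B H) : Fin N → ℕ := s.2.1

/-- the degree -/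
def IxT.dg {N B H : ℕ} (s : IxT N B H) : ℕ := ∑ i, s.ex i

/-- the variable `S` at the class `x` -/
noncomputable def Sx (q k c x : ℕ) : ℝ := sk q k (((x + c) % q : ℕ) : ℝ)

/-- the cotangent variable `T` at the class `x` -/
noncomputable def Tx (q k c x : ℕ) : ℝ :=
  sk q k (((x + c) % q : ℕ) : ℝ) + (-1) ^ k * sk q k ((q : ℝ) - (((x + c) % q : ℕ) : ℝ))

structure DatX where
  q : ℕ
  w : ℕ
  g : ℕ
  N : ℕ
  M : ℕ
  B : ℕ
  H : ℕ
  Sp : ℕ
  ks : Fin N → ℕ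
  cs : Fin N → ℕ
  kt : Fin M → ℕ
  ct : Fin M → ℕ
  I : Finset ℕ
  φ : Fin H → ℕ → ℚ
  R : Submodule ℝ (IxT N B H → ℝ)
  hq : 2 ≤ q
  hg : 1 ≤ g
  hks : ∀ i, 2 ≤ ks i ∧ ks i ≤ w
  hkt : ∀ i, 2 ≤ kt i ∧ kt i ≤ w
  hcs : ∀ i, cs i < q
  hct : ∀ i, ct i < q
  hinj : Function.Injective fun i => (ks i, cs i)
  hI : ∀ x ∈ I, x < q
  hIne : I.Nonempty
  hxs : ∀ x ∈ I, ∀ i, 0 < (x + cs i) % q
  hxt : ∀ x ∈ I, ∀ i, 0 < (x + ct i) % q
  hspread : ∀ F : Finset ℕ, F ⊆ I → Sp * (I \ F).card ≤ I.card → ∀ a : Fin H → ℝ,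
    (∀ x ∈ F, ∑ h, a h * (φ h x : ℝ) = 0) → a = 0
  hR : ∀ ρ ∈ R, ∀ m : ℕ, (∀ s : IxT N B H, ρ s ≠ 0 → s.dg ≤ m) →
    ∃ G : IxT N B H → (Fin M → ℕ) → ℝ, (∀ s κ, G s κ ≠ 0 → s.dg < m) ∧
      ∀ x ∈ I, ∑ s : IxT N B H, ρ s * ((φ s.1 x : ℝ) * ∏ i, Sx q (ks i) (cs i) x ^ s.ex i) =
        ∑ s : IxT N B H, ∑ κ ∈ expo M g, G s κ * (∏ i, Tx q (kt i) (ct i) x ^ κ i) *
          ((φ s.1 x : ℝ) * ∏ i, Sx q (ks i) (cs i) x ^ s.ex i)

namespace DatX

variable (D : DatX)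

/-- the index set of the rows -/
abbrev Ix : Type := IxT D.N D.B D.H

/-- the nodes `j`; all `j + c` are less than `q n` -/
def Nd (n : ℕ) : Finset ℕ := P D.q (n - 1) D.I

/-- `w` times the number of variables -/
def ww : ℕ := D.w * (D.N + D.M)

/-- the exponent of the multiplier -/
def E : ℕ := D.g * D.B

/-- the partial sums of the first variables -/
noncomputable def pS (T : ℕ) (i : Fin D.N) (j : ℕ) : ℝ := ps D.q T (D.ks i) (j + D.cs i)

/-- the window sums of the second variables -/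
noncomputable def pT (n T : ℕ) (i : Fin D.M) (j : ℕ) : ℝ :=
  rr D.q n T (D.kt i) ((j + D.ct i : ℕ) : ℝ)

/-- the tails of the first variables -/
noncomputable def aS (T : ℕ) (i : Fin D.N) (j : ℕ) : ℝ :=
  tl D.q (D.ks i) T ((j + D.cs i : ℕ) : ℝ)

/-- the tails of the second variables -/
noncomputable def aT (n T : ℕ) (i : Fin D.M) (j : ℕ) : ℝ :=
  tl D.q (D.kt i) T ((j + D.ct i : ℕ) : ℝ) +
    (-1) ^ D.kt i * tl D.q (D.kt i) T ((D.q : ℝ) * n - ((j + D.ct i : ℕ) : ℝ))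

/-- the rows -/
noncomputable def row (T : ℕ) (s : D.Ix) (j : ℕ) : ℝ :=
  (D.φ s.1 (j % D.q) : ℝ) * ∏ i, D.pS T i j ^ s.ex i

/-- the exponents of the coefficient functions -/
def Mm : Finset (Mon D.N D.M) := expo D.N D.B ×ˢ expo D.M D.E

/-- the coefficient functions `A^ν T^κ` -/
noncomputable def Cf (T : ℕ) (μ : Mon D.N D.M) (j : ℕ) : ℝ :=
  (∏ i, D.aS T i j ^ μ.1 i) * ∏ i, Tx D.q (D.kt i) (D.ct i) (j % D.q) ^ μ.2 i

/-- the multiplier -/
noncomputable def Om (n T : ℕ) : ℝ[X] :=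
  (∏ i, taylor (D.cs i : ℝ) (WP D.q n T D.w)) * ∏ i, taylor (D.ct i : ℝ) (WP D.q n T D.w)

/-- the column factors -/
noncomputable def wt (n T j : ℕ) : ℕ := ⌊|(D.Om n T).eval (j : ℝ)|⌋₊ ^ D.E

/-- the rows of the first type, `s ∈ Sg` -/
noncomputable def rowA (T : ℕ) {d : ℕ} (s : D.Ix) (i : Fin d) (j : ℕ) : ℝ :=
  D.row T s j * (j.choose i : ℝ)

/-- the rows of the second type, `s ∉ Sg` -/
noncomputable def rowB (n T : ℕ) (s : D.Ix) (i j : ℕ) : ℝ :=
  D.row T s j * ((D.Om n T).eval (j : ℝ) ^ D.E * (j.choose i : ℝ))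

/-- the span of the rows of the first type, as functions on the nodes -/
noncomputable def rsp (Sg : Finset D.Ix) (n T d : ℕ) : Submodule ℝ (D.Nd n → ℝ) :=
  Submodule.span ℝ (Set.range fun (a : Sg × Fin d) (j : D.Nd n) => D.rowA T a.1.1 a.2 (j : ℕ))

/-- `Sg` is a complement of `R`, adapted to the degree -/
def Good (Sg : Finset D.Ix) : Prop :=
  ∀ s : D.Ix, ∃ ρ ∈ D.R, ∃ t : D.Ix → ℝ, (∀ s', t s' ≠ 0 → s' ∈ Sg ∧ s'.dg ≤ s.dg) ∧
    Pi.single s 1 = ρ + t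

/-- the size of the matrix of the zero estimate -/
def L : ℕ := (expo D.N D.B).card * (D.H * (expo D.N D.B).card)

end DatX

end CM68
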