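import Pool.Agent.LibCM68.I1
import Pool.Agent.LibCM68.S1
import Pool.Agent.LibCM2.C1
import Pool.Agent.LibPX.PDefs

/-!
# Row X4: the multiplier (MEDIUM; templates LibCM3/I4.lean, LibCM3/S6.lean, literally with `DatX` for `Dat3`, exponent `D.E` for `D.g`)

`row_int`: `Om^E * ∏ pS^α` is an integer, `∑ α ≤ B ≤ E = g B` (`hg`), times `D₀ φ`.
`Om_le`: `W_le`, `Wb q n T (w * m) = (Wb q n T w)^m`; `|Om| ≤ Wb q n T ww`, so `|Om|^E ≤ Wb q n T (E * ww)`.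
`pS_leX`, `pT_leX` as `pS_le3`, `pT_le3` in LibCM3/S6.lean.  `row_le`: `win ≥ 1`, `∑ α ≤ B`.
-/

namespace CM68

open Finset Polynomial

private theorem X4_prod {ι : Type*} (s : Finset ι) (f : ι → ℝ)
    (h : ∀ i ∈ s, ∃ z : ℤ, f i = z) : ∃ z : ℤ, ∏ i ∈ s, f i = z := by
  classical
  induction s using Finset.induction_on with
  | empty => exact ⟨1, by simp⟩
  | insert a s ha ih =>
    obtain ⟨z₁, h₁⟩ := h a (Finset.mem_insert_self a s)
    obtain ⟨z₂, h₂⟩ := ih (fun i hi => h i (Finset.mem_insert_of_mem hi))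
    refine ⟨z₁ * z₂, ?_⟩
    rw [Finset.prod_insert ha, h₁, h₂]
    push_cast
    ring

private theorem X4_Om (D : DatX) (n T j : ℕ) :
    (D.Om n T).eval (j : ℝ) = (∏ i, (WP D.q n T D.w).eval ((j + D.cs i : ℕ) : ℝ)) *
      ∏ i, (WP D.q n T D.w).eval ((j + D.ct i : ℕ) : ℝ) := by
  unfold DatX.Om
  rw [eval_mul, eval_prod, eval_prod]
  congr 1
  · refine Finset.prod_congr rfl fun i _ => ?_
    rw [taylor_eval]
    push_cast
    rfl
  · refine Finset.prod_congr rfl fun i _ => ?_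
    rw [taylor_eval]
    push_cast
    rfl

private theorem X4_nd {D : DatX} {n j : ℕ} (hj : j ∈ D.Nd n) :
    j < D.q * (n - 1) ∧ j % D.q ∈ D.I := by
  have hj' := Finset.mem_filter.1
    (show j ∈ (range (D.q * (n - 1))).filter fun j => j % D.q ∈ D.I from hj)
  exact ⟨Finset.mem_range.1 hj'.1, hj'.2⟩

private theorem X4_lt {D : DatX} {n j : ℕ} (hj : j ∈ D.Nd n) {c : ℕ} (hc : c < D.q) :
    j + c < D.q * n := by
  have hjr := (X4_nd hj).1
  have hn : 1 ≤ n := by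
    rcases Nat.eq_zero_or_pos n with h | h
    · subst h
      simp at hjr
    · exact h
  have h1 : D.q * n = D.q * (n - 1) + D.q := by
    conv_lhs => rw [show n = (n - 1) + 1 by omega]
    ring
  omega

private theorem X4_sum (D : DatX) (s : D.Ix) : ∑ i, s.ex i ≤ D.B := mem_expo.1 s.2.2

theorem Om_intX (D : DatX) (n T j : ℕ) : ∃ z : ℤ, (D.Om n T).eval (j : ℝ) = z := by
  obtain ⟨z₁, h₁⟩ := X4_prod Finset.univ
    (fun i => (WP D.q n T D.w).eval ((j + D.cs i : ℕ) : ℝ)) (fun i _ => W_int D.q n T D.w _)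
  obtain ⟨z₂, h₂⟩ := X4_prod Finset.univ
    (fun i => (WP D.q n T D.w).eval ((j + D.ct i : ℕ) : ℝ)) (fun i _ => W_int D.q n T D.w _)
  refine ⟨z₁ * z₂, ?_⟩
  rw [X4_Om, h₁, h₂]
  push_cast
  rfl

theorem Om_neX (D : DatX) {n T j : ℕ} (hj : j ∈ D.Nd n) : (D.Om n T).eval (j : ℝ) ≠ 0 := by
  have hx := (X4_nd hj).2
  have hq := D.hq
  rw [X4_Om]
  refine mul_ne_zero (Finset.prod_ne_zero_iff.2 fun i _ => ?_)
    (Finset.prod_ne_zero_iff.2 fun i _ => ?_)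
  · refine W_eval_ne (by omega) ?_
    have h4 := D.hxs _ hx i
    rwa [Nat.mod_add_mod] at h4
  · refine W_eval_ne (by omega) ?_
    have h4 := D.hxt _ hx i
    rwa [Nat.mod_add_mod] at h4

theorem Om_leX (D : DatX) {n T j : ℕ} (hj : j ∈ D.Nd n) :
    |(D.Om n T).eval (j : ℝ)| ^ D.E ≤ Wb D.q n T (D.E * D.ww) := by
  have hq := D.hq
  have h1 : |(D.Om n T).eval (j : ℝ)| ≤ Wb D.q n T D.ww := by
    rw [X4_Om, abs_mul, Finset.abs_prod, Finset.abs_prod]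
    have h2 : ∏ i, |(WP D.q n T D.w).eval ((j + D.cs i : ℕ) : ℝ)| ≤ Wb D.q n T D.w ^ D.N := by
      refine (Finset.prod_le_prod (fun _ _ => abs_nonneg _) fun i _ =>
        W_le (by omega) (X4_lt hj (D.hcs i))).trans_eq ?_
      simp
    have h3 : ∏ i, |(WP D.q n T D.w).eval ((j + D.ct i : ℕ) : ℝ)| ≤ Wb D.q n T D.w ^ D.M := by
      refine (Finset.prod_le_prod (fun _ _ => abs_nonneg _) fun i _ =>
        W_le (by omega) (X4_lt hj (D.hct i))).trans_eq ?_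
      simp
    have h4 : Wb D.q n T D.ww = Wb D.q n T D.w ^ D.N * Wb D.q n T D.w ^ D.M := by
      unfold Wb DatX.ww
      rw [← pow_add, ← pow_mul]
    rw [h4]
    refine mul_le_mul h2 h3 (Finset.prod_nonneg fun _ _ => abs_nonneg _) ?_
    exact (Finset.prod_nonneg fun _ _ => abs_nonneg _).trans h2
  refine (pow_le_pow_left₀ (abs_nonneg _) h1 _).trans_eq ?_
  unfold Wb
  rw [← pow_mul, mul_comm D.E]

private theorem X4_wt_eq (D : DatX) {n T j : ℕ} :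
    ((D.wt n T j : ℕ) : ℝ) = |(D.Om n T).eval (j : ℝ)| ^ D.E := by
  obtain ⟨z, hz⟩ := Om_intX D n T j
  unfold DatX.wt
  rw [hz]
  have h1 : |(z : ℝ)| = ((z.natAbs : ℕ) : ℝ) := by
    rw [Nat.cast_natAbs, Int.cast_abs]
  rw [h1, Nat.floor_natCast, Nat.cast_pow]

theorem wt_posX (D : DatX) {n T j : ℕ} (hj : j ∈ D.Nd n) : 1 ≤ D.wt n T j := by
  have h1 : (0 : ℝ) < ((D.wt n T j : ℕ) : ℝ) := by
    rw [X4_wt_eq D]
    exact pow_pos (abs_pos.2 (Om_neX D hj)) _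
  exact Nat.cast_pos.1 h1

theorem wt_leX (D : DatX) {n T j : ℕ} (hj : j ∈ D.Nd n) :
    (D.wt n T j : ℝ) ≤ Wb D.q n T (D.E * D.ww) := by
  rw [X4_wt_eq D]
  exact Om_leX D hj

theorem Om_natDegreeX (D : DatX) (n T : ℕ) : (D.Om n T).natDegree ≤ D.ww * win n T := by
  unfold DatX.Om
  refine natDegree_mul_le.trans ?_
  have h2 : (∏ i, taylor (D.cs i : ℝ) (WP D.q n T D.w)).natDegree ≤ D.N * (D.w * win n T) := by
    refine (natDegree_prod_le _ _).trans ?_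
    refine (Finset.sum_le_sum fun i _ => ?_).trans_eq
      (show ∑ _i : Fin D.N, D.w * win n T = D.N * (D.w * win n T) by simp)
    show (taylor (D.cs i : ℝ) (WP D.q n T D.w)).natDegree ≤ _
    rw [natDegree_taylor]
    exact W_natDegree _ _ _ _
  have h3 : (∏ i, taylor (D.ct i : ℝ) (WP D.q n T D.w)).natDegree ≤ D.M * (D.w * win n T) := by
    refine (natDegree_prod_le _ _).trans ?_
    refine (Finset.sum_le_sum fun i _ => ?_).trans_eq
      (show ∑ _i : Fin D.M, D.w * win n T = D.M * (D.w * win n T) by simp)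
    show (taylor (D.ct i : ℝ) (WP D.q n T D.w)).natDegree ≤ _
    rw [natDegree_taylor]
    exact W_natDegree _ _ _ _
  have h4 : D.ww * win n T = D.N * (D.w * win n T) + D.M * (D.w * win n T) := by
    unfold DatX.ww
    ring
  rw [h4]
  exact Nat.add_le_add h2 h3

private theorem X4_S (D : DatX) {n T j : ℕ} (hj : j ∈ D.Nd n) (i : Fin D.N) :
    ∃ z : ℤ, (D.Om n T).eval (j : ℝ) * D.pS T i j = z := by
  classical
  have hk := D.hks i
  obtain ⟨z, hz⟩ := Wps_int (q := D.q) (n := n) (T := T) (w := D.w) (by omega : 1 ≤ D.ks i) hk.2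
    (X4_lt hj (D.hcs i))
  obtain ⟨z₁, h₁⟩ := X4_prod (Finset.univ.erase i)
    (fun i => (WP D.q n T D.w).eval ((j + D.cs i : ℕ) : ℝ)) (fun i _ => W_int D.q n T D.w _)
  obtain ⟨z₂, h₂⟩ := X4_prod Finset.univ
    (fun i => (WP D.q n T D.w).eval ((j + D.ct i : ℕ) : ℝ)) (fun i _ => W_int D.q n T D.w _)
  refine ⟨z * z₁ * z₂, ?_⟩
  rw [X4_Om, ← Finset.mul_prod_erase Finset.univ
    (fun i => (WP D.q n T D.w).eval ((j + D.cs i : ℕ) : ℝ)) (Finset.mem_univ i), h₁, h₂]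
  unfold DatX.pS
  push_cast
  push_cast at hz
  linear_combination (z₁ : ℝ) * z₂ * hz

private theorem X4_pow {ι : Type*} (s : Finset ι) (O : ℝ) (f : ι → ℝ) (e : ι → ℕ)
    (h : ∀ i ∈ s, ∃ z : ℤ, O * f i = z) : ∃ z : ℤ, O ^ (∑ i ∈ s, e i) * ∏ i ∈ s, f i ^ e i = z := by
  rw [← Finset.prod_pow_eq_pow_sum, ← Finset.prod_mul_distrib]
  refine X4_prod s _ fun i hi => ?_
  obtain ⟨z, hz⟩ := h i hi
  refine ⟨z ^ e i, ?_⟩
  rw [← mul_pow, hz]
  push_cast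
  rfl

theorem row_intX (D : DatX) {n T D₀ : ℕ}
    (hco : ∀ h, ∀ x < D.q, ∃ m : ℤ, (D₀ : ℚ) * D.φ h x = m) (s : D.Ix) {j : ℕ}
    (hj : j ∈ D.Nd n) : ∃ z : ℤ, (D₀ : ℝ) * (D.wt n T j : ℕ) * D.row T s j = z := by
  have hq : j % D.q < D.q := Nat.mod_lt _ (by have := D.hq; omega)
  have hs := X4_sum D s
  have key : ∃ z : ℤ, (D₀ : ℝ) * (D.Om n T).eval (j : ℝ) ^ D.E * D.row T s j = z := by
    unfold DatX.row
    obtain ⟨z₁, h₁⟩ := X4_pow Finset.univ ((D.Om n T).eval (j : ℝ)) (fun i => D.pS T i j)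
      (fun i => s.ex i) (fun i _ => X4_S D hj i)
    obtain ⟨z₃, h₃⟩ := Om_intX D n T j
    obtain ⟨m, hm⟩ := hco s.1 _ hq
    have hm' : (D₀ : ℝ) * (D.φ s.1 (j % D.q) : ℝ) = m := by exact_mod_cast hm
    have hBE : D.B ≤ D.E := Nat.le_mul_of_pos_left _ D.hg
    obtain ⟨t, ht⟩ : ∃ t, D.E = t + ∑ i, s.ex i := ⟨D.E - ∑ i, s.ex i, by omega⟩
    refine ⟨m * z₃ ^ t * z₁, ?_⟩
    rw [ht, pow_add]
    push_cast
    rw [← hm', ← h₁, ← h₃]
    ring
  obtain ⟨z, hz⟩ := key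
  rw [X4_wt_eq D]
  rcases le_or_gt 0 ((D.Om n T).eval (j : ℝ)) with h | h
  · exact ⟨z, by rw [abs_of_nonneg h, hz]⟩
  · refine ⟨(-1) ^ D.E * z, ?_⟩
    rw [abs_of_neg h, neg_pow]
    push_cast
    rw [← hz]
    ring

theorem pS_leX (D : DatX) {n T j : ℕ} (hj : j ∈ D.Nd n) (i : Fin D.N) :
    |D.pS T i j| ≤ win n T := by
  have hI := (X4_nd hj).2
  have hc := D.hcs i
  have hjc := X4_lt hj hc
  have hpos : 0 < (j + D.cs i) % D.q := by
    have h := D.hxs _ hI i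
    rwa [Nat.mod_add_mod] at h
  have hq : 0 < D.q := by have := D.hq; omega
  have hdiv : (j + D.cs i) / D.q < n := by
    rw [Nat.div_lt_iff_lt_mul hq, mul_comm]
    exact hjc
  unfold DatX.pS ps
  have hterm : ∀ m ∈ range ((j + D.cs i) / D.q + T + 1),
      |1 / ((D.q : ℝ) * m + (((j + D.cs i) % D.q : ℕ) : ℝ)) ^ D.ks i| ≤ 1 := by
    intro m _
    have h1 : (1 : ℝ) ≤ (D.q : ℝ) * m + (((j + D.cs i) % D.q : ℕ) : ℝ) := by
      have h2 : (1 : ℝ) ≤ (((j + D.cs i) % D.q : ℕ) : ℝ) := by exact_mod_cast hpos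
      have h3 : (0 : ℝ) ≤ (D.q : ℝ) * m := by positivity
      linarith
    have h4 : (1 : ℝ) ≤ ((D.q : ℝ) * m + (((j + D.cs i) % D.q : ℕ) : ℝ)) ^ D.ks i :=
      one_le_pow₀ h1
    rw [abs_of_nonneg (by positivity)]
    rw [div_le_one (by linarith)]
    exact h4
  refine (Finset.abs_sum_le_sum_abs _ _).trans ((Finset.sum_le_card_nsmul _ _ _ hterm).trans ?_)
  rw [Finset.card_range, nsmul_eq_mul, mul_one]
  have : (j + D.cs i) / D.q + T + 1 ≤ win n T := by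
    unfold win
    omega
  exact_mod_cast this

theorem pT_leX (D : DatX) {n T j : ℕ} (hj : j ∈ D.Nd n) (i : Fin D.M) :
    |D.pT n T i j| ≤ win n T := by
  have hI := (X4_nd hj).2
  have hpos : 0 < (j + D.ct i) % D.q := by
    have h := D.hxt _ hI i
    rwa [Nat.mod_add_mod] at h
  unfold DatX.pT rr
  have hterm : ∀ a ∈ range (win n T),
      |1 / (((j + D.ct i : ℕ) : ℝ) - (D.q : ℝ) * (n + T) + D.q * a) ^ D.kt i| ≤ 1 := by
    intro a _
    have e : ((j + D.ct i : ℕ) : ℝ) - (D.q : ℝ) * (n + T) + D.q * a =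
        ((((j + D.ct i : ℕ) : ℤ) + (D.q : ℤ) * ((a : ℤ) - (n + T)) : ℤ) : ℝ) := by
      push_cast
      ring
    have hne : (((j + D.ct i : ℕ) : ℤ) + (D.q : ℤ) * ((a : ℤ) - (n + T)) : ℤ) ≠ 0 := by
      intro h0
      have hd : (D.q : ℤ) ∣ ((j + D.ct i : ℕ) : ℤ) := by
        refine ⟨-((a : ℤ) - (n + T)), ?_⟩
        linear_combination h0
      have hd' : D.q ∣ j + D.ct i := by exact_mod_cast hd
      have := Nat.mod_eq_zero_of_dvd hd'
      omega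
    rw [e, abs_div, abs_one, abs_pow]
    have h1 : (1 : ℝ) ≤ |((((j + D.ct i : ℕ) : ℤ) + (D.q : ℤ) * ((a : ℤ) - (n + T)) : ℤ) : ℝ)| := by
      rw [← Int.cast_abs]
      exact_mod_cast Int.one_le_abs hne
    have h4 := one_le_pow₀ (n := D.kt i) h1
    rw [div_le_one (by linarith)]
    exact h4
  refine (Finset.abs_sum_le_sum_abs _ _).trans ((Finset.sum_le_card_nsmul _ _ _ hterm).trans ?_)
  rw [Finset.card_range, nsmul_eq_mul, mul_one]

private theorem X4_prod_le {N : ℕ} {W : ℝ} (f : Fin N → ℝ) (hf : ∀ i, |f i| ≤ W)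
    (a : Fin N → ℕ) : |∏ i, f i ^ a i| ≤ W ^ ∑ i, a i := by
  rw [Finset.abs_prod, ← Finset.prod_pow_eq_pow_sum]
  refine Finset.prod_le_prod (fun i _ => abs_nonneg _) fun i _ => ?_
  rw [abs_pow]
  exact pow_le_pow_left₀ (abs_nonneg _) (hf i) _

theorem row_leX (D : DatX) {Bd : ℝ} (hBd : ∀ h, ∀ x < D.q, |(D.φ h x : ℝ)| ≤ Bd) {n T j : ℕ}
    (hj : j ∈ D.Nd n) (s : D.Ix) : |D.row T s j| ≤ Bd * (win n T : ℝ) ^ D.B := by
  have hq : 0 < D.q := by have := D.hq; omega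
  have hW : (1 : ℝ) ≤ (win n T : ℝ) := by
    have : 1 ≤ win n T := by unfold win; omega
    exact_mod_cast this
  have h1 := hBd s.1 (j % D.q) (Nat.mod_lt _ hq)
  have h2 := X4_prod_le (fun i => D.pS T i j) (fun i => pS_leX D hj i) (fun i => s.ex i)
  have h3 : (win n T : ℝ) ^ (∑ i, s.ex i) ≤ (win n T : ℝ) ^ D.B :=
    pow_le_pow_right₀ hW (X4_sum D s)
  unfold DatX.row
  rw [abs_mul]
  exact mul_le_mul h1 (h2.trans h3) (abs_nonneg _) ((abs_nonneg _).trans h1)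

end CM68
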