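import Pool.Agent.LibCM2.C1
import Pool.Agent.LibPX.PDefs

/-!
# Row X8: the reducible combinations (STRONG, algebra)

Choose `t l μ : Fin H → ℝ` from `hmul` (`(ψ l x) * c μ x = ∑ h, t l μ h * φ h x` on `I`).  Linear map `Φ : (Fin H' × expo N (B - e) → ℝ) → (IxT N B H → ℝ)`,
`Φ r (h, α) = ∑_{(l, α')} ∑_{β ∈ expo N e, ∑ β = e, α' + β = α} r (l, α') * t l (β, 0) h`; `R` = its range.
(a) INJECTIVE (so `finrank R = H' * card (expo N (B - e))`, `LinearMap.finrank_range_of_inj`): if `Φ r = 0`, then for `x ∈ I` the polynomial (`MvPolynomial (Fin N) ℝ`)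
`(∑_{(l, α')} r (l, α') ψ l x X^α') * (∑_{∑ β = e} c (β, 0) x X^β) = ∑_{(h, α)} Φ r (h, α) φ h x X^α` is `0`, the second factor is not (`hlead`), so `∑_l r (l, α') ψ l x = 0` for all `α'`, all `x ∈ I`: `hψ`.
(b) REDUCTION: let `ρ = Φ r` have degree `≤ m`.  `Φ` is graded: replacing `r (l, α')` by `0` for `∑ α' + e > m` does not change `ρ` (`Φ r (h, α)` only involves `∑ α' = ∑ α - e`).  For `x ∈ I`, `S = Sx`, `T = Tx`:
`∑_s ρ s φ S^α = ∑_{(l, α')} r (l, α') S^α' ∑_{∑ β = e} ψ l x c (β, 0) x S^β` and by `hrel`, `hsup` (for `∑ μ.1 = e` only `μ.2 = 0`, for `∑ μ.1 > e` `c = 0`)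
`∑_{∑ β = e} c (β, 0) x S^β = - ∑_{μ ∈ monos N M g, ∑ μ.1 < e} c μ x S^μ.1 T^μ.2`; insert `ψ l x * c μ x = ∑ h, t l μ h * φ h x`:
`G (h, α) κ = - ∑_{(l, α'), ∑ α' + e ≤ m} ∑_{μ ∈ monos N M g, ∑ μ.1 < e, μ.2 = κ, α' + μ.1 = α} r (l, α') * t l μ h`; `∑ (α' + μ.1) < ∑ α' + e ≤ m`, and `α' + μ.1 ∈ expo N B`.
-/

namespace CM68

open Finset Polynomial

private theorem X8_ix {N B H : ℕ} {A : Type*} [AddCommMonoid A] (δ : Fin N → ℕ)
    (hδ : δ ∈ expo N B) (f : Fin H → (Fin N → ℕ) → A) :
    ∑ s : IxT N B H, (if s.ex = δ then f s.1 s.ex else 0) = ∑ h, f h δ := by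
  rw [Fintype.sum_prod_type]
  refine Finset.sum_congr rfl fun h _ => ?_
  rw [Finset.sum_eq_single (⟨δ, hδ⟩ : expo N B)]
  · simp [IxT.ex]
  · intro b _ hb
    rw [if_neg]
    intro h1
    exact hb (Subtype.ext h1)
  · intro h1
    exact absurd (Finset.mem_univ _) h1

private theorem X8_exp {N B H : ℕ} {A ι τ : Type*} [AddCommGroup A] [Module ℝ A] [Fintype ι]
    (K : Finset τ) (δ : ι → τ → Fin N → ℕ) (a : ι → τ → Fin H → ℝ) (φx : Fin H → ℝ)
    (W : τ → (Fin N → ℕ) → A) (hδ : ∀ p, ∀ μ ∈ K, δ p μ ∈ expo N B) :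
    ∑ s : IxT N B H, ∑ p, ∑ μ ∈ K,
        (if s.ex = δ p μ then (a p μ s.1 * φx s.1) • W μ s.ex else 0) =
      ∑ p, ∑ μ ∈ K, (∑ h, a p μ h * φx h) • W μ (δ p μ) := by
  rw [Finset.sum_comm]
  refine Finset.sum_congr rfl fun p _ => ?_
  rw [Finset.sum_comm]
  refine Finset.sum_congr rfl fun μ hμ => ?_
  rw [X8_ix (δ p μ) (hδ p μ hμ) (fun h α => (a p μ h * φx h) • W μ α), Finset.sum_smul]

/-- the monomial -/
private noncomputable def X8m {N : ℕ} (α : Fin N → ℕ) : MvPolynomial (Fin N) ℝ :=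
  MvPolynomial.monomial (Finsupp.equivFunOnFinite.symm α) (1 : ℝ)

private theorem X8m_add {N : ℕ} (α β : Fin N → ℕ) : X8m (α + β) = X8m α * X8m β := by
  unfold X8m
  have h : (Finsupp.equivFunOnFinite.symm (α + β) : Fin N →₀ ℕ) =
      Finsupp.equivFunOnFinite.symm α + Finsupp.equivFunOnFinite.symm β := by
    ext i
    simp
  rw [MvPolynomial.monomial_mul, mul_one, h]

private theorem X8m_coeff {N : ℕ} (α β : Fin N → ℕ) :
    MvPolynomial.coeff (Finsupp.equivFunOnFinite.symm α) (X8m β) = if β = α then 1 else 0 := by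
  unfold X8m
  rw [MvPolynomial.coeff_monomial]
  by_cases h : β = α
  · rw [if_pos h, if_pos (by rw [h])]
  · rw [if_neg h, if_neg]
    intro h1
    exact h (Finsupp.equivFunOnFinite.symm.injective h1)

/-- the exponents of sum `e` -/
private def X8E (N e : ℕ) : Finset (Fin N → ℕ) := (expo N e).filter fun β => ∑ i, β i = e

private theorem X8E_mem {N e : ℕ} {β : Fin N → ℕ} : β ∈ X8E N e ↔ ∑ i, β i = e := by
  unfold X8E
  rw [Finset.mem_filter, mem_expo]
  constructor
  · exact fun h => h.2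
  · exact fun h => ⟨h.le, h⟩

/-- the map -/
private noncomputable def X8Φ {N M B e H H' : ℕ} (t : Fin H' → Mon N M → Fin H → ℝ) :
    (Fin H' × expo N (B - e) → ℝ) →ₗ[ℝ] (IxT N B H → ℝ) where
  toFun r s := ∑ p, ∑ β ∈ X8E N e, if s.ex = p.2.1 + β then r p * t p.1 (β, 0) s.1 else 0
  map_add' r r' := by
    funext s
    simp only [Pi.add_apply]
    rw [← Finset.sum_add_distrib]
    refine Finset.sum_congr rfl fun p _ => ?_
    rw [← Finset.sum_add_distrib]
    refine Finset.sum_congr rfl fun β _ => ?_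
    split_ifs
    · ring
    · ring
  map_smul' a r := by
    funext s
    simp only [Pi.smul_apply, smul_eq_mul, RingHom.id_apply]
    rw [Finset.mul_sum]
    refine Finset.sum_congr rfl fun p _ => ?_
    rw [Finset.mul_sum]
    refine Finset.sum_congr rfl fun β _ => ?_
    split_ifs
    · ring
    · ring

private theorem X8Φ_apply {N M B e H H' : ℕ} (t : Fin H' → Mon N M → Fin H → ℝ)
    (r : Fin H' × expo N (B - e) → ℝ) (s : IxT N B H) :
    X8Φ t r s = ∑ p, ∑ β ∈ X8E N e,
      if s.ex = p.2.1 + β then r p * t p.1 (β, 0) s.1 else 0 := rfl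

/-- the value of `Φ r` -/
private theorem X8Φ_val {N M B e H H' : ℕ} (heB : e ≤ B) {A : Type*} [AddCommGroup A] [Module ℝ A]
    (t : Fin H' → Mon N M → Fin H → ℝ) (r : Fin H' × expo N (B - e) → ℝ) (φx : Fin H → ℝ)
    (W : (Fin N → ℕ) → A) :
    ∑ s : IxT N B H, (X8Φ (e := e) t r s * φx s.1) • W s.ex =
      ∑ p, ∑ β ∈ X8E N e, (r p * ∑ h, t p.1 (β, 0) h * φx h) • W (p.2.1 + β) := by
  have h1 : ∀ s : IxT N B H, (X8Φ (e := e) t r s * φx s.1) • W s.ex =
      ∑ p, ∑ β ∈ X8E N e,
        (if s.ex = p.2.1 + β then ((r p * t p.1 (β, 0) s.1) * φx s.1) • W s.ex else 0) := by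
    intro s
    rw [X8Φ_apply, Finset.sum_mul, Finset.sum_smul]
    refine Finset.sum_congr rfl fun p _ => ?_
    rw [Finset.sum_mul, Finset.sum_smul]
    refine Finset.sum_congr rfl fun β _ => ?_
    split_ifs
    · rfl
    · rw [zero_mul, zero_smul]
  rw [Finset.sum_congr rfl fun s _ => h1 s]
  rw [X8_exp (X8E N e) (fun (p : Fin H' × expo N (B - e)) β => p.2.1 + β)
    (fun p β h => r p * t p.1 (β, 0) h) φx (fun _ => W)]
  · refine Finset.sum_congr rfl fun p _ => Finset.sum_congr rfl fun β _ => ?_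
    congr 1
    rw [Finset.mul_sum]
    exact Finset.sum_congr rfl fun h _ => by ring
  · intro p β hβ
    rw [X8E_mem] at hβ
    have h2 := mem_expo.1 p.2.2
    rw [mem_expo]
    simp only [Pi.add_apply]
    rw [Finset.sum_add_distrib, hβ]
    omega

theorem exists_R {q N M g e B H H' : ℕ} (he : 1 ≤ e) (heg : e ≤ g) (heB : e ≤ B)
    (ks cs : Fin N → ℕ) (kt ct : Fin M → ℕ) (I : Finset ℕ) (φ : Fin H → ℕ → ℚ)
    (ψ : Fin H' → ℕ → ℚ) (c : Mon N M → ℕ → ℝ)
    (hψ : ∀ a : Fin H' → ℝ, (∀ x ∈ I, ∑ l, a l * (ψ l x : ℝ) = 0) → a = 0)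
    (hmul : ∀ l, ∀ μ ∈ monos N M g, ∃ t : Fin H → ℝ, ∀ x ∈ I,
      (ψ l x : ℝ) * c μ x = ∑ h, t h * (φ h x : ℝ))
    (hsup : ∀ x ∈ I, ∀ μ ∈ monos N M g, c μ x ≠ 0 →
      ∑ i, μ.1 i < e ∨ (∑ i, μ.1 i = e ∧ μ.2 = 0))
    (hlead : ∀ x ∈ I, ∃ β : Fin N → ℕ, ∑ i, β i = e ∧ c (β, 0) x ≠ 0)
    (hrel : ∀ x ∈ I, ∑ μ ∈ monos N M g, c μ x *
      ((∏ i, Sx q (ks i) (cs i) x ^ μ.1 i) * ∏ i, Tx q (kt i) (ct i) x ^ μ.2 i) = 0) :
    ∃ R : Submodule ℝ (IxT N B H → ℝ), H' * (expo N (B - e)).card ≤ Module.finrank ℝ R ∧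
      ∀ ρ ∈ R, ∀ m : ℕ, (∀ s : IxT N B H, ρ s ≠ 0 → s.dg ≤ m) →
        ∃ G : IxT N B H → (Fin M → ℕ) → ℝ, (∀ s κ, G s κ ≠ 0 → s.dg < m) ∧
          ∀ x ∈ I, ∑ s : IxT N B H, ρ s * ((φ s.1 x : ℝ) * ∏ i, Sx q (ks i) (cs i) x ^ s.ex i) =
            ∑ s : IxT N B H, ∑ κ ∈ expo M g, G s κ * (∏ i, Tx q (kt i) (ct i) x ^ κ i) *
              ((φ s.1 x : ℝ) * ∏ i, Sx q (ks i) (cs i) x ^ s.ex i) := by
  choose! t ht using hmul
  have hmonE : ∀ β ∈ X8E N e, ((β, 0) : Mon N M) ∈ monos N M g := by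
    intro β hβ
    rw [X8E_mem] at hβ
    rw [mem_monos]
    simp only [Pi.zero_apply, Finset.sum_const_zero]
    omega
  -- the value for `x ∈ I`
  have hval : ∀ {A : Type} [AddCommGroup A] [Module ℝ A] (r : Fin H' × expo N (B - e) → ℝ)
      (x : ℕ) (_ : x ∈ I) (W : (Fin N → ℕ) → A),
      ∑ s : IxT N B H, (X8Φ (e := e) t r s * (φ s.1 x : ℝ)) • W s.ex =
        ∑ p, ∑ β ∈ X8E N e, (r p * ((ψ p.1 x : ℝ) * c (β, 0) x)) • W (p.2.1 + β) := by
    intro A _ _ r x hx W
    rw [X8Φ_val heB t r (fun h => (φ h x : ℝ)) W]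
    refine Finset.sum_congr rfl fun p _ => Finset.sum_congr rfl fun β hβ => ?_
    rw [ht p.1 (β, 0) (hmonE β hβ) x hx]
  -- injectivity
  have hinj : Function.Injective (X8Φ (N := N) (B := B) (e := e) t) := by
    rw [injective_iff_map_eq_zero]
    intro r hr
    have key : ∀ x ∈ I, ∀ α : expo N (B - e), ∑ l, r (l, α) * (ψ l x : ℝ) = 0 := by
      intro x hx α
      obtain ⟨β₀, hβ₀, hc⟩ := hlead x hx
      have hβE : β₀ ∈ X8E N e := X8E_mem.2 hβ₀
      have h1 := hval r x hx (X8m (N := N))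
      rw [hr] at h1
      simp only [Pi.zero_apply, zero_mul, zero_smul, Finset.sum_const_zero] at h1
      have h2 : (∑ p : Fin H' × expo N (B - e), (r p * (ψ p.1 x : ℝ)) • X8m p.2.1) *
          (∑ β ∈ X8E N e, c (β, 0) x • X8m β) = 0 := by
        rw [h1, Finset.sum_mul]
        refine Finset.sum_congr rfl fun p _ => ?_
        rw [Finset.mul_sum]
        refine Finset.sum_congr rfl fun β _ => ?_
        rw [X8m_add, smul_mul_smul_comm, mul_assoc]
      have h3 : (∑ β ∈ X8E N e, c (β, 0) x • X8m β) ≠ 0 := by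
        intro h
        apply hc
        have h4 := congrArg (MvPolynomial.coeff (Finsupp.equivFunOnFinite.symm β₀)) h
        rw [MvPolynomial.coeff_sum, MvPolynomial.coeff_zero] at h4
        simp only [MvPolynomial.coeff_smul, X8m_coeff, smul_eq_mul, mul_ite, mul_one,
          mul_zero] at h4
        rw [Finset.sum_ite_eq' (X8E N e) β₀ (fun β => c (β, 0) x), if_pos hβE] at h4
        exact h4
      have h5 := (mul_eq_zero.1 h2).resolve_right h3
      have h6 := congrArg (MvPolynomial.coeff (Finsupp.equivFunOnFinite.symm α.1)) h5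
      rw [MvPolynomial.coeff_sum, MvPolynomial.coeff_zero, Fintype.sum_prod_type] at h6
      rw [← h6]
      refine Finset.sum_congr rfl fun l _ => ?_
      rw [Finset.sum_eq_single α]
      · simp only [MvPolynomial.coeff_smul, X8m_coeff, smul_eq_mul, if_true, mul_one]
      · intro b _ hb
        have hb' : ¬ (b : Fin N → ℕ) = (α : Fin N → ℕ) := fun h => hb (Subtype.ext h)
        simp only [MvPolynomial.coeff_smul, X8m_coeff, smul_eq_mul, if_neg hb', mul_zero]
      · intro h
        exact absurd (Finset.mem_univ _) h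
    funext p
    have h1 := hψ (fun l => r (l, p.2)) fun x hx => key x hx p.2
    exact congrFun h1 p.1
  refine ⟨LinearMap.range (X8Φ (N := N) (B := B) (e := e) t), ?_, ?_⟩
  · rw [LinearMap.finrank_range_of_inj hinj, Module.finrank_fintype_fun_eq_card,
      Fintype.card_prod, Fintype.card_fin, Fintype.card_coe]
  · rintro ρ ⟨r, rfl⟩ m hm
    -- truncation
    set r' : Fin H' × expo N (B - e) → ℝ := fun p => if ∑ i, p.2.1 i + e ≤ m then r p else 0
      with hr'
    have htr : X8Φ (e := e) t r = X8Φ (B := B) (e := e) t r' := by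
      funext s
      by_cases hs : s.dg ≤ m
      · rw [X8Φ_apply, X8Φ_apply]
        refine Finset.sum_congr rfl fun p _ => Finset.sum_congr rfl fun β hβ => ?_
        split_ifs with h1
        · have h2 : ∑ i, p.2.1 i + e ≤ m := by
            rw [X8E_mem] at hβ
            unfold IxT.dg at hs
            rw [h1] at hs
            simp only [Pi.add_apply] at hs
            rw [Finset.sum_add_distrib, hβ] at hs
            exact hs
          rw [hr']
          simp only [if_pos h2]
        · rfl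
      · have h0 : X8Φ (e := e) t r s = 0 := by
          by_contra h
          exact hs (hm s h)
        rw [h0, X8Φ_apply]
        symm
        refine Finset.sum_eq_zero fun p _ => Finset.sum_eq_zero fun β hβ => ?_
        split_ifs with h1
        · have h2 : ¬ (∑ i, p.2.1 i + e ≤ m) := by
            rw [X8E_mem] at hβ
            unfold IxT.dg at hs
            rw [h1] at hs
            simp only [Pi.add_apply] at hs
            rw [Finset.sum_add_distrib, hβ] at hs
            exact hs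
          rw [hr']
          simp only [if_neg h2, zero_mul]
        · rfl
    set Ms : Finset (Mon N M) := (monos N M g).filter fun μ => ∑ i, μ.1 i < e with hMs
    refine ⟨fun s κ => - ∑ p, ∑ μ ∈ Ms.filter fun μ => μ.2 = κ,
      if s.ex = p.2.1 + μ.1 then r' p * t p.1 μ s.1 else 0, ?_, ?_⟩
    · intro s κ h
      rw [ne_eq, neg_eq_zero] at h
      obtain ⟨p, _, hp⟩ := Finset.exists_ne_zero_of_sum_ne_zero h
      obtain ⟨μ, hμ, hpμ⟩ := Finset.exists_ne_zero_of_sum_ne_zero hp
      rw [Finset.mem_filter, hMs, Finset.mem_filter] at hμ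
      have h1 : s.ex = p.2.1 + μ.1 := by
        by_contra h1
        exact hpμ (if_neg h1)
      rw [if_pos h1] at hpμ
      have h2 : ∑ i, p.2.1 i + e ≤ m := by
        by_contra h2
        apply hpμ
        rw [hr']
        simp only [if_neg h2, zero_mul]
      unfold IxT.dg
      rw [h1]
      simp only [Pi.add_apply]
      rw [Finset.sum_add_distrib]
      have h3 := hμ.1.2
      omega
    · intro x hx
      rw [htr]
      set S : (Fin N → ℕ) → ℝ := fun α => ∏ i, Sx q (ks i) (cs i) x ^ α i with hS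
      set T : (Fin M → ℕ) → ℝ := fun κ => ∏ i, Tx q (kt i) (ct i) x ^ κ i with hT
      have hSadd : ∀ α β, S (α + β) = S α * S β := by
        intro α β
        simp only [hS, Pi.add_apply, pow_add, Finset.prod_mul_distrib]
      -- the relation
      have hrelx : ∑ β ∈ X8E N e, c (β, 0) x * S β = - ∑ μ ∈ Ms, c μ x * (S μ.1 * T μ.2) := by
        have h1 := hrel x hx
        rw [← Finset.sum_filter_add_sum_filter_not (monos N M g) (fun μ => ∑ i, μ.1 i < e)] at h1
        have h2 : ∑ μ ∈ (monos N M g).filter (fun μ => ¬ ∑ i, μ.1 i < e), c μ x *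
            ((∏ i, Sx q (ks i) (cs i) x ^ μ.1 i) * ∏ i, Tx q (kt i) (ct i) x ^ μ.2 i) =
            ∑ β ∈ X8E N e, c (β, 0) x * S β := by
          have h3 : ∑ β ∈ X8E N e, c (β, 0) x * S β =
              ∑ μ ∈ (X8E N e).image (fun β => ((β, 0) : Mon N M)), c μ x * (S μ.1 * T μ.2) := by
            rw [Finset.sum_image]
            · refine Finset.sum_congr rfl fun β _ => ?_
              have hT0 : T 0 = 1 := by
                simp only [hT, Pi.zero_apply, pow_zero, Finset.prod_const_one]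
              simp only [hT0, mul_one]
            · intro β _ β' _ h
              exact (Prod.mk.inj h).1
          rw [h3]
          symm
          refine Finset.sum_subset ?_ ?_
          · intro μ hμ
            rw [Finset.mem_image] at hμ
            obtain ⟨β, hβ, rfl⟩ := hμ
            rw [Finset.mem_filter]
            refine ⟨hmonE β hβ, ?_⟩
            rw [X8E_mem] at hβ
            simp only [hβ, lt_irrefl, not_false_eq_true]
          · intro μ hμ hμ'
            rw [Finset.mem_filter] at hμ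
            have h4 : c μ x = 0 := by
              by_contra h4
              rcases hsup x hx μ hμ.1 h4 with h5 | h5
              · exact hμ.2 h5
              · apply hμ'
                rw [Finset.mem_image]
                refine ⟨μ.1, X8E_mem.2 h5.1, ?_⟩
                rw [← h5.2]
            rw [h4, zero_mul]
        rw [h2] at h1
        have h6 : ∑ μ ∈ (monos N M g).filter (fun μ => ∑ i, μ.1 i < e), c μ x *
            ((∏ i, Sx q (ks i) (cs i) x ^ μ.1 i) * ∏ i, Tx q (kt i) (ct i) x ^ μ.2 i) =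
            ∑ μ ∈ Ms, c μ x * (S μ.1 * T μ.2) := rfl
        rw [h6] at h1
        linarith
      -- left hand side
      have hL : ∑ s : IxT N B H, X8Φ (e := e) t r' s * ((φ s.1 x : ℝ) * S s.ex) =
          ∑ p, (r' p * (ψ p.1 x : ℝ) * S p.2.1) * ∑ β ∈ X8E N e, c (β, 0) x * S β := by
        have h1 := hval r' x hx S
        simp only [smul_eq_mul] at h1
        rw [Finset.sum_congr rfl fun s _ => (mul_assoc (X8Φ (e := e) t r' s) (φ s.1 x : ℝ)
          (S s.ex)).symm, h1]
        refine Finset.sum_congr rfl fun p _ => ?_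
        rw [Finset.mul_sum]
        refine Finset.sum_congr rfl fun β _ => ?_
        rw [hSadd]
        ring
      -- right hand side
      have hRr : ∑ s : IxT N B H, ∑ κ ∈ expo M g, (- ∑ p, ∑ μ ∈ Ms.filter fun μ => μ.2 = κ,
          if s.ex = p.2.1 + μ.1 then r' p * t p.1 μ s.1 else 0) * T κ *
            ((φ s.1 x : ℝ) * S s.ex) =
          - ∑ p, (r' p * (ψ p.1 x : ℝ) * S p.2.1) * ∑ μ ∈ Ms, c μ x * (S μ.1 * T μ.2) := by
        have h1 : ∀ s : IxT N B H, ∑ κ ∈ expo M g, (- ∑ p, ∑ μ ∈ Ms.filter fun μ => μ.2 = κ,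
            if s.ex = p.2.1 + μ.1 then r' p * t p.1 μ s.1 else 0) * T κ *
              ((φ s.1 x : ℝ) * S s.ex) =
            - ∑ p, ∑ μ ∈ Ms, (if s.ex = p.2.1 + μ.1 then
              ((r' p * t p.1 μ s.1) * (φ s.1 x : ℝ)) • (T μ.2 * S s.ex) else 0) := by
          intro s
          have h2 : ∀ κ ∈ expo M g, (- ∑ p, ∑ μ ∈ Ms.filter fun μ => μ.2 = κ,
              if s.ex = p.2.1 + μ.1 then r' p * t p.1 μ s.1 else 0) * T κ *
                ((φ s.1 x : ℝ) * S s.ex) =
              - ∑ p, ∑ μ ∈ Ms.filter fun μ => μ.2 = κ, (if s.ex = p.2.1 + μ.1 then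
                ((r' p * t p.1 μ s.1) * (φ s.1 x : ℝ)) • (T μ.2 * S s.ex) else 0) := by
            intro κ _
            rw [neg_mul, neg_mul, Finset.sum_mul, Finset.sum_mul]
            congr 1
            refine Finset.sum_congr rfl fun p _ => ?_
            rw [Finset.sum_mul, Finset.sum_mul]
            refine Finset.sum_congr rfl fun μ hμ => ?_
            rw [Finset.mem_filter] at hμ
            rw [hμ.2]
            split_ifs
            · rw [smul_eq_mul]
              ring
            · ring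
          rw [Finset.sum_congr rfl h2, Finset.sum_neg_distrib, Finset.sum_comm]
          congr 1
          refine Finset.sum_congr rfl fun p _ => ?_
          rw [Finset.sum_fiberwise_of_maps_to]
          intro μ hμ
          rw [hMs, Finset.mem_filter, mem_monos] at hμ
          rw [mem_expo]
          omega
        rw [Finset.sum_congr rfl fun s _ => h1 s, Finset.sum_neg_distrib]
        congr 1
        rw [X8_exp Ms (fun (p : Fin H' × expo N (B - e)) (μ : Mon N M) => p.2.1 + μ.1)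
          (fun p μ h => r' p * t p.1 μ h) (fun h => (φ h x : ℝ)) (fun μ α => T μ.2 * S α)]
        · refine Finset.sum_congr rfl fun p _ => ?_
          rw [Finset.mul_sum]
          refine Finset.sum_congr rfl fun μ hμ => ?_
          have hμ' : μ ∈ monos N M g := (Finset.mem_filter.1 (hMs ▸ hμ)).1
          have h3 : ∑ h, r' p * t p.1 μ h * (φ h x : ℝ) = r' p * ((ψ p.1 x : ℝ) * c μ x) := by
            rw [ht p.1 μ hμ' x hx, Finset.mul_sum]
            exact Finset.sum_congr rfl fun h _ => by ring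
          rw [h3, hSadd, smul_eq_mul]
          ring
        · intro p μ hμ
          have h2 := mem_expo.1 p.2.2
          rw [hMs, Finset.mem_filter] at hμ
          have h3 := hμ.2
          rw [mem_expo]
          simp only [Pi.add_apply]
          rw [Finset.sum_add_distrib]
          omega
      have hfin : ∑ s : IxT N B H, X8Φ (e := e) t r' s * ((φ s.1 x : ℝ) * S s.ex) =
          ∑ s : IxT N B H, ∑ κ ∈ expo M g, (- ∑ p, ∑ μ ∈ Ms.filter fun μ => μ.2 = κ,
          if s.ex = p.2.1 + μ.1 then r' p * t p.1 μ s.1 else 0) * T κ *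
            ((φ s.1 x : ℝ) * S s.ex) := by
        rw [hL, hRr, hrelx]
        simp only [mul_neg, Finset.sum_neg_distrib]
      exact hfin

end CM68
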