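import Pool.Agent.LibCM68.A5
import Pool.Agent.LibCM2.B2
import Pool.Agent.LibPX.X4

/-!
# Row X5: polynomial approximation of the coefficient functions (MEDIUM/STRONG; templates LibCM3/B4.lean, LibCM3/Z9b.lean)

`OmT_polyX`: as `OmT_poly3` in LibCM3/Z9b.lean (exponent `D.E` for `D.g`).
`Av_polyX`: as `Av_poly3` in LibCM3/B4.lean, for `∑ μ.1 ≤ B`, `∑ μ.2 ≤ E` (there `∑ + ∑ ≤ g`): `Kd = 4 ^ (B + E + N + M)`, `ec = (w + 2) * (B + E + N + M)`.
`Cf_polyX`: `Tx = pT + aT` at a node (`splitT`, LibCM68/A5, see LibCM3/H3.lean), so `Om^E * ∏ aS^μ.1 * ∏ Tx^μ.2 = ∑_{κ ≤ μ.2} bn(μ.2, κ) [Om^E ∏ pT^κ] [∏ aS^μ.1 ∏ aT^(μ.2 - κ)]` (`Finset.prod_univ_sum`,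
`add_pow`); the first bracket is a polynomial of degree `≤ E ww win` of size `≤ Wb(E ww) * win^E` (`Om_leX`, `pT_leX`), the second is approximated (`Av_polyX`); the binomial coefficients sum up to
`2^(∑ μ.2) ≤ 2^E`.
-/

namespace CM68

open Finset Polynomial

/-- the constants -/
noncomputable def DatX.Kd (D : DatX) : ℝ := 4 ^ (D.B + D.E + D.N + D.M)

def DatX.ec (D : DatX) : ℕ := (D.w + 2) * (D.B + D.E + D.N + D.M)

private noncomputable def X5_L (q n T i : ℕ) : ℝ[X] := X + C (-(q : ℝ) * (n + T) + q * i)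

private theorem X5_WP {q n T w k i : ℕ} (hk : k ≤ w) (hi : i < win n T) :
    ∃ g : ℝ[X], WP q n T w = X5_L q n T i ^ k * g := by
  refine ⟨X5_L q n T i ^ (w - k) *
    (C (bet q n T) * ∏ i' ∈ (range (win n T)).erase i, X5_L q n T i') ^ w, ?_⟩
  have h1 : ∏ i' ∈ range (win n T), X5_L q n T i' =
      X5_L q n T i * ∏ i' ∈ (range (win n T)).erase i, X5_L q n T i' :=
    (Finset.mul_prod_erase _ _ (Finset.mem_range.2 hi)).symm
  have h2 : WP q n T w = (C (bet q n T) * ∏ i' ∈ range (win n T), X5_L q n T i') ^ w := rfl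
  have h3 : X5_L q n T i ^ w = X5_L q n T i ^ k * X5_L q n T i ^ (w - k) := by
    rw [← pow_add, Nat.add_sub_cancel' hk]
  rw [h2, h1, mul_left_comm, mul_pow, h3, mul_assoc]

private theorem X5_ne {q n T i y : ℕ} (hy : 0 < y % q) :
    (y : ℝ) - (q : ℝ) * (n + T) + q * i ≠ 0 := by
  intro h
  have h1 : (y : ℝ) = (q : ℝ) * ((n : ℝ) + T - i) := by linarith
  have h2 : (y : ℤ) = (q : ℤ) * ((n : ℤ) + T - i) := by exact_mod_cast h1
  have h3 : (q : ℤ) ∣ (y : ℤ) := ⟨_, h2⟩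
  have h4 : q ∣ y := Int.natCast_dvd_natCast.1 h3
  rw [Nat.mod_eq_zero_of_dvd h4] at hy
  exact lt_irrefl 0 hy

private theorem X5_Omne (D : DatX) (n T : ℕ) : D.Om n T ≠ 0 := by
  have hq : 1 ≤ D.q := by
    have := D.hq
    omega
  have h : ∀ c : ℕ, taylor (c : ℝ) (WP D.q n T D.w) ≠ 0 := by
    intro c h
    exact W_ne n T D.w hq ((taylor_injective (c : ℝ)) (by rw [h, map_zero]))
  unfold DatX.Om
  exact mul_ne_zero (Finset.prod_ne_zero_iff.2 fun i _ => h _)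
    (Finset.prod_ne_zero_iff.2 fun i _ => h _)

private theorem X5_one (D : DatX) (n T : ℕ) (a : Fin D.M) {i : ℕ} (hi : i < win n T) :
    ∃ g : ℝ[X], g.natDegree ≤ D.ww * win n T ∧ ∀ j : ℕ, 0 < (j + D.ct a) % D.q →
      g.eval (j : ℝ) = (D.Om n T).eval (j : ℝ) *
        (1 / (((j + D.ct a : ℕ) : ℝ) - (D.q : ℝ) * (n + T) + D.q * i) ^ D.kt a) := by
  obtain ⟨g, hg⟩ := X5_WP (q := D.q) (n := n) (T := T) (D.hkt a).2 hi
  have h1 : D.Om n T = taylor (D.ct a : ℝ) (X5_L D.q n T i) ^ D.kt a *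
      (taylor (D.ct a : ℝ) g * ((∏ i, taylor (D.cs i : ℝ) (WP D.q n T D.w)) *
        ∏ i ∈ Finset.univ.erase a, taylor (D.ct i : ℝ) (WP D.q n T D.w))) := by
    have h2 : D.Om n T = (∏ i, taylor (D.cs i : ℝ) (WP D.q n T D.w)) *
        (taylor (D.ct a : ℝ) (WP D.q n T D.w) *
        ∏ i ∈ Finset.univ.erase a, taylor (D.ct i : ℝ) (WP D.q n T D.w)) := by
      rw [Finset.mul_prod_erase Finset.univ (fun i => taylor (D.ct i : ℝ) (WP D.q n T D.w))
        (Finset.mem_univ a)]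
      rfl
    rw [h2, hg, taylor_mul, taylor_pow]
    ring
  refine ⟨taylor (D.ct a : ℝ) g * ((∏ i, taylor (D.cs i : ℝ) (WP D.q n T D.w)) *
        ∏ i ∈ Finset.univ.erase a, taylor (D.ct i : ℝ) (WP D.q n T D.w)), ?_, ?_⟩
  · refine (natDegree_le_of_dvd ⟨taylor (D.ct a : ℝ) (X5_L D.q n T i) ^ D.kt a, ?_⟩
      (X5_Omne D n T)).trans (Om_natDegreeX D n T)
    rw [h1, mul_comm]
  · intro j hj
    have h3 : (taylor (D.ct a : ℝ) (X5_L D.q n T i)).eval (j : ℝ) =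
        ((j + D.ct a : ℕ) : ℝ) - (D.q : ℝ) * (n + T) + D.q * i := by
      rw [taylor_eval, X5_L, eval_add, eval_X, eval_C]
      push_cast
      ring
    have h4 : ((j + D.ct a : ℕ) : ℝ) - (D.q : ℝ) * (n + T) + D.q * i ≠ 0 := X5_ne hj
    rw [h1, eval_mul (p := taylor (D.ct a : ℝ) (X5_L D.q n T i) ^ D.kt a), eval_pow, h3]
    have h5 : (((j + D.ct a : ℕ) : ℝ) - (D.q : ℝ) * (n + T) + D.q * i) ^ D.kt a ≠ 0 :=
      pow_ne_zero _ h4
    field_simp

private theorem X5_rr (D : DatX) (n T : ℕ) (a : Fin D.M) :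
    ∃ g : ℝ[X], g.natDegree ≤ D.ww * win n T ∧ ∀ j : ℕ, 0 < (j + D.ct a) % D.q →
      g.eval (j : ℝ) = (D.Om n T).eval (j : ℝ) * D.pT n T a j := by
  classical
  have h : ∀ i : ℕ, ∃ g : ℝ[X], i < win n T → g.natDegree ≤ D.ww * win n T ∧
      ∀ j : ℕ, 0 < (j + D.ct a) % D.q → g.eval (j : ℝ) = (D.Om n T).eval (j : ℝ) *
        (1 / (((j + D.ct a : ℕ) : ℝ) - (D.q : ℝ) * (n + T) + D.q * i) ^ D.kt a) := by
    intro i
    by_cases hi : i < win n T
    · obtain ⟨g, hg⟩ := X5_one D n T a hi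
      exact ⟨g, fun _ => hg⟩
    · exact ⟨0, fun h => absurd h hi⟩
  choose g hg using h
  refine ⟨∑ i ∈ range (win n T), g i, ?_, fun j hj => ?_⟩
  · exact natDegree_sum_le_of_forall_le _ _ fun i hi => (hg i (Finset.mem_range.1 hi)).1
  · rw [eval_finsetSum, DatX.pT, rr, Finset.mul_sum]
    exact Finset.sum_congr rfl fun i hi => (hg i (Finset.mem_range.1 hi)).2 j hj

theorem OmT_polyX (D : DatX) (n T : ℕ) {κ : Fin D.M → ℕ} (hκ : ∑ i, κ i ≤ D.E) :
    ∃ g : ℝ[X], g.natDegree ≤ D.E * (D.ww * win n T) ∧ ∀ j ∈ D.Nd n,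
      g.eval (j : ℝ) = (D.Om n T).eval (j : ℝ) ^ D.E * ∏ i, D.pT n T i j ^ κ i := by
  classical
  have h := fun a : Fin D.M => X5_rr D n T a
  choose h hd he using h
  refine ⟨D.Om n T ^ (D.E - ∑ i, κ i) * ∏ i, h i ^ κ i, ?_, fun j hj => ?_⟩
  · have h1 : (D.Om n T ^ (D.E - ∑ i, κ i)).natDegree ≤ (D.E - ∑ i, κ i) * (D.ww * win n T) :=
      natDegree_pow_le.trans (Nat.mul_le_mul_left _ (Om_natDegreeX D n T))
    have h2 : (∏ i, h i ^ κ i).natDegree ≤ (∑ i, κ i) * (D.ww * win n T) := by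
      refine (natDegree_prod_le _ _).trans ?_
      rw [Finset.sum_mul]
      exact Finset.sum_le_sum fun i _ => natDegree_pow_le.trans (Nat.mul_le_mul_left _ (hd i))
    refine natDegree_mul_le.trans ((add_le_add h1 h2).trans (le_of_eq ?_))
    rw [← add_mul, Nat.sub_add_cancel hκ]
  · have hj1 : j % D.q ∈ D.I := (Finset.mem_filter.1 hj).2
    have hpos : ∀ i, 0 < (j + D.ct i) % D.q := by
      intro i
      have h1 := D.hxt _ hj1 i
      rwa [Nat.mod_add_mod] at h1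
    rw [eval_mul, eval_pow, eval_prod]
    have h3 : ∏ i, (h i ^ κ i).eval (j : ℝ) =
        (D.Om n T).eval (j : ℝ) ^ (∑ i, κ i) * ∏ i, D.pT n T i j ^ κ i := by
      rw [← Finset.prod_pow_eq_pow_sum, ← Finset.prod_mul_distrib]
      refine Finset.prod_congr rfl fun i _ => ?_
      rw [eval_pow, he i j (hpos i), mul_pow]
    rw [h3, ← mul_assoc, ← pow_add, Nat.sub_add_cancel hκ]

private theorem X5_pow {h R : ℝ} {w : ℕ} {f : ℝ → ℝ} (hh : 0 < h) (hR : 2 ≤ R)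
    (hf : Apx h R 4 w f) (a : ℕ) : Apx h R (4 ^ a) (a * (w + 1)) fun v => f v ^ a := by
  induction a with
  | zero =>
    simp only [pow_zero, Nat.zero_mul]
    exact apx_one hh hR
  | succ a ih =>
    have h1 := apx_mul hh hR (by positivity) (by norm_num) ih hf
    have h2 : a * (w + 1) + w + 1 = (a + 1) * (w + 1) := by ring
    rw [h2] at h1
    simp only [pow_succ]
    exact h1

private theorem X5_prod {h R : ℝ} {w n : ℕ} {f : Fin n → ℝ → ℝ} (hh : 0 < h) (hR : 2 ≤ R)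
    (hf : ∀ i, Apx h R 4 w (f i)) (a : Fin n → ℕ) (s : Finset (Fin n)) :
    Apx h R (4 ^ ∑ i ∈ s, a i) ((∑ i ∈ s, a i) * (w + 1) + s.card)
      fun v => ∏ i ∈ s, f i v ^ a i := by
  classical
  induction s using Finset.induction_on with
  | empty =>
    simp only [Finset.sum_empty, Finset.prod_empty, pow_zero, Nat.zero_mul, Finset.card_empty]
    exact apx_one hh hR
  | insert i s hi ih =>
    have h1 := apx_mul hh hR (by positivity) (by positivity) (X5_pow hh hR (hf i) (a i)) ih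
    have h2 : a i * (w + 1) + ((∑ i ∈ s, a i) * (w + 1) + s.card) + 1 =
        (∑ i ∈ insert i s, a i) * (w + 1) + (insert i s).card := by
      rw [Finset.sum_insert hi, Finset.card_insert_of_notMem hi]
      ring
    rw [h2] at h1
    rw [← pow_add, ← Finset.sum_insert hi] at h1
    simp only [Finset.prod_insert hi]
    exact h1

theorem Av_polyX (D : DatX) {n r m : ℕ} (hn : 1 ≤ n) (hr : 1 ≤ r) (hm : 1 ≤ m)
    {μ : Mon D.N D.M} (hμ : μ ∈ D.Mm) :
    ∃ G : ℝ[X], G.natDegree < m ∧ ∀ j : ℕ, j < D.q * (n - 1) →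
      |(∏ i, D.aS (r * n) i j ^ μ.1 i) * (∏ i, D.aT n (r * n) i j ^ μ.2 i) - G.eval (j : ℝ)| ≤
        D.Kd * ce D.ec * ((m : ℝ) + 1) ^ D.ec * (1 / (2 * (r : ℝ) + 1)) ^ m := by
  have hq1 : 1 ≤ D.q := le_trans (by norm_num) D.hq
  have hnR : (0 : ℝ) < n := Nat.cast_pos.2 hn
  have hqR : (0 : ℝ) < D.q := Nat.cast_pos.2 hq1
  have hrR : (1 : ℝ) ≤ r := by exact_mod_cast hr
  have hh : 0 < (D.q : ℝ) * n / 2 := by positivity
  have hR : (2 : ℝ) ≤ 2 * (r : ℝ) + 1 := by linarith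
  have hKc : (0 : ℝ) ≤ D.Kd := by
    rw [DatX.Kd]
    positivity
  by_cases hNM : D.N + D.M = 0
  · have hN : IsEmpty (Fin D.N) := by
      rw [show D.N = 0 by omega]
      infer_instance
    have hM : IsEmpty (Fin D.M) := by
      rw [show D.M = 0 by omega]
      infer_instance
    refine ⟨1, by rw [natDegree_one]; omega, fun j _ => ?_⟩
    rw [Fintype.prod_empty, Fintype.prod_empty, eval_one, one_mul, sub_self, abs_zero]
    have h1 : 0 ≤ ce D.ec := zero_le_one.trans (ce_pos D.ec)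
    positivity
  -- the factors
  have hS : ∀ i : Fin D.N, Apx ((D.q : ℝ) * n / 2) (2 * r + 1) 4 D.w
      fun v => tl D.q (D.ks i) (r * n) ((D.q : ℝ) * n / 2 + v + D.cs i) := by
    intro i
    have h1 := apx_tl (c := D.cs i) hq1 hn hr (D.hks i).1
    exact apx_mono hh hR (by norm_num) (D.hks i).2 (by norm_num) h1
  have hT : ∀ i : Fin D.M, Apx ((D.q : ℝ) * n / 2) (2 * r + 1) 4 D.w
      fun v => tl D.q (D.kt i) (r * n) ((D.q : ℝ) * n / 2 + v + D.ct i) +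
        (-1) ^ D.kt i * tl D.q (D.kt i) (r * n)
          ((D.q : ℝ) * n - ((D.q : ℝ) * n / 2 + v + D.ct i)) := by
    intro i
    have h1 := apx_tl (c := D.ct i) hq1 hn hr (D.hkt i).1
    have h2 := apx_sign (apx_tl' (c := D.ct i) hq1 hn hr (D.hkt i).1 (D.hct i).le) (D.kt i)
    have h3 := apx_add hh hR h1 h2
    exact apx_mono hh hR (by norm_num) (D.hkt i).2 (by norm_num) h3
  -- the product
  have hP := apx_mul hh hR (by positivity) (by positivity)
    (X5_prod hh hR hS μ.1 Finset.univ) (X5_prod hh hR hT μ.2 Finset.univ)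
  have hμ' := mem_product.1 hμ
  have hd1 : ∑ i, μ.1 i ≤ D.B := mem_expo.1 hμ'.1
  have hd2 : ∑ i, μ.2 i ≤ D.E := mem_expo.1 hμ'.2
  have hK : (4 : ℝ) ^ (∑ i, μ.1 i) * 4 ^ (∑ i, μ.2 i) ≤ D.Kd := by
    rw [← pow_add, DatX.Kd]
    exact pow_le_pow_right₀ (by norm_num) (by omega)
  have he : (∑ i, μ.1 i) * (D.w + 1) + (Finset.univ : Finset (Fin D.N)).card +
      ((∑ i, μ.2 i) * (D.w + 1) + (Finset.univ : Finset (Fin D.M)).card) + 1 ≤ D.ec := by
    rw [Finset.card_univ, Finset.card_univ, Fintype.card_fin, Fintype.card_fin, DatX.ec]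
    have h1 : (∑ i, μ.1 i) * (D.w + 1) ≤ D.B * (D.w + 1) := Nat.mul_le_mul_right _ hd1
    have h2 : (∑ i, μ.2 i) * (D.w + 1) ≤ D.E * (D.w + 1) := Nat.mul_le_mul_right _ hd2
    have h3 : 1 ≤ D.N + D.M := by omega
    have h4 : 1 ≤ (D.w + 1) * (D.N + D.M) := Nat.mul_pos (Nat.succ_pos _) h3
    nlinarith [Nat.zero_le (D.w * D.N), Nat.zero_le (D.w * D.M)]
  have hA := apx_mono hh hR hK he (by positivity) hP
  obtain ⟨G, hG, hGv⟩ := apx_poly hh hR hKc hA hm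
  refine ⟨G.comp (X - C ((D.q : ℝ) * n / 2)), ?_, fun j hj => ?_⟩
  · rw [natDegree_comp, natDegree_X_sub_C, mul_one]
    exact hG
  · have hj1 : (j : ℝ) ≤ D.q * n := by
      have h1 : j ≤ D.q * n := hj.le.trans (Nat.mul_le_mul_left _ (Nat.sub_le _ _))
      exact_mod_cast h1
    have hj0 : (0 : ℝ) ≤ j := Nat.cast_nonneg j
    have hv : |(j : ℝ) - (D.q : ℝ) * n / 2| ≤ (D.q : ℝ) * n / 2 := by
      rw [abs_le]
      constructor <;> linarith
    have h2 := hGv _ hv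
    have h3 : (∏ i, D.aS (r * n) i j ^ μ.1 i) * (∏ i, D.aT n (r * n) i j ^ μ.2 i) =
        (∏ i, tl D.q (D.ks i) (r * n) ((D.q : ℝ) * n / 2 + ((j : ℝ) - (D.q : ℝ) * n / 2) +
          D.cs i) ^ μ.1 i) *
        ∏ i, (tl D.q (D.kt i) (r * n) ((D.q : ℝ) * n / 2 + ((j : ℝ) - (D.q : ℝ) * n / 2) +
          D.ct i) + (-1) ^ D.kt i * tl D.q (D.kt i) (r * n) ((D.q : ℝ) * n -
          ((D.q : ℝ) * n / 2 + ((j : ℝ) - (D.q : ℝ) * n / 2) + D.ct i))) ^ μ.2 i := by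
      have e1 : (D.q : ℝ) * n / 2 + ((j : ℝ) - (D.q : ℝ) * n / 2) = j := by ring
      rw [e1]
      simp only [DatX.aS, DatX.aT, Nat.cast_add]
    rw [eval_comp, eval_sub, eval_X, eval_C, h3]
    exact h2

theorem Cf_polyX (D : DatX) {n r m : ℕ} (hn : 1 ≤ n) (hr : 1 ≤ r) (hm : 1 ≤ m)
    {μ : Mon D.N D.M} (hμ : μ ∈ D.Mm) :
    ∃ G : ℝ[X], G.natDegree < m + D.E * (D.ww * win n (r * n)) ∧ ∀ j ∈ D.Nd n,
      |(D.Om n (r * n)).eval (j : ℝ) ^ D.E * D.Cf (r * n) μ j - G.eval (j : ℝ)| ≤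
        2 ^ D.E * (Wb D.q n (r * n) (D.E * D.ww) * (win n (r * n) : ℝ) ^ D.E) *
          (D.Kd * ce D.ec * ((m : ℝ) + 1) ^ D.ec * (1 / (2 * (r : ℝ) + 1)) ^ m) := by
  classical
  have hq := D.hq
  have hμ' := mem_product.1 hμ
  have hd1 : ∑ i, μ.1 i ≤ D.B := mem_expo.1 hμ'.1
  have hd2 : ∑ i, μ.2 i ≤ D.E := mem_expo.1 hμ'.2
  set Kp : Finset (Fin D.M → ℕ) := Fintype.piFinset (fun i => range (μ.2 i + 1)) with hKp
  have hle : ∀ κ ∈ Kp, ∀ i, κ i ≤ μ.2 i := by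
    intro κ hκ i
    have := mem_range.1 (Fintype.mem_piFinset.1 hκ i)
    omega
  have hg1 : ∀ κ : Fin D.M → ℕ, ∃ g : ℝ[X], κ ∈ Kp → g.natDegree ≤ D.E * (D.ww * win n (r * n)) ∧
      ∀ j ∈ D.Nd n, g.eval (j : ℝ) =
        (D.Om n (r * n)).eval (j : ℝ) ^ D.E * ∏ i, D.pT n (r * n) i j ^ κ i := by
    intro κ
    by_cases hκ : κ ∈ Kp
    · obtain ⟨g, hg⟩ := OmT_polyX D n (r * n) (κ := κ)
        ((Finset.sum_le_sum fun i _ => hle κ hκ i).trans hd2)
      exact ⟨g, fun _ => hg⟩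
    · exact ⟨0, fun h => absurd h hκ⟩
  have hg2 : ∀ κ : Fin D.M → ℕ, ∃ G : ℝ[X], G.natDegree < m ∧ ∀ j : ℕ, j < D.q * (n - 1) →
      |(∏ i, D.aS (r * n) i j ^ μ.1 i) * (∏ i, D.aT n (r * n) i j ^ (μ.2 i - κ i)) -
        G.eval (j : ℝ)| ≤
        D.Kd * ce D.ec * ((m : ℝ) + 1) ^ D.ec * (1 / (2 * (r : ℝ) + 1)) ^ m := by
    intro κ
    exact Av_polyX D hn hr hm (μ := (μ.1, fun i => μ.2 i - κ i)) (mem_product.2
      ⟨hμ'.1, mem_expo.2 ((Finset.sum_le_sum fun i _ => Nat.sub_le _ _).trans hd2)⟩)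
  choose g hg using hg1
  choose G hGd hG using hg2
  set err : ℝ := D.Kd * ce D.ec * ((m : ℝ) + 1) ^ D.ec * (1 / (2 * (r : ℝ) + 1)) ^ m with herr
  have herr0 : 0 ≤ err := by
    have hKc : (0 : ℝ) ≤ D.Kd := by
      rw [DatX.Kd]
      positivity
    have h1 : 0 ≤ ce D.ec := zero_le_one.trans (ce_pos D.ec)
    positivity
  set b : (Fin D.M → ℕ) → ℝ := fun κ => ∏ i, (((μ.2 i).choose (κ i) : ℕ) : ℝ) with hb
  have hb0 : ∀ κ, 0 ≤ b κ := fun κ => Finset.prod_nonneg fun i _ => Nat.cast_nonneg _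
  have hbs : ∑ κ ∈ Kp, b κ ≤ 2 ^ D.E := by
    have h1 : ∑ κ ∈ Kp, b κ = 2 ^ ∑ i, μ.2 i := by
      simp only [hb, hKp]
      refine (Finset.prod_univ_sum (fun i => range (μ.2 i + 1))
        (fun i k => (((μ.2 i).choose k : ℕ) : ℝ))).symm.trans ?_
      rw [← Finset.prod_pow_eq_pow_sum]
      refine Finset.prod_congr rfl fun i _ => ?_
      have h2 := Nat.sum_range_choose (μ.2 i)
      exact_mod_cast h2
    rw [h1]
    exact pow_le_pow_right₀ (by norm_num) hd2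
  refine ⟨∑ κ ∈ Kp, C (b κ) * (g κ * G κ), ?_, fun j hj => ?_⟩
  · refine lt_of_le_of_lt (natDegree_sum_le_of_forall_le (n := m - 1 + D.E * (D.ww * win n (r * n)))
      _ _ fun κ hκ => ?_) (by omega)
    refine (natDegree_C_mul_le _ _).trans (natDegree_mul_le.trans ?_)
    have h1 := (hg κ hκ).1
    have h2 := hGd κ
    omega
  · have hj' := Finset.mem_filter.1 (show j ∈ (range (D.q * (n - 1))).filter
      fun j => j % D.q ∈ D.I from hj)
    have hjr := Finset.mem_range.1 hj'.1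
    have hx := hj'.2
    have hjc : ∀ c, c < D.q → j + c < D.q * n := by
      intro c hc
      have h1 : D.q * n = D.q * (n - 1) + D.q := by
        conv_lhs => rw [show n = (n - 1) + 1 by omega]
        ring
      omega
    have hTx : ∀ i, Tx D.q (D.kt i) (D.ct i) (j % D.q) =
        D.pT n (r * n) i j + D.aT n (r * n) i j := by
      intro i
      have h3 : 0 < (j + D.ct i) % D.q := by
        have h4 := D.hxt _ hx i
        rwa [Nat.mod_add_mod] at h4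
      rw [Tx, Nat.mod_add_mod]
      exact splitT (by omega) (D.hkt i).1 (r * n) h3 (hjc _ (D.hct i))
    have hexp : ∏ i, Tx D.q (D.kt i) (D.ct i) (j % D.q) ^ μ.2 i =
        ∑ κ ∈ Kp, b κ * ((∏ i, D.pT n (r * n) i j ^ κ i) *
          ∏ i, D.aT n (r * n) i j ^ (μ.2 i - κ i)) := by
      have h2 : ∀ i, Tx D.q (D.kt i) (D.ct i) (j % D.q) ^ μ.2 i =
          ∑ k ∈ range (μ.2 i + 1), (((μ.2 i).choose k : ℕ) : ℝ) *
            (D.pT n (r * n) i j ^ k * D.aT n (r * n) i j ^ (μ.2 i - k)) := by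
        intro i
        rw [hTx i, add_pow]
        refine Finset.sum_congr rfl fun k _ => ?_
        ring
      simp_rw [h2]
      rw [Finset.prod_univ_sum]
      refine Finset.sum_congr rfl fun κ _ => ?_
      simp only [hb]
      rw [← Finset.prod_mul_distrib, ← Finset.prod_mul_distrib]
    have hwin : (1 : ℝ) ≤ win n (r * n) := by
      have : 1 ≤ win n (r * n) := by
        unfold win
        omega
      exact_mod_cast this
    have hpTb : ∀ κ ∈ Kp, |(g κ).eval (j : ℝ)| ≤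
        Wb D.q n (r * n) (D.E * D.ww) * (win n (r * n) : ℝ) ^ D.E := by
      intro κ hκ
      rw [(hg κ hκ).2 j hj, abs_mul, abs_pow, Finset.abs_prod]
      have h1 : ∏ i, |D.pT n (r * n) i j ^ κ i| ≤ (win n (r * n) : ℝ) ^ D.E := by
        calc ∏ i, |D.pT n (r * n) i j ^ κ i| ≤ ∏ i, (win n (r * n) : ℝ) ^ κ i := by
              refine Finset.prod_le_prod (fun i _ => abs_nonneg _) fun i _ => ?_
              rw [abs_pow]
              exact pow_le_pow_left₀ (abs_nonneg _) (pT_leX D hj i) _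
          _ = (win n (r * n) : ℝ) ^ ∑ i, κ i := by rw [Finset.prod_pow_eq_pow_sum]
          _ ≤ (win n (r * n) : ℝ) ^ D.E := pow_le_pow_right₀ hwin
              ((Finset.sum_le_sum fun i _ => hle κ hκ i).trans hd2)
      exact mul_le_mul (Om_leX D hj) h1 (Finset.prod_nonneg fun i _ => abs_nonneg _)
        ((pow_nonneg (abs_nonneg _) _).trans (Om_leX D hj))
    have hmain : (D.Om n (r * n)).eval (j : ℝ) ^ D.E * D.Cf (r * n) μ j -
        (∑ κ ∈ Kp, C (b κ) * (g κ * G κ)).eval (j : ℝ) =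
        ∑ κ ∈ Kp, b κ * ((g κ).eval (j : ℝ) *
          ((∏ i, D.aS (r * n) i j ^ μ.1 i) * (∏ i, D.aT n (r * n) i j ^ (μ.2 i - κ i)) -
            (G κ).eval (j : ℝ))) := by
      rw [DatX.Cf, hexp, eval_finsetSum, Finset.mul_sum, Finset.mul_sum, ← Finset.sum_sub_distrib]
      refine Finset.sum_congr rfl fun κ hκ => ?_
      rw [eval_mul, eval_mul, eval_C, (hg κ hκ).2 j hj]
      ring
    rw [hmain]
    refine (Finset.abs_sum_le_sum_abs _ _).trans ?_
    set W : ℝ := Wb D.q n (r * n) (D.E * D.ww) * (win n (r * n) : ℝ) ^ D.E with hW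
    have hterm : ∀ κ ∈ Kp, |b κ * ((g κ).eval (j : ℝ) *
          ((∏ i, D.aS (r * n) i j ^ μ.1 i) * (∏ i, D.aT n (r * n) i j ^ (μ.2 i - κ i)) -
            (G κ).eval (j : ℝ)))| ≤ b κ * (W * err) := by
      intro κ hκ
      rw [abs_mul, abs_of_nonneg (hb0 κ), abs_mul]
      refine mul_le_mul_of_nonneg_left ?_ (hb0 κ)
      exact mul_le_mul (hpTb κ hκ) (hG κ j hjr) (abs_nonneg _)
        ((abs_nonneg _).trans (hpTb κ hκ))
    refine (Finset.sum_le_sum hterm).trans ?_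
    rw [← Finset.sum_mul, mul_assoc (2 ^ D.E : ℝ) W err]
    by_cases hKe : Kp.Nonempty
    · obtain ⟨κ, hκ⟩ := hKe
      have hW0 : 0 ≤ W := (abs_nonneg _).trans (hpTb κ hκ)
      exact mul_le_mul_of_nonneg_right hbs (mul_nonneg hW0 herr0)
    · rw [Finset.not_nonempty_iff_eq_empty] at hKe
      exfalso
      have h0 : (fun i => 0) ∈ Kp := Fintype.mem_piFinset.2 fun i => mem_range.2 (Nat.succ_pos _)
      rw [hKe] at h0
      exact absurd h0 (Finset.notMem_empty _)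

end CM68
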