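import Mathlib

/-!
# Row X1: a complement adapted to a degree (MEDIUM, ONLY MATHLIB)

Greedy choice.  Plan A (induction on the degree bound): for a finite set `S` of indices which is an initial segment for a total order refining `deg` (e.g. take the
elements one by one in order of `deg`; `Finset.exists_max_image`, or induction on `S.card` removing an element of maximal degree) show: there is `Sg ⊆ S` with
(1) every `s ∈ S` satisfies `Pi.single s 1 = ρ + t`, `ρ ∈ R`, `t` supported on `{s' ∈ Sg | deg s' ≤ deg s}`, (2) no nonzero `t` supported on `Sg` is in `R`.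
Step: `S = insert s₀ S'`, `deg s₀` maximal, `Sg'` for `S'`: if `Pi.single s₀ 1` is in `R ⊔ span {Pi.single s' 1 | s' ∈ Sg'}`, keep `Sg'`, else `insert s₀ Sg'`.
For `S = univ`: `R` and the functions supported on `Sg` are complements (`IsCompl`), so `Sg.card + finrank R = card ι` (`Submodule.finrank_add_eq_of_isCompl`,
`finrank` of the functions supported on `Sg` is `Sg.card`: span of the independent family `Pi.single s 1`, `finrank_span_eq_card`).
-/

namespace CM68

open Finset

private theorem X1_aux {ι : Type*} [DecidableEq ι] (deg : ι → ℕ) (R : Submodule ℝ (ι → ℝ))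
    (S : Finset ι) : ∃ Sg : Finset ι, Sg ⊆ S ∧
      (∀ s ∈ S, ∃ ρ ∈ R, ∃ t : ι → ℝ, (∀ s', t s' ≠ 0 → s' ∈ Sg ∧ deg s' ≤ deg s) ∧
        Pi.single s 1 = ρ + t) ∧
      ∀ t : ι → ℝ, (∀ s', t s' ≠ 0 → s' ∈ Sg) → t ∈ R → t = 0 := by
  induction S using Finset.induction_on_max_value deg with
  | empty =>
    refine ⟨∅, subset_rfl, fun s hs => absurd hs (Finset.notMem_empty s), fun t ht _ => ?_⟩
    funext s
    by_contra h
    exact Finset.notMem_empty s (ht s h)
  | insert s₀ S' hs₀ hmax ih =>
    obtain ⟨Sg', hsub, h1, h2⟩ := ih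
    by_cases hA : ∃ ρ ∈ R, ∃ t : ι → ℝ, (∀ s', t s' ≠ 0 → s' ∈ Sg') ∧ Pi.single s₀ 1 = ρ + t
    · refine ⟨Sg', hsub.trans (Finset.subset_insert _ _), ?_, h2⟩
      intro s hs
      rcases Finset.mem_insert.1 hs with rfl | hs
      · obtain ⟨ρ, hρ, t, ht, he⟩ := hA
        exact ⟨ρ, hρ, t, fun s' h => ⟨ht s' h, hmax s' (hsub (ht s' h))⟩, he⟩
      · exact h1 s hs
    · refine ⟨insert s₀ Sg', Finset.insert_subset_insert _ hsub, ?_, ?_⟩
      · intro s hs
        rcases Finset.mem_insert.1 hs with rfl | hs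
        · refine ⟨0, R.zero_mem, Pi.single s 1, ?_, by rw [zero_add]⟩
          intro s' h
          by_cases hss : s' = s
          · rw [hss]
            exact ⟨Finset.mem_insert_self _ _, le_rfl⟩
          · exact absurd (Pi.single_eq_of_ne hss _) h
        · obtain ⟨ρ, hρ, t, ht, he⟩ := h1 s hs
          exact ⟨ρ, hρ, t, fun s' h => ⟨Finset.mem_insert_of_mem (ht s' h).1, (ht s' h).2⟩, he⟩
      · intro t ht htR
        by_cases hc : t s₀ = 0
        · refine h2 t (fun s' h => ?_) htR
          rcases Finset.mem_insert.1 (ht s' h) with rfl | h3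
          · exact absurd hc h
          · exact h3
        · exfalso
          apply hA
          refine ⟨(t s₀)⁻¹ • t, R.smul_mem _ htR,
            Pi.single s₀ 1 - (t s₀)⁻¹ • t, ?_, by abel⟩
          intro s' h
          by_cases hss : s' = s₀
          · exfalso
            apply h
            rw [hss, Pi.sub_apply, Pi.single_eq_same, Pi.smul_apply, smul_eq_mul,
              inv_mul_cancel₀ hc, sub_self]
          · rw [Pi.sub_apply, Pi.single_eq_of_ne hss, Pi.smul_apply, smul_eq_mul, zero_sub] at h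
            have h3 : t s' ≠ 0 := by
              intro h4
              apply h
              rw [h4, mul_zero, neg_zero]
            rcases Finset.mem_insert.1 (ht s' h3) with h5 | h5
            · exact absurd h5 hss
            · exact h5

private noncomputable def X1_ext {ι : Type*} [DecidableEq ι] (Sg : Finset ι) :
    (Sg → ℝ) →ₗ[ℝ] (ι → ℝ) where
  toFun u := fun i => if h : i ∈ Sg then u ⟨i, h⟩ else 0
  map_add' u v := by
    funext i
    by_cases h : i ∈ Sg <;> simp [h]
  map_smul' a u := by
    funext i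
    by_cases h : i ∈ Sg <;> simp [h]

theorem greedy {ι : Type*} [Fintype ι] [DecidableEq ι] (deg : ι → ℕ) (R : Submodule ℝ (ι → ℝ)) :
    ∃ Sg : Finset ι, Sg.card + Module.finrank ℝ R = Fintype.card ι ∧
      ∀ s, ∃ ρ ∈ R, ∃ t : ι → ℝ, (∀ s', t s' ≠ 0 → s' ∈ Sg ∧ deg s' ≤ deg s) ∧
        Pi.single s 1 = ρ + t := by
  obtain ⟨Sg, -, h1, h2⟩ := X1_aux deg R (Finset.univ : Finset ι)
  refine ⟨Sg, ?_, fun s => h1 s (Finset.mem_univ s)⟩
  let L : (R × (Sg → ℝ)) →ₗ[ℝ] (ι → ℝ) := R.subtype.coprod (X1_ext Sg)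
  have hL : ∀ x : R × (Sg → ℝ), L x = (x.1 : ι → ℝ) + X1_ext Sg x.2 := fun x => rfl
  have hext : ∀ (u : Sg → ℝ) (i : ι), X1_ext Sg u i = if h : i ∈ Sg then u ⟨i, h⟩ else 0 :=
    fun u i => rfl
  have hinj : Function.Injective L := by
    rw [← LinearMap.ker_eq_bot, LinearMap.ker_eq_bot']
    rintro ⟨ρ, u⟩ h
    rw [hL] at h
    simp only at h
    have h3 : X1_ext Sg u = -(ρ : ι → ℝ) := by
      rw [eq_neg_iff_add_eq_zero, add_comm]
      exact h
    have h4 : X1_ext Sg u = 0 := by
      refine h2 _ (fun s' hs' => ?_) ?_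
      · by_contra hn
        apply hs'
        rw [hext, dif_neg hn]
      · rw [h3]
        exact R.neg_mem ρ.2
    have h5 : u = 0 := by
      funext i
      have h6 := congrFun h4 i.1
      rw [hext, dif_pos i.2] at h6
      exact h6
    have h7 : ρ = 0 := by
      rw [h4] at h3
      apply Subtype.ext
      have h8 := neg_eq_zero.1 h3.symm
      rw [h8]
      rfl
    rw [h5, h7]
    rfl
  have hsurj : Function.Surjective L := by
    rw [← LinearMap.range_eq_top, eq_top_iff]
    intro f _
    have h3 : f = ∑ s, f s • (Pi.single s (1 : ℝ) : ι → ℝ) := by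
      funext i
      rw [Finset.sum_apply, Finset.sum_eq_single i]
      · rw [Pi.smul_apply, Pi.single_eq_same, smul_eq_mul, mul_one]
      · intro j _ hj
        rw [Pi.smul_apply, Pi.single_eq_of_ne (Ne.symm hj), smul_zero]
      · intro h
        exact absurd (Finset.mem_univ i) h
    rw [h3]
    apply Submodule.sum_mem
    intro s _
    apply Submodule.smul_mem
    obtain ⟨ρ, hρ, t, ht, he⟩ := h1 s (Finset.mem_univ s)
    refine ⟨(⟨ρ, hρ⟩, fun i => t i.1), ?_⟩
    rw [hL, he]
    congr 1
    funext i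
    rw [hext]
    split_ifs with h
    · rfl
    · by_contra hne
      exact h (ht i (Ne.symm hne)).1
  have hfin := (LinearEquiv.ofBijective L ⟨hinj, hsurj⟩).finrank_eq
  rw [Module.finrank_prod, Module.finrank_fintype_fun_eq_card, Module.finrank_fintype_fun_eq_card,
    Fintype.card_coe] at hfin
  omega

end CM68
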