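import Pool.Agent.LibPX.X2
import Pool.Agent.LibPX.X8

/-!
# The data from real coefficients in `V` (assembly, helper5)
-/

namespace CM68

open Finset Polynomial

theorem mkX {q w g e N M DD B b₀ Sp : ℕ} {ε : ℝ} (ks cs : Fin N → ℕ) (kt ct : Fin M → ℕ)
    (V : Submodule ℚ ℝ) [Module.Finite ℚ V] (hD : Module.finrank ℚ V = DD + 1)
    (I₀ : Finset ℕ) (hne : I₀.Nonempty) (c : Mon N M → ℕ → ℝ)
    (hq : 2 ≤ q) (hks : ∀ i, 2 ≤ ks i ∧ ks i ≤ w) (hkt : ∀ i, 2 ≤ kt i ∧ kt i ≤ w)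
    (hcs : ∀ i, cs i < q) (hct : ∀ i, ct i < q) (hinj : Function.Injective fun i => (ks i, cs i))
    (hI : ∀ x ∈ I₀, x < q) (hxs : ∀ x ∈ I₀, ∀ i, 0 < (x + cs i) % q)
    (hxt : ∀ x ∈ I₀, ∀ i, 0 < (x + ct i) % q) (he : 1 ≤ e) (heg : e ≤ g) (hgB : g ≤ B)
    (hε : 0 < ε) (hSp : 2 * (b₀ + 1) ^ ((monos N M g).card * (DD + 1)) ≤ Sp)
    (hb : ((b₀ : ℝ) + 1) ^ ((monos N M g).card * (DD + 1)) < (1 + ε) ^ b₀)
    (hcV : ∀ x ∈ I₀, ∀ μ, c μ x ∈ V)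
    (hsup : ∀ x ∈ I₀, ∀ μ ∈ monos N M g, c μ x ≠ 0 →
      ∑ i, μ.1 i < e ∨ (∑ i, μ.1 i = e ∧ μ.2 = 0))
    (hlead : ∀ x ∈ I₀, ∃ β : Fin N → ℕ, ∑ i, β i = e ∧ c (β, 0) x ≠ 0)
    (hrel : ∀ x ∈ I₀, ∑ μ ∈ monos N M g, c μ x *
      ((∏ i, Sx q (ks i) (cs i) x ^ μ.1 i) * ∏ i, Tx q (kt i) (ct i) x ^ μ.2 i) = 0) :
    ∃ (D : DatX) (H' : ℕ), D.q = q ∧ D.w = w ∧ D.g = g ∧ D.N = N ∧ D.M = M ∧ D.B = B ∧
      D.Sp = Sp ∧ D.I ⊆ I₀ ∧ I₀.card ≤ 2 * D.I.card ∧ 1 ≤ H' ∧ (D.H : ℝ) ≤ (1 + ε) * H' ∧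
      D.H ≤ (b₀ + 1) ^ ((monos N M g).card * (DD + 1)) ∧
      H' * (expo N (B - e)).card ≤ Module.finrank ℝ D.R := by
  classical
  let b := Module.finBasisOfFinrankEq ℚ V hD
  let c' : Mon N M → ℕ → V := fun μ x => if h : c μ x ∈ V then ⟨c μ x, h⟩ else 0
  have hc' : ∀ x ∈ I₀, ∀ μ, ((c' μ x : V) : ℝ) = c μ x := by
    intro x hx μ
    simp only [c', dif_pos (hcV x hx μ)]
  have hsum : ∀ x ∈ I₀, ∀ μ, c μ x = ∑ δ, ((b.repr (c' μ x) δ : ℚ) : ℝ) * ((b δ : V) : ℝ) := by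
    intro x hx μ
    rw [← hc' x hx μ]
    have h1 := congrArg (fun u : V => (u : ℝ)) (b.sum_repr (c' μ x))
    simp only [Submodule.coe_sum, Submodule.coe_smul, Rat.smul_def] at h1
    exact h1.symm
  have hcard : Fintype.card ((monos N M g) × Fin (DD + 1)) = (monos N M g).card * (DD + 1) := by
    rw [Fintype.card_prod, Fintype.card_coe, Fintype.card_fin]
  obtain ⟨I, hII, hIc, H, H', φ, ψ, hH', hHH', hH, hspread, hψ, hmul⟩ :=
    hilb (κ := (monos N M g) × Fin (DD + 1)) (fun p x => b.repr (c' p.1.1 x) p.2) I₀ hne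
      (b₀ := b₀) (Sp := Sp) hε (by rw [hcard]; exact hSp) (by rw [hcard]; exact hb)
  rw [hcard] at hH
  have hIne : I.Nonempty := by
    rw [← Finset.card_pos]
    have := hne.card_pos
    omega
  obtain ⟨R, hR1, hR2⟩ := exists_R (q := q) (N := N) (M := M) (g := g) (e := e) (B := B) (H := H)
    (H' := H') he heg (heg.trans hgB) ks cs kt ct I φ ψ c hψ (by
      intro l μ hμ
      choose t ht using fun δ : Fin (DD + 1) => hmul l (⟨μ, hμ⟩, δ)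
      refine ⟨fun h => ∑ δ, t δ h * ((b δ : V) : ℝ), fun x hx => ?_⟩
      rw [hsum x (hII hx) μ, Finset.mul_sum]
      have h1 : ∀ δ, (ψ l x : ℝ) * (((b.repr (c' μ x) δ : ℚ) : ℝ) * ((b δ : V) : ℝ)) =
          ∑ h, t δ h * ((b δ : V) : ℝ) * (φ h x : ℝ) := by
        intro δ
        rw [← mul_assoc, ht δ x hx, Finset.sum_mul]
        exact Finset.sum_congr rfl fun h _ => by ring
      rw [Finset.sum_congr rfl fun δ _ => h1 δ, Finset.sum_comm]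
      refine Finset.sum_congr rfl fun h _ => ?_
      rw [Finset.sum_mul])
    (fun x hx => hsup x (hII hx)) (fun x hx => hlead x (hII hx)) (fun x hx => hrel x (hII hx))
  refine ⟨{ q := q, w := w, g := g, N := N, M := M, B := B, H := H, Sp := Sp, ks := ks, cs := cs,
            kt := kt, ct := ct, I := I, φ := φ, R := R, hq := hq, hg := he.trans heg, hks := hks,
            hkt := hkt, hcs := hcs, hct := hct, hinj := hinj, hI := fun x hx => hI x (hII hx),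
            hIne := hIne, hxs := fun x hx => hxs x (hII hx), hxt := fun x hx => hxt x (hII hx),
            hspread := hspread, hR := hR2 }, H', rfl, rfl, rfl, rfl, rfl, rfl, rfl, hII, hIc, hH',
            hHH', hH, hR1⟩

end CM68
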