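import Mathlib

/-!
# Row PA1: the Hilbert function is smaller than the exponential (SHORT/MEDIUM, ONLY MATHLIB)

`y = 26 lam^2 K ≥ 1`, `b₀ + 1 = y^2` (natural subtraction: `y^2 ≥ 1`).  Take logarithms: `2 K log y ≤ 2 K (y - 1)` (`Real.log_le_sub_one_of_pos`), strictly less than `(y^2 - 1) / (13 lam^2)` since
`y + 1 > 26 lam^2 K`; `log (1 + ε) ≥ ε / (1 + ε)` (`Real.one_sub_inv_le_log_of_pos`), `ε / (1 + ε) = 1 / (12 lam^2 + 1) ≥ 1 / (13 lam^2)`.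
-/

namespace CM68

theorem parb {K lam : ℕ} (hK : 1 ≤ K) (hlam : 1 ≤ lam) :
    ((((26 * lam ^ 2 * K) ^ 2 - 1 : ℕ) : ℝ) + 1) ^ K <
      (1 + 1 / (12 * (lam : ℝ) ^ 2)) ^ ((26 * lam ^ 2 * K) ^ 2 - 1) := by
  have hl1 : (1 : ℝ) ≤ (lam : ℝ) ^ 2 := one_le_pow₀ (by exact_mod_cast hlam)
  have hK1 : (1 : ℝ) ≤ K := by exact_mod_cast hK
  have hpos : 0 < 26 * lam ^ 2 * K := by positivity
  obtain ⟨n, hn⟩ : ∃ n, (26 * lam ^ 2 * K) ^ 2 = n + 1 :=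
    ⟨(26 * lam ^ 2 * K) ^ 2 - 1, (Nat.sub_add_cancel (Nat.one_le_pow _ _ hpos)).symm⟩
  rw [hn, Nat.add_sub_cancel]
  obtain ⟨y, hy⟩ : ∃ y : ℝ, y = 26 * (lam : ℝ) ^ 2 * K := ⟨_, rfl⟩
  have hn' : (n : ℝ) + 1 = y ^ 2 := by
    rw [hy]
    exact_mod_cast hn.symm
  have hy1 : 1 < y := by
    rw [hy]
    nlinarith
  have hy0 : 0 < y := by linarith
  have hε : (0 : ℝ) < 1 / (12 * (lam : ℝ) ^ 2) := by positivity
  have h1 : 1 / (13 * (lam : ℝ) ^ 2) ≤ Real.log (1 + 1 / (12 * (lam : ℝ) ^ 2)) := by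
    refine le_trans ?_ (Real.one_sub_inv_le_log_of_pos (by linarith))
    have h2 : 1 - (1 + 1 / (12 * (lam : ℝ) ^ 2))⁻¹ = 1 / (12 * (lam : ℝ) ^ 2 + 1) := by
      field_simp
      ring
    rw [h2]
    apply one_div_le_one_div_of_le (by positivity)
    linarith
  have h3 : Real.log y ≤ y - 1 := Real.log_le_sub_one_of_pos hy0
  have h4 : (n : ℝ) = (y - 1) * (y + 1) := by linarith [hn', sq y, show (y - 1) * (y + 1) = y ^ 2 - 1 by ring]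
  rw [hn', ← Real.log_lt_log_iff (by positivity) (by positivity), Real.log_pow, Real.log_pow,
    Real.log_pow]
  have h5 : (K : ℝ) * (((2 : ℕ) : ℝ) * Real.log y) ≤ K * (2 * (y - 1)) := by
    push_cast
    have : (0 : ℝ) ≤ K := by linarith
    gcongr
  have h6 : (n : ℝ) * (1 / (13 * (lam : ℝ) ^ 2)) ≤
      n * Real.log (1 + 1 / (12 * (lam : ℝ) ^ 2)) :=
    mul_le_mul_of_nonneg_left h1 (Nat.cast_nonneg n)
  refine (h5.trans_lt ?_).trans_le h6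
  have h7 : (0 : ℝ) < 13 * (lam : ℝ) ^ 2 := by positivity
  rw [mul_one_div, lt_div_iff₀ h7, h4]
  have h8 : (K : ℝ) * (2 * (y - 1)) * (13 * (lam : ℝ) ^ 2) = (y - 1) * y := by
    rw [hy]
    ring
  rw [h8]
  exact mul_lt_mul_of_pos_left (by linarith) (by linarith)

end CM68
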