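import Pool.Agent.LibPX.AdmX

/-!
# Row PA3: the parameters are admissible (MEDIUM, real numbers)

`r = 1`, `k = 320 W`, `δ = 640 lam W = 2 lam k`, `Q₁ = Q₂ = q`.  `log 3 ≥ 1` (`Real.exp_one_lt_d9`), `0 ≤ log q ≤ lam - 2`.
`hIN`: `F₁ δ² ≤ F₂ k²` (as `4 lam² F₁ ≤ F₂`), so the first two terms are `≤ 2 lam F₂ k²`; `F₁ δ ≤ F₂ k / (2 lam) ≤ F₂ k / 6`, so the third is `≤ 104 W lam F₂ k (2 + 1/6) = (104 (13/6) / 320) lam F₂ k² ≤ 0.71 lam F₂ k²`.
Right hand side `≥ F₂ (4 lam k² - 8 W k - k²) = F₂ k² (4 lam - 1 - 1/40)`, and `2.71 lam < 4 lam - 1.025`.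
-/

namespace CM68

private theorem one_le_log_three : (1 : ℝ) ≤ Real.log 3 := by
  rw [Real.le_log_iff_exp_le (by norm_num)]
  have := Real.exp_one_lt_d9
  linarith

private theorem parIN_aux {F₁ F₂ W l x c : ℝ} (hF₁ : 0 ≤ F₁) (hF₂ : 1 ≤ F₂) (hW : 1 ≤ W)
    (hl : 3 ≤ l) (hx : 0 ≤ x) (hxl : x + 2 ≤ l) (hF : (2 * l) ^ 2 * F₁ ≤ F₂) (hc : 1 ≤ c) :
    F₁ * (640 * l * W) ^ 2 * (x + 2) + F₂ * (320 * W) ^ 2 * (x + 2) +
      26 * (F₁ * (640 * l * W) + 2 * F₂ * (320 * W)) * (W * (2 * 1 + 2)) * x <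
    F₂ * ((2 * ((640 * l * W) - W * (2 * 1 + 2)) * (320 * W) - (320 * W) ^ 2) * c) := by
  have hl0 : (0 : ℝ) ≤ l := by linarith
  have hW0 : (0 : ℝ) < W := by linarith
  have hF0 : (0 : ℝ) < F₂ := by linarith
  have hW2 : (0 : ℝ) < W ^ 2 := by positivity
  -- the first term
  have h1 : F₁ * (640 * l * W) ^ 2 * (x + 2) ≤ F₂ * (320 * W) ^ 2 * l := by
    have e : F₁ * (640 * l * W) ^ 2 * (x + 2) = ((2 * l) ^ 2 * F₁) * (320 * W) ^ 2 * (x + 2) := by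
      ring
    rw [e]
    have a1 : (2 * l) ^ 2 * F₁ * (320 * W) ^ 2 ≤ F₂ * (320 * W) ^ 2 :=
      mul_le_mul_of_nonneg_right hF (by positivity)
    exact mul_le_mul a1 hxl (by linarith) (by positivity)
  -- the second term
  have h2 : F₂ * (320 * W) ^ 2 * (x + 2) ≤ F₂ * (320 * W) ^ 2 * l :=
    mul_le_mul_of_nonneg_left hxl (by positivity)
  -- the third term
  have h3 : 26 * (F₁ * (640 * l * W) + 2 * F₂ * (320 * W)) * (W * (2 * 1 + 2)) * x ≤
      F₂ * W ^ 2 * (16640 + 66560 * l) := by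
    have a1 : 26 * (F₁ * (640 * l * W) + 2 * F₂ * (320 * W)) * (W * (2 * 1 + 2)) * x ≤
        26 * (F₁ * (640 * l * W) + 2 * F₂ * (320 * W)) * (W * (2 * 1 + 2)) * l :=
      mul_le_mul_of_nonneg_left (by linarith) (by positivity)
    have a2 : 26 * (F₁ * (640 * l * W) + 2 * F₂ * (320 * W)) * (W * (2 * 1 + 2)) * l =
        W ^ 2 * (16640 * ((2 * l) ^ 2 * F₁) + 66560 * l * F₂) := by ring
    have a3 : W ^ 2 * (16640 * ((2 * l) ^ 2 * F₁) + 66560 * l * F₂) ≤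
        W ^ 2 * (16640 * F₂ + 66560 * l * F₂) := by
      apply mul_le_mul_of_nonneg_left _ hW2.le
      linarith
    calc _ ≤ _ := a1
      _ = _ := a2
      _ ≤ _ := a3
      _ = _ := by ring
  -- the right hand side
  have h4 : F₂ * W ^ 2 * (409600 * l - 104960) ≤
      F₂ * ((2 * ((640 * l * W) - W * (2 * 1 + 2)) * (320 * W) - (320 * W) ^ 2) * c) := by
    have e : F₂ * ((2 * ((640 * l * W) - W * (2 * 1 + 2)) * (320 * W) - (320 * W) ^ 2) * c) =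
        F₂ * W ^ 2 * (409600 * l - 104960) * c := by ring
    rw [e]
    have hp : 0 ≤ F₂ * W ^ 2 * (409600 * l - 104960) := by
      apply mul_nonneg (by positivity)
      linarith
    calc F₂ * W ^ 2 * (409600 * l - 104960) = F₂ * W ^ 2 * (409600 * l - 104960) * 1 := by ring
      _ ≤ _ := mul_le_mul_of_nonneg_left hc hp
  have h5 : F₂ * (320 * W) ^ 2 * l + F₂ * (320 * W) ^ 2 * l +
      F₂ * W ^ 2 * (16640 + 66560 * l) = F₂ * W ^ 2 * (271360 * l + 16640) := by ring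
  have h6 : F₂ * W ^ 2 * (271360 * l + 16640) < F₂ * W ^ 2 * (409600 * l - 104960) := by
    apply mul_lt_mul_of_pos_left _ (by positivity)
    linarith
  linarith

theorem parIN {q F₁ F₂ W lam c₀ m : ℕ} (hq : 2 ≤ q) (hlam : Real.log q + 2 ≤ lam)
    (hlam3 : 3 ≤ lam) (hW : 1 ≤ W) (hF : (2 * lam) ^ 2 * F₁ ≤ F₂) (hF₂ : 1 ≤ F₂)
    (hZE : c₀ * (640 * lam * W) < m) :
    AdmX q F₁ F₂ W c₀ m (640 * lam * W) (320 * W) 1 q q := by
  have hlW : 3 * W ≤ lam * W := Nat.mul_le_mul_right W hlam3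
  have hlog : (0 : ℝ) ≤ Real.log q := by
    apply Real.log_nonneg
    have : (2 : ℝ) ≤ q := by exact_mod_cast hq
    linarith
  refine ⟨by omega, le_rfl, ?_, ?_, ?_, hZE, ?_⟩
  · have e : 640 * lam * W = 640 * (lam * W) := by ring
    rw [e]
    omega
  · have e : 640 * lam * W = 640 * (lam * W) := by ring
    rw [e]
    exact Nat.le_mul_of_pos_right q (by omega)
  · exact Nat.le_mul_of_pos_right q (by omega)
  · have h := parIN_aux (F₁ := (F₁ : ℝ)) (F₂ := (F₂ : ℝ)) (W := (W : ℝ)) (l := (lam : ℝ))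
      (x := Real.log q) (c := Real.log 3) (Nat.cast_nonneg _) (by exact_mod_cast hF₂)
      (by exact_mod_cast hW) (by exact_mod_cast hlam3) hlog hlam
      (by exact_mod_cast hF) one_le_log_three
    have e3 : (2 * ((1 : ℕ) : ℝ) + 1) = 3 := by norm_num
    rw [e3]
    push_cast
    linarith

end CM68
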