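import Mathlib

/-!
# Row PA4: the final bound (MEDIUM, natural numbers, ONLY MATHLIB)

`y = 26 lam^2 K`, `b₀ + 1 = y^2`, `B + 1 ≤ 26 lam^2 g N ≤ y` (`g N ≤ g s ≤ K`, `1 ≤ lam^2 g N`).  The left hand side is at most
`g * 2 * 2 (y^2)^K * (B + 1) * (B + 1)^N * (y^2)^K * (B + 1)^N * 640 lam g B w s ≤ 2560 lam w (g s) g * y^(4 K + 2 N + 2) ≤ 2560 lam w K^2 y^(6 K)` (`2 N + 2 ≤ 2 K`; `g ≤ K`), and
`2560 lam K^2 ≤ 676 lam^4 K^2 = y^2` since `lam ≥ 3`.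
-/

namespace CM68

theorem parFin {N s g w lam K B b₀ H e₀ : ℕ} (hg : 1 ≤ g) (hN : 1 ≤ N) (hNs : N ≤ s)
    (hlam : 3 ≤ lam) (hK : g * s + 1 ≤ K) (hB : B = 25 * lam ^ 2 * g * N)
    (hb : b₀ = (26 * lam ^ 2 * K) ^ 2 - 1) (hH : H ≤ (b₀ + 1) ^ K) (he₀ : e₀ ≤ (B + 1) ^ N) :
    g * (2 * (2 * (b₀ + 1) ^ K * ((B + 1) * (e₀ * (H * e₀))) *
      (640 * lam * (g * B * (w * s))))) ≤ w * (26 * K * lam ^ 2) ^ (6 * K + 2) := by
  have hs : 1 ≤ s := hN.trans hNs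
  have hgs : g * s ≤ K := by omega
  have hgK : g ≤ K := (Nat.le_mul_of_pos_right g hs).trans hgs
  have hsK : s ≤ g * s := Nat.le_mul_of_pos_left s hg
  have hNK : N + 1 ≤ K := by omega
  have hK1 : 1 ≤ K := by omega
  have hlam2 : 1 ≤ lam ^ 2 := Nat.one_le_pow _ _ (by omega)
  set y : ℕ := 26 * lam ^ 2 * K with hy
  have hy1 : 1 ≤ y := by
    have h1 : 1 * 1 ≤ lam ^ 2 * K := Nat.mul_le_mul hlam2 hK1
    have h2 : y = 26 * (lam ^ 2 * K) := by rw [hy]; ring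
    omega
  have hy2 : 1 ≤ y ^ 2 := Nat.one_le_pow _ _ hy1
  have hb1 : b₀ + 1 = y ^ 2 := by omega
  have hgN : g * N ≤ K := (Nat.mul_le_mul_left g hNs).trans hgs
  have hBy : B + 1 ≤ y := by
    have h1 : lam ^ 2 * (g * N) ≤ lam ^ 2 * K := Nat.mul_le_mul_left _ hgN
    have h2 : B = 25 * (lam ^ 2 * (g * N)) := by rw [hB]; ring
    have h3 : y = 26 * (lam ^ 2 * K) := by rw [hy]; ring
    have h4 : 1 * 1 ≤ lam ^ 2 * K := Nat.mul_le_mul hlam2 hK1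
    omega
  have hB' : B ≤ y := by omega
  have hHy : H ≤ y ^ (2 * K) := by
    rw [hb1, ← pow_mul] at hH
    exact hH
  have hey : e₀ ≤ y ^ N := he₀.trans (Nat.pow_le_pow_left hBy N)
  have hbK : (b₀ + 1) ^ K = y ^ (2 * K) := by rw [hb1, ← pow_mul]
  rw [hbK]
  have h1 : g * (2 * (2 * y ^ (2 * K) * ((B + 1) * (e₀ * (H * e₀))) *
      (640 * lam * (g * B * (w * s))))) ≤
      g * (2 * (2 * y ^ (2 * K) * (y * (y ^ N * (y ^ (2 * K) * y ^ N))) *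
      (640 * lam * (g * y * (w * s))))) := by gcongr
  have h2 : g * (2 * (2 * y ^ (2 * K) * (y * (y ^ N * (y ^ (2 * K) * y ^ N))) *
      (640 * lam * (g * y * (w * s))))) =
      w * (2560 * lam * (g * (g * s))) * y ^ (4 * K + 2 * N + 2) := by
    rw [show 4 * K + 2 * N + 2 = 2 * K + 2 * K + N + N + 1 + 1 by ring]
    simp only [pow_add, pow_one]
    ring
  have h3 : y ^ (4 * K + 2 * N + 2) ≤ y ^ (6 * K) := Nat.pow_le_pow_right hy1 (by omega)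
  have h4 : 2560 * lam * (g * (g * s)) ≤ y ^ 2 := by
    have a1 : g * (g * s) ≤ K * K := Nat.mul_le_mul hgK hgs
    have a2 : 2560 ≤ 676 * lam ^ 3 := by
      have : 3 ^ 3 ≤ lam ^ 3 := Nat.pow_le_pow_left hlam 3
      omega
    calc 2560 * lam * (g * (g * s)) ≤ (676 * lam ^ 3) * lam * (K * K) := by gcongr
      _ = y ^ 2 := by rw [hy]; ring
  calc g * (2 * (2 * y ^ (2 * K) * ((B + 1) * (e₀ * (H * e₀))) *
      (640 * lam * (g * B * (w * s)))))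
      ≤ w * (2560 * lam * (g * (g * s))) * y ^ (4 * K + 2 * N + 2) := h1.trans h2.le
    _ ≤ w * y ^ 2 * y ^ (6 * K) := by gcongr
    _ = w * (26 * K * lam ^ 2) ^ (6 * K + 2) := by
      rw [show 26 * K * lam ^ 2 = y by rw [hy]; ring, pow_add]
      ring

end CM68
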