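import Pool.Agent.LibPX.PDefs

/-!
# PX: admissible parameters
-/

namespace CM68

open Finset Polynomial

/-- admissible parameters: `F₁`, `F₂` = numbers of rows families of the first and second type, `W` = total exponent of the multiplier,
`m` = number of classes -/
structure AdmX (q F₁ F₂ W c₀ m δ k r Q₁ Q₂ : ℕ) : Prop where
  hk : 1 ≤ k
  hr : 1 ≤ r
  hδ : k + W * (2 * r + 2) < δ
  hQ₁ : q ≤ Q₁ * δ
  hQ₂ : q ≤ Q₂ * k
  hZE : c₀ * δ < m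
  hIN : (F₁ : ℝ) * (δ : ℝ) ^ 2 * (Real.log Q₁ + 2) + F₂ * (k : ℝ) ^ 2 * (Real.log Q₂ + 2) +
      26 * ((F₁ : ℝ) * δ + 2 * F₂ * k) * (W * (2 * r + 2)) * Real.log q <
    F₂ * ((2 * ((δ : ℝ) - W * (2 * r + 2)) * k - (k : ℝ) ^ 2) * Real.log (2 * r + 1))

end CM68
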