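import Pool.Agent.LibCM68.A5
import Pool.Agent.LibCM2.C1
import Pool.Agent.LibPX.PDefs

/-!
# Row X3: every row is a combination of the rows of `Sg` (STRONG, algebra)

Fix `Sg` with `D.Good Sg`.  At a node `j`, `x = j % q ∈ I`: `Sx = pS + aS` (`split`, LibCM68/A1, see LibCM3/H3.lean).  Write `P s = row T s j = φ_h(x) pS^α`, `Q s = φ_h(x) Sx^α`.
(a) `Q (h, α) = ∑_{γ ≤ α} bn α γ * aS^(α - γ) * P (h, γ)` (binomial theorem; `binom_id`-like, see LibCM2/H1.lean, LibCM3/H3.lean), the term `γ = α` is `P (h, α)`, the others have smaller degree.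
(b) from `Good` at `s`: `Pi.single s 1 = ρ + t`; `ρ` has degree `≤ s.dg`; `hR` (with `m = s.dg`) gives `G`:
`Q s = ∑ ρ Q + ∑ t Q = ∑_{s''} ∑_κ G s'' κ T^κ Q s'' + ∑_{s' ∈ Sg} t s' Q s'`, `s''.dg < s.dg`, `s'.dg ≤ s.dg`.
So `P s = Q s - ∑_{γ < α} .. P (h, γ)` is `∑_{s' ∈ Sg} t s' P s'` plus terms (constant) * `A^ν T^κ P s''` with `s''.dg < s.dg`, `∑ ν + s''.dg ≤ s.dg`, `∑ κ ≤ g`.
(c) Induction on `s.dg` (statement for all `s` with `s.dg ≤ m`): `P s = ∑_{s' ∈ Sg} ∑_μ Γ s s' μ * A^μ.1 T^μ.2 * P s'` with `∑ μ.1 ≤ s.dg`, `∑ μ.2 ≤ g * s.dg` for `Γ s s' μ ≠ 0`; the constants `Γ`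
do not depend on `n, T, j`.  In the end `s.dg ≤ B` gives `μ ∈ Mm`.
A convenient formulation: the set of all functions `F : (family of all (n, T, j)) → ℝ` of the form `∑_{s' ∈ Sg} ∑_{μ} Γ s' μ * Cf T μ j * row T s' j` with `Γ` supported on
`∑ μ.1 ≤ a`, `∑ μ.2 ≤ b` is a real vector space `V a b`, and multiplication by `Cf T μ j` maps `V a b` to `V (a + ∑ μ.1) (b + ∑ μ.2)`.
-/

namespace CM68

open Finset Polynomial

/-- the points `(n, T, j)` -/
private abbrev X3_Pt (D : DatX) : Type := {z : ℕ × ℕ × ℕ // z.2.2 ∈ D.Nd z.1}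

/-- the coefficient functions on the points -/
private noncomputable def X3_C (D : DatX) (μ : Mon D.N D.M) : X3_Pt D → ℝ :=
  fun z => D.Cf z.1.2.1 μ z.1.2.2

/-- the rows on the points -/
private noncomputable def X3_P (D : DatX) (s : D.Ix) : X3_Pt D → ℝ :=
  fun z => D.row z.1.2.1 s z.1.2.2

/-- the monomials in the variables `S` -/
private noncomputable def X3_Q (D : DatX) (s : D.Ix) : X3_Pt D → ℝ :=
  fun z => (D.φ s.1 (z.1.2.2 % D.q) : ℝ) *
    ∏ i, Sx D.q (D.ks i) (D.cs i) (z.1.2.2 % D.q) ^ s.ex i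

/-- the combinations of the rows of `Sg` -/
private noncomputable def X3_V (D : DatX) (Sg : Finset D.Ix) (a b : ℕ) :
    Submodule ℝ (X3_Pt D → ℝ) :=
  Submodule.span ℝ (Set.range fun p : ↥(Sg ×ˢ (expo D.N a ×ˢ expo D.M b)) =>
    X3_C D p.1.2 * X3_P D p.1.1)

private theorem X3_C_add (D : DatX) (μ ν : Mon D.N D.M) :
    X3_C D (μ + ν) = X3_C D μ * X3_C D ν := by
  funext z
  unfold X3_C DatX.Cf
  simp only [Pi.mul_apply, Prod.fst_add, Prod.snd_add, Pi.add_apply, pow_add,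
    Finset.prod_mul_distrib]
  ring

private theorem X3_C_zero (D : DatX) : X3_C D 0 = 1 := by
  funext z
  simp [X3_C, DatX.Cf]

private theorem X3_gen (D : DatX) {Sg : Finset D.Ix} {s : D.Ix} (hs : s ∈ Sg)
    (μ : Mon D.N D.M) {a b : ℕ} (h1 : ∑ i, μ.1 i ≤ a) (h2 : ∑ i, μ.2 i ≤ b) :
    X3_C D μ * X3_P D s ∈ X3_V D Sg a b :=
  Submodule.subset_span ⟨⟨(s, μ), Finset.mem_product.2 ⟨hs, Finset.mem_product.2
    ⟨mem_expo.2 h1, mem_expo.2 h2⟩⟩⟩, rfl⟩

private theorem X3_mul (D : DatX) (Sg : Finset D.Ix) (μ : Mon D.N D.M) {a b a' b' : ℕ}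
    (ha : a + ∑ i, μ.1 i ≤ a') (hb : b + ∑ i, μ.2 i ≤ b') {F : X3_Pt D → ℝ}
    (hF : F ∈ X3_V D Sg a b) : X3_C D μ * F ∈ X3_V D Sg a' b' := by
  have h : X3_V D Sg a b ≤ (X3_V D Sg a' b').comap (LinearMap.mulLeft ℝ (X3_C D μ)) := by
    unfold X3_V
    rw [Submodule.span_le]
    rintro _ ⟨p, rfl⟩
    obtain ⟨⟨s, ν⟩, hp⟩ := p
    rw [Finset.mem_product, Finset.mem_product, mem_expo, mem_expo] at hp
    obtain ⟨hp1, hp2, hp3⟩ := hp
    change X3_C D μ * (X3_C D ν * X3_P D s) ∈ X3_V D Sg a' b'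
    rw [← mul_assoc, ← X3_C_add]
    refine X3_gen D hp1 _ ?_ ?_
    · simp only [Prod.fst_add, Pi.add_apply, Finset.sum_add_distrib]
      simp only at hp2
      omega
    · simp only [Prod.snd_add, Pi.add_apply, Finset.sum_add_distrib]
      simp only at hp3
      omega
  exact h hF

private theorem X3_mono (D : DatX) (Sg : Finset D.Ix) {a b a' b' : ℕ} (ha : a ≤ a')
    (hb : b ≤ b') {F : X3_Pt D → ℝ} (hF : F ∈ X3_V D Sg a b) : F ∈ X3_V D Sg a' b' := by
  have h := X3_mul D Sg 0 (a' := a') (b' := b') (by simpa using ha) (by simpa using hb) hF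
  rwa [X3_C_zero, one_mul] at h

private theorem X3_I (D : DatX) (z : X3_Pt D) : z.1.2.2 % D.q ∈ D.I :=
  (Finset.mem_filter.1 (show z.1.2.2 ∈ (range (D.q * (z.1.1 - 1))).filter
    fun j => j % D.q ∈ D.I from z.2)).2

private theorem X3_Sx (D : DatX) (z : X3_Pt D) (i : Fin D.N) :
    Sx D.q (D.ks i) (D.cs i) (z.1.2.2 % D.q) =
      D.aS z.1.2.1 i z.1.2.2 + D.pS z.1.2.1 i z.1.2.2 := by
  have hx := X3_I D z
  have hq := D.hq
  have h3 : 0 < (z.1.2.2 + D.cs i) % D.q := by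
    have h4 := D.hxs _ hx i
    rwa [Nat.mod_add_mod] at h4
  unfold Sx DatX.aS DatX.pS
  rw [Nat.mod_add_mod, add_comm (tl _ _ _ _)]
  exact split (by omega) (D.hks i).1 z.1.2.1 h3

private theorem X3_pow (N : ℕ) (μ : Fin N → ℕ) (p a : Fin N → ℝ) :
    ∏ i, (p i + a i) ^ μ i = ∑ ν ∈ Fintype.piFinset fun i => range (μ i + 1),
      ((∏ i, (μ i).choose (ν i) : ℕ) : ℝ) * (∏ i, p i ^ (μ i - ν i)) * ∏ i, a i ^ ν i := by
  have h1 : ∀ i, (p i + a i) ^ μ i =
      ∑ n ∈ range (μ i + 1), ((μ i).choose n : ℝ) * p i ^ (μ i - n) * a i ^ n := by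
    intro i
    rw [add_comm, add_pow]
    exact Finset.sum_congr rfl fun n _ => by ring
  rw [Finset.prod_congr rfl fun i _ => h1 i, Finset.prod_univ_sum]
  refine Finset.sum_congr rfl fun ν _ => ?_
  rw [Finset.prod_mul_distrib, Finset.prod_mul_distrib]
  push_cast
  rfl

/-- the product of the binomial coefficients -/
private noncomputable def X3_b {N : ℕ} (α γ : Fin N → ℕ) : ℝ :=
  ((∏ i, (α i).choose (γ i) : ℕ) : ℝ)

private theorem X3_b_self {N : ℕ} (α : Fin N → ℕ) : X3_b α α = 1 := by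
  simp [X3_b]

private theorem X3_b_le {N : ℕ} {α γ : Fin N → ℕ} (h : X3_b α γ ≠ 0) : ∀ i, γ i ≤ α i := by
  intro i
  by_contra hi
  apply h
  unfold X3_b
  rw [Finset.prod_eq_zero (Finset.mem_univ i) (Nat.choose_eq_zero_of_lt (not_le.1 hi)),
    Nat.cast_zero]

/-- the lower terms -/
private noncomputable def X3_L (D : DatX) (s : D.Ix) : X3_Pt D → ℝ := by
  classical
  exact ∑ γ ∈ (Finset.univ : Finset (expo D.N D.B)).erase s.2,
    X3_b s.ex γ.1 • (X3_C D (s.ex - γ.1, 0) * X3_P D (s.1, γ))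

private theorem X3_split (D : DatX) (s : D.Ix) : X3_Q D s = X3_P D s + X3_L D s := by
  classical
  have h1 : X3_Q D s = ∑ γ : ↥(expo D.N D.B),
      X3_b s.ex γ.1 • (X3_C D (s.ex - γ.1, 0) * X3_P D (s.1, γ)) := by
    funext z
    rw [Finset.sum_apply]
    have h2 : X3_Q D s z = ∑ γ ∈ Fintype.piFinset fun i => range (s.ex i + 1),
        X3_b s.ex γ * ((∏ i, D.aS z.1.2.1 i z.1.2.2 ^ (s.ex i - γ i)) *
          ((D.φ s.1 (z.1.2.2 % D.q) : ℝ) * ∏ i, D.pS z.1.2.1 i z.1.2.2 ^ γ i)) := by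
      unfold X3_Q
      rw [Finset.prod_congr rfl fun i _ => by rw [X3_Sx D z i],
        X3_pow, Finset.mul_sum]
      refine Finset.sum_congr rfl fun γ _ => ?_
      unfold X3_b
      ring
    have hS : (Fintype.piFinset fun i => range (s.ex i + 1)) ⊆ expo D.N D.B := by
      intro γ hγ
      rw [Fintype.mem_piFinset] at hγ
      have h3 : ∑ i, s.ex i ≤ D.B := mem_expo.1 s.2.2
      rw [mem_expo]
      refine le_trans (Finset.sum_le_sum fun i _ => ?_) h3
      exact Nat.lt_succ_iff.1 (Finset.mem_range.1 (hγ i))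
    rw [h2, Finset.sum_subset hS, ← Finset.sum_coe_sort]
    · refine Finset.sum_congr rfl fun γ _ => ?_
      simp only [Pi.smul_apply, Pi.mul_apply, smul_eq_mul]
      congr 1
      unfold X3_C X3_P DatX.Cf DatX.row IxT.ex
      simp
    · intro γ _ hγ
      have h4 : X3_b s.ex γ = 0 := by
        by_contra h5
        apply hγ
        rw [Fintype.mem_piFinset]
        intro i
        rw [Finset.mem_range]
        have := X3_b_le h5 i
        omega
      rw [h4, zero_mul]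
  rw [h1, X3_L, ← Finset.add_sum_erase _ _ (Finset.mem_univ s.2)]
  congr 1
  have h2 : X3_b s.ex s.2.1 = 1 := X3_b_self s.ex
  have h3 : ((s.ex - s.2.1, 0) : Mon D.N D.M) = 0 := by
    have : s.ex - s.2.1 = 0 := tsub_self s.ex
    rw [this]
    rfl
  rw [h2, h3, X3_C_zero, one_mul, one_smul]

private theorem X3_L_mem (D : DatX) (Sg : Finset D.Ix) (s : D.Ix)
    (ih : ∀ s' : D.Ix, s'.dg < s.dg → X3_P D s' ∈ X3_V D Sg s'.dg (D.g * s'.dg)) :
    X3_L D s ∈ X3_V D Sg s.dg (D.g * s.dg) := by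
  classical
  unfold X3_L
  refine Submodule.sum_mem _ fun γ hγ => ?_
  by_cases hb : X3_b s.ex γ.1 = 0
  · rw [hb, zero_smul]
    exact Submodule.zero_mem _
  · refine Submodule.smul_mem _ _ ?_
    have hle := X3_b_le hb
    have hne : γ.1 ≠ s.ex := by
      intro h
      exact (Finset.mem_erase.1 hγ).1 (Subtype.ext h)
    have hd : IxT.dg ((s.1, γ) : D.Ix) = ∑ i, γ.1 i := rfl
    have hs : s.dg = ∑ i, s.ex i := rfl
    have hlt : ∑ i, γ.1 i < ∑ i, s.ex i := by
      refine Finset.sum_lt_sum (fun i _ => hle i) ?_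
      by_contra h
      push Not at h
      exact hne (funext fun i => le_antisymm (hle i) (h i (Finset.mem_univ i)))
    have h1 := ih (s.1, γ) (by rw [hd, hs]; exact hlt)
    rw [hd] at h1
    refine X3_mul D Sg _ ?_ ?_ h1
    · simp only [Pi.sub_apply]
      rw [hs, ← Finset.sum_add_distrib]
      refine le_of_eq (Finset.sum_congr rfl fun i _ => ?_)
      have := hle i
      omega
    · simp only [Pi.zero_apply, Finset.sum_const_zero, add_zero]
      rw [hs]
      exact Nat.mul_le_mul_left _ hlt.le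

private theorem X3_main (D : DatX) (Sg : Finset D.Ix) (hG : D.Good Sg) :
    ∀ (m : ℕ) (s : D.Ix), s.dg = m → X3_P D s ∈ X3_V D Sg m (D.g * m) := by
  classical
  intro m
  induction m using Nat.strong_induction_on with
  | _ m ih =>
    intro s hs
    have ih' : ∀ s' : D.Ix, s'.dg < m → X3_P D s' ∈ X3_V D Sg s'.dg (D.g * s'.dg) :=
      fun s' h => ih _ h s' rfl
    have hL : ∀ s' : D.Ix, s'.dg ≤ m → X3_L D s' ∈ X3_V D Sg s'.dg (D.g * s'.dg) :=
      fun s' h => X3_L_mem D Sg s' fun s'' h' => ih' s'' (by omega)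
    have hQ : ∀ s' : D.Ix, s'.dg < m → X3_Q D s' ∈ X3_V D Sg s'.dg (D.g * s'.dg) := by
      intro s' h
      rw [X3_split]
      exact Submodule.add_mem _ (ih' s' h) (hL s' h.le)
    obtain ⟨ρ, hρ, t, ht, hst⟩ := hG s
    obtain ⟨G, hG1, hG2⟩ := D.hR ρ hρ m (by
      intro s' h0
      have h1 := congrFun hst s'
      rw [Pi.add_apply] at h1
      by_cases h2 : s' = s
      · rw [h2, hs]
      · rw [Pi.single_eq_of_ne h2] at h1
        have h3 : t s' ≠ 0 := by
          intro h4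
          rw [h4, add_zero] at h1
          exact h0 h1.symm
        rw [← hs]
        exact (ht s' h3).2)
    have hkey : X3_Q D s = (∑ s' : D.Ix, ∑ κ ∈ expo D.M D.g,
        G s' κ • (X3_C D (0, κ) * X3_Q D s')) + ∑ s' : D.Ix, t s' • X3_Q D s' := by
      funext z
      have hx := X3_I D z
      have h1 := hG2 _ hx
      have h2 : X3_Q D s z = ∑ s' : D.Ix, (Pi.single s (1 : ℝ) : D.Ix → ℝ) s' * X3_Q D s' z := by
        rw [Finset.sum_eq_single s]
        · rw [Pi.single_eq_same, one_mul]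
        · intro s' _ h3
          rw [Pi.single_eq_of_ne h3, zero_mul]
        · intro h3
          exact absurd (Finset.mem_univ s) h3
      rw [h2, hst]
      simp only [Pi.add_apply, add_mul, Finset.sum_add_distrib, Finset.sum_apply, Pi.smul_apply,
        Pi.mul_apply, smul_eq_mul]
      congr 1
      refine h1.trans ?_
      refine Finset.sum_congr rfl fun s' _ => Finset.sum_congr rfl fun κ _ => ?_
      unfold X3_C X3_Q DatX.Cf
      simp only [Pi.zero_apply, pow_zero, Finset.prod_const_one, one_mul]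
      ring
    have hQs : X3_Q D s ∈ X3_V D Sg m (D.g * m) := by
      rw [hkey]
      refine Submodule.add_mem _ ?_ ?_
      · refine Submodule.sum_mem _ fun s' _ => Submodule.sum_mem _ fun κ hκ => ?_
        by_cases h0 : G s' κ = 0
        · rw [h0, zero_smul]
          exact Submodule.zero_mem _
        · refine Submodule.smul_mem _ _ ?_
          have h1 := hG1 s' κ h0
          have h2 := mem_expo.1 hκ
          refine X3_mul D Sg _ ?_ ?_ (hQ s' h1)
          · simp only [Pi.zero_apply, Finset.sum_const_zero, add_zero]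
            exact h1.le
          · simp only
            calc D.g * s'.dg + ∑ i, κ i ≤ D.g * s'.dg + D.g := Nat.add_le_add_left h2 _
              _ = D.g * (s'.dg + 1) := by ring
              _ ≤ D.g * m := Nat.mul_le_mul_left _ h1
      · refine Submodule.sum_mem _ fun s' _ => ?_
        by_cases h0 : t s' = 0
        · rw [h0, zero_smul]
          exact Submodule.zero_mem _
        · refine Submodule.smul_mem _ _ ?_
          obtain ⟨h1, h2⟩ := ht s' h0
          rw [hs] at h2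
          rw [X3_split]
          refine Submodule.add_mem _ ?_ (X3_mono D Sg h2 (Nat.mul_le_mul_left _ h2) (hL s' h2))
          have h3 := X3_gen D h1 0 (a := m) (b := D.g * m) (by simp) (by simp)
          rwa [X3_C_zero, one_mul] at h3
    have h3 : X3_P D s = X3_Q D s - X3_L D s := by
      rw [X3_split]
      ring
    rw [h3]
    have h4 := hL s hs.le
    rw [hs] at h4
    exact Submodule.sub_mem _ hQs h4

theorem combX (D : DatX) (Sg : Finset D.Ix) (hG : D.Good Sg) :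
    ∃ Γ : D.Ix → D.Ix → Mon D.N D.M → ℝ, (∀ s s' μ, Γ s s' μ ≠ 0 → s' ∈ Sg) ∧
      ∀ (n T : ℕ) (s : D.Ix), ∀ j ∈ D.Nd n, D.row T s j =
        ∑ s' : D.Ix, ∑ μ ∈ D.Mm, Γ s s' μ * D.Cf T μ j * D.row T s' j := by
  classical
  have h : ∀ s : D.Ix, ∃ c : ↥(Sg ×ˢ (expo D.N D.B ×ˢ expo D.M D.E)) → ℝ,
      ∑ p, c p • (X3_C D p.1.2 * X3_P D p.1.1) = X3_P D s := by
    intro s
    have h1 : s.dg ≤ D.B := mem_expo.1 s.2.2
    have h2 := X3_mono D Sg h1 (Nat.mul_le_mul_left D.g h1) (X3_main D Sg hG _ s rfl)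
    exact (Submodule.mem_span_range_iff_exists_fun ℝ).1 h2
  choose c hc using h
  refine ⟨fun s s' μ => if h : (s', μ) ∈ Sg ×ˢ (expo D.N D.B ×ˢ expo D.M D.E) then
    c s ⟨(s', μ), h⟩ else 0, ?_, ?_⟩
  · intro s s' μ h0
    by_contra h1
    apply h0
    exact dif_neg fun h2 => h1 (Finset.mem_product.1 h2).1
  · intro n T s j hj
    have h1 := congrFun (hc s) (⟨(n, T, j), hj⟩ : X3_Pt D)
    rw [Finset.sum_apply] at h1
    have h2 : D.row T s j = X3_P D s (⟨(n, T, j), hj⟩ : X3_Pt D) := rfl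
    rw [h2, ← h1]
    have h3 : ∑ s' : D.Ix, ∑ μ ∈ D.Mm,
        (if h : (s', μ) ∈ Sg ×ˢ (expo D.N D.B ×ˢ expo D.M D.E) then
          c s ⟨(s', μ), h⟩ else 0) * D.Cf T μ j * D.row T s' j =
        ∑ p ∈ (Finset.univ : Finset D.Ix) ×ˢ D.Mm,
        (if h : p ∈ Sg ×ˢ (expo D.N D.B ×ˢ expo D.M D.E) then
          c s ⟨p, h⟩ else 0) * D.Cf T p.2 j * D.row T p.1 j := by
      rw [Finset.sum_product]
    rw [h3]
    have h4 : Sg ×ˢ (expo D.N D.B ×ˢ expo D.M D.E) ⊆ (Finset.univ : Finset D.Ix) ×ˢ D.Mm :=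
      Finset.product_subset_product (Finset.subset_univ _) (Finset.Subset.refl _)
    rw [← Finset.sum_subset h4, ← Finset.sum_coe_sort (Sg ×ˢ (expo D.N D.B ×ˢ expo D.M D.E))
      (fun p => (if h : p ∈ Sg ×ˢ (expo D.N D.B ×ˢ expo D.M D.E) then
          c s ⟨p, h⟩ else 0) * D.Cf T p.2 j * D.row T p.1 j)]
    · refine Finset.sum_congr rfl fun p _ => ?_
      rw [dif_pos p.2]
      simp only [Pi.smul_apply, Pi.mul_apply, smul_eq_mul]
      unfold X3_C X3_P
      ring
    · intro p _ hp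
      rw [dif_neg hp, zero_mul, zero_mul]

end CM68
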