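import Pool.Agent.LibCM68.D0
import Pool.Agent.LibPX.X3
import Pool.Agent.LibPX.X5

/-!
# Row X6: the rows of the second type are small modulo those of the first type (MEDIUM; template LibCM3/SM3.lean)

`spanX`: as `span3` in LibCM3/SM3.lean.
`rows_smallX`: `Γ` from `combX`; with `Ψ` the polynomial of `j.choose i` (`choose_poly`), `m = d - E ww win - i ≥ 1`, `G μ` from `Cf_polyX`:
`rowB s i j = Om^E * C(j, i) * ∑_{s' ∈ Sg} ∑_μ Γ s s' μ Cf μ j row s' j`, `v' j = ∑_{s'} ∑_μ Γ s s' μ * row s' j * (j.choose i) * (Om^E Cf μ j - G μ (j))`; the difference is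
`- ∑ Γ row s' j (G μ * Ψ)(j)`, `natDegree (G μ * Ψ) < m + E ww win + i = d` (`spanX`).
Size: `|row s' j| ≤ Bd win^B` (`row_leX`; `Bd` = a bound for the `|φ h x|`, `x < q`), `Cf_polyX`, `(m + 1)^ec ≤ (d + 1)^ec`.  `Kx` = `1 + Bd * (∑ s, ∑ s', ∑ μ |Γ s s' μ|) * 2^E * Kd * ce ec`.
-/

namespace CM68

open Finset Polynomial

theorem spanX (D : DatX) {Sg : Finset D.Ix} {n T d : ℕ} {p : ℝ[X]} (hp : p.natDegree < d)
    {s : D.Ix} (hs : s ∈ Sg) :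
    (fun j : D.Nd n => D.row T s (j : ℕ) * p.eval ((j : ℕ) : ℝ)) ∈ D.rsp Sg n T d := by
  obtain ⟨a, ha⟩ := exists_choose hp
  have h1 : (fun j : D.Nd n => D.row T s (j : ℕ) * p.eval ((j : ℕ) : ℝ)) =
      ∑ k : Fin d, a k • fun j : D.Nd n => D.rowA T s k (j : ℕ) := by
    funext j
    rw [Finset.sum_apply, ha, Finset.mul_sum]
    refine Finset.sum_congr rfl fun k _ => ?_
    rw [Pi.smul_apply, smul_eq_mul]
    unfold DatX.rowA
    ring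
  rw [h1]
  exact Submodule.sum_mem _ fun k _ => Submodule.smul_mem _ _
    (Submodule.subset_span ⟨(⟨s, hs⟩, k), rfl⟩)

private theorem X6_Wb0 {q n T w : ℕ} : 0 ≤ Wb q n T w := by
  unfold Wb
  positivity

theorem rows_smallX (D : DatX) (Sg : Finset D.Ix) (hG : D.Good Sg) : ∃ Kx : ℝ, 1 ≤ Kx ∧
    ∀ n r d i : ℕ, 1 ≤ n → 1 ≤ r → i + D.E * (D.ww * win n (r * n)) < d → ∀ s : D.Ix,
    ∃ v' : D.Nd n → ℝ, (v' - fun j : D.Nd n => D.rowB n (r * n) s i j) ∈ D.rsp Sg n (r * n) d ∧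
      ∀ j : D.Nd n, |v' j| ≤
        Kx * (Wb D.q n (r * n) (D.E * D.ww) * (win n (r * n) : ℝ) ^ (D.B + D.E) *
          ((d : ℝ) + 1) ^ D.ec) *
          (1 / (2 * (r : ℝ) + 1)) ^ (d - D.E * (D.ww * win n (r * n)) - i) *
          ((j : ℕ).choose i : ℝ) := by
  classical
  obtain ⟨Γ, hΓ, hcomb⟩ := combX D Sg hG
  obtain ⟨Bd, hBd⟩ : ∃ Bd : ℝ, Bd = ∑ h : Fin D.H, ∑ x ∈ range D.q, |(D.φ h x : ℝ)| := ⟨_, rfl⟩
  have hBd' : ∀ h, ∀ x < D.q, |(D.φ h x : ℝ)| ≤ Bd := by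
    intro h x hx
    rw [hBd]
    refine (Finset.single_le_sum (f := fun x => |(D.φ h x : ℝ)|) (fun _ _ => abs_nonneg _)
      (mem_range.2 hx)).trans ?_
    exact Finset.single_le_sum (f := fun h => ∑ x ∈ range D.q, |(D.φ h x : ℝ)|)
      (fun _ _ => Finset.sum_nonneg fun _ _ => abs_nonneg _) (mem_univ h)
  have hBd0 : 0 ≤ Bd := by
    rw [hBd]
    exact Finset.sum_nonneg fun _ _ => Finset.sum_nonneg fun _ _ => abs_nonneg _
  obtain ⟨Gs, hGs⟩ : ∃ Gs : ℝ, Gs = ∑ s : D.Ix, ∑ s' : D.Ix, ∑ μ ∈ D.Mm, |Γ s s' μ| := ⟨_, rfl⟩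
  have hGs' : ∀ s : D.Ix, ∑ s' : D.Ix, ∑ μ ∈ D.Mm, |Γ s s' μ| ≤ Gs := by
    intro s
    rw [hGs]
    exact Finset.single_le_sum (f := fun s => ∑ s' : D.Ix, ∑ μ ∈ D.Mm, |Γ s s' μ|)
      (fun _ _ => Finset.sum_nonneg fun _ _ => Finset.sum_nonneg fun _ _ => abs_nonneg _)
      (mem_univ s)
  have hGs0 : 0 ≤ Gs := by
    rw [hGs]
    exact Finset.sum_nonneg fun _ _ => Finset.sum_nonneg fun _ _ =>
      Finset.sum_nonneg fun _ _ => abs_nonneg _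
  have hKd : 0 ≤ D.Kd := by
    unfold DatX.Kd
    positivity
  have hce : 0 ≤ ce D.ec := le_trans zero_le_one (ce_pos _)
  obtain ⟨Kx, hKx⟩ : ∃ Kx : ℝ, Kx = Bd * Gs * (2 ^ D.E * (D.Kd * ce D.ec)) := ⟨_, rfl⟩
  have hKx0 : 0 ≤ Kx := by
    rw [hKx]
    positivity
  refine ⟨1 + Kx, by linarith, ?_⟩
  intro n r d i hn hr hi s
  obtain ⟨Ψ, hΨ, hΨ'⟩ := choose_poly i
  obtain ⟨e, he⟩ : ∃ e, e = D.E * (D.ww * win n (r * n)) := ⟨_, rfl⟩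
  obtain ⟨m, hm⟩ : ∃ m, m = d - e - i := ⟨_, rfl⟩
  have hm1 : 1 ≤ m := by omega
  have hP : ∀ μ : Mon D.N D.M, ∃ G : ℝ[X], μ ∈ D.Mm → G.natDegree < m + e ∧
      ∀ j ∈ D.Nd n, |(D.Om n (r * n)).eval (j : ℝ) ^ D.E * D.Cf (r * n) μ j - G.eval (j : ℝ)| ≤
        2 ^ D.E * (Wb D.q n (r * n) (D.E * D.ww) * (win n (r * n) : ℝ) ^ D.E) *
          (D.Kd * ce D.ec * ((m : ℝ) + 1) ^ D.ec * (1 / (2 * (r : ℝ) + 1)) ^ m) := by
    intro μ
    by_cases hμ : μ ∈ D.Mm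
    · obtain ⟨G, h1, h2⟩ := Cf_polyX D hn hr hm1 hμ
      exact ⟨G, fun _ => ⟨he ▸ h1, h2⟩⟩
    · exact ⟨0, fun h => absurd h hμ⟩
  choose G hGp using hP
  refine ⟨fun j => ∑ s' : D.Ix, ∑ μ ∈ D.Mm, Γ s s' μ * (D.row (r * n) s' (j : ℕ) *
    (((j : ℕ).choose i : ℝ) * ((D.Om n (r * n)).eval ((j : ℕ) : ℝ) ^ D.E *
      D.Cf (r * n) μ (j : ℕ) - (G μ).eval ((j : ℕ) : ℝ)))), ?_, ?_⟩
  · have h1 : ((fun j : D.Nd n => ∑ s' : D.Ix, ∑ μ ∈ D.Mm, Γ s s' μ * (D.row (r * n) s' (j : ℕ) *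
        (((j : ℕ).choose i : ℝ) * ((D.Om n (r * n)).eval ((j : ℕ) : ℝ) ^ D.E *
          D.Cf (r * n) μ (j : ℕ) - (G μ).eval ((j : ℕ) : ℝ))))) -
        fun j : D.Nd n => D.rowB n (r * n) s i j) =
        ∑ s' : D.Ix, ∑ μ ∈ D.Mm, (-Γ s s' μ) • fun j : D.Nd n =>
          D.row (r * n) s' (j : ℕ) * (G μ * Ψ).eval ((j : ℕ) : ℝ) := by
      funext j
      rw [Pi.sub_apply, Finset.sum_apply]
      show ∑ s' : D.Ix, ∑ μ ∈ D.Mm, Γ s s' μ * (D.row (r * n) s' (j : ℕ) *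
        (((j : ℕ).choose i : ℝ) * ((D.Om n (r * n)).eval ((j : ℕ) : ℝ) ^ D.E *
          D.Cf (r * n) μ (j : ℕ) - (G μ).eval ((j : ℕ) : ℝ)))) - D.rowB n (r * n) s i j = _
      unfold DatX.rowB
      rw [hcomb n (r * n) s (j : ℕ) j.2, Finset.sum_mul, ← Finset.sum_sub_distrib]
      refine Finset.sum_congr rfl fun s' _ => ?_
      rw [Finset.sum_mul, ← Finset.sum_sub_distrib, Finset.sum_apply]
      refine Finset.sum_congr rfl fun μ _ => ?_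
      rw [Pi.smul_apply, smul_eq_mul, eval_mul, hΨ']
      ring
    rw [h1]
    refine Submodule.sum_mem _ fun s' _ => Submodule.sum_mem _ fun μ hμ => ?_
    by_cases h0 : Γ s s' μ = 0
    · rw [h0, neg_zero, zero_smul]
      exact Submodule.zero_mem _
    · refine Submodule.smul_mem _ _ (spanX D ?_ (hΓ s s' μ h0))
      have h2 := (hGp μ hμ).1
      have h3 : (G μ * Ψ).natDegree ≤ (G μ).natDegree + Ψ.natDegree := natDegree_mul_le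
      omega
  · intro j
    obtain ⟨Bw, hBw⟩ : ∃ Bw : ℝ, Bw = Bd * (win n (r * n) : ℝ) ^ D.B := ⟨_, rfl⟩
    have hrow : ∀ s' : D.Ix, |D.row (r * n) s' (j : ℕ)| ≤ Bw := by
      intro s'
      rw [hBw]
      exact row_leX D hBd' j.2 s'
    have hBw0 : 0 ≤ Bw := by
      rw [hBw]
      positivity
    have hWb : 0 ≤ Wb D.q n (r * n) (D.E * D.ww) := X6_Wb0
    have hρ : 0 ≤ (1 / (2 * (r : ℝ) + 1)) ^ m := by positivity
    obtain ⟨Ed, hEd⟩ : ∃ Ed : ℝ, Ed =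
        2 ^ D.E * (Wb D.q n (r * n) (D.E * D.ww) * (win n (r * n) : ℝ) ^ D.E) *
          (D.Kd * ce D.ec * ((d : ℝ) + 1) ^ D.ec * (1 / (2 * (r : ℝ) + 1)) ^ m) := ⟨_, rfl⟩
    have hEd0 : 0 ≤ Ed := by
      rw [hEd]
      positivity
    have hAG : ∀ μ ∈ D.Mm, |(D.Om n (r * n)).eval ((j : ℕ) : ℝ) ^ D.E * D.Cf (r * n) μ (j : ℕ) -
        (G μ).eval ((j : ℕ) : ℝ)| ≤ Ed := by
      intro μ hμ
      refine ((hGp μ hμ).2 (j : ℕ) j.2).trans ?_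
      rw [hEd]
      have hmd : (m : ℝ) ≤ d := by
        have : m ≤ d := by omega
        exact_mod_cast this
      have h4 : ((m : ℝ) + 1) ^ D.ec ≤ ((d : ℝ) + 1) ^ D.ec :=
        pow_le_pow_left₀ (by positivity) (by linarith) _
      refine mul_le_mul_of_nonneg_left ?_ (by positivity)
      exact mul_le_mul_of_nonneg_right (mul_le_mul_of_nonneg_left h4 (by positivity)) hρ
    have hC0 : (0 : ℝ) ≤ ((j : ℕ).choose i : ℝ) := Nat.cast_nonneg _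
    obtain ⟨X, hX⟩ : ∃ X : ℝ, X = Bw * (((j : ℕ).choose i : ℝ) * Ed) := ⟨_, rfl⟩
    have hX0 : 0 ≤ X := by
      rw [hX]
      positivity
    have hterm : ∀ s' : D.Ix, ∀ μ ∈ D.Mm, |Γ s s' μ * (D.row (r * n) s' (j : ℕ) *
        (((j : ℕ).choose i : ℝ) * ((D.Om n (r * n)).eval ((j : ℕ) : ℝ) ^ D.E *
          D.Cf (r * n) μ (j : ℕ) - (G μ).eval ((j : ℕ) : ℝ))))| ≤ |Γ s s' μ| * X := by
      intro s' μ hμ
      rw [abs_mul, abs_mul (D.row (r * n) s' (j : ℕ)), abs_mul ((j : ℕ).choose i : ℝ),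
        Nat.abs_cast, hX]
      refine mul_le_mul_of_nonneg_left ?_ (abs_nonneg _)
      exact mul_le_mul (hrow s') (mul_le_mul_of_nonneg_left (hAG μ hμ) hC0)
        (by positivity) hBw0
    show |∑ s' : D.Ix, ∑ μ ∈ D.Mm, Γ s s' μ * (D.row (r * n) s' (j : ℕ) *
      (((j : ℕ).choose i : ℝ) * ((D.Om n (r * n)).eval ((j : ℕ) : ℝ) ^ D.E *
        D.Cf (r * n) μ (j : ℕ) - (G μ).eval ((j : ℕ) : ℝ))))| ≤ _
    have hsum : |∑ s' : D.Ix, ∑ μ ∈ D.Mm, Γ s s' μ * (D.row (r * n) s' (j : ℕ) *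
        (((j : ℕ).choose i : ℝ) * ((D.Om n (r * n)).eval ((j : ℕ) : ℝ) ^ D.E *
          D.Cf (r * n) μ (j : ℕ) - (G μ).eval ((j : ℕ) : ℝ))))| ≤ Gs * X := by
      refine (Finset.abs_sum_le_sum_abs _ _).trans ?_
      refine (Finset.sum_le_sum fun s' _ => (Finset.abs_sum_le_sum_abs _ _).trans
        (Finset.sum_le_sum (hterm s'))).trans ?_
      refine le_trans (le_of_eq ?_) (mul_le_mul_of_nonneg_right (hGs' s) hX0)
      rw [Finset.sum_mul]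
      exact Finset.sum_congr rfl fun s' _ => (Finset.sum_mul _ _ _).symm
    refine hsum.trans ?_
    have hfin : Gs * X = Kx * (Wb D.q n (r * n) (D.E * D.ww) *
        (win n (r * n) : ℝ) ^ (D.B + D.E) * ((d : ℝ) + 1) ^ D.ec) *
        (1 / (2 * (r : ℝ) + 1)) ^ m * ((j : ℕ).choose i : ℝ) := by
      rw [hX, hEd, hBw, hKx, pow_add]
      ring
    rw [hfin, ← he, ← hm]
    refine mul_le_mul_of_nonneg_right (mul_le_mul_of_nonneg_right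
      (mul_le_mul_of_nonneg_right (by linarith) (by positivity)) hρ) hC0

end CM68
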