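import Pool.Agent.LibCM68.D0
import Pool.Agent.LibCM3.Z10
import Pool.Agent.LibPX.X4

/-!
# Row X7: the rows of the second type are independent modulo those of the first type (MEDIUM/STRONG; template LibCM3/Z11.lean)

From `hv` (`choose_comb`, as in LibCM3/Z11.lean): polynomials `Rf s` of degree `≤ d` with `∑_s row T s j * Rf s (j) = 0` at the nodes: for `s ∈ Sh` `Rf s = Om^E * Q s`, `Q s` the polynomial of
`v (s, ·)` (degree `< κ`, so `natDegree (Om^E * Q s) ≤ E ww win + κ ≤ d`), for `s ∈ Sg` `Rf s = -` the polynomial of the coefficients, else `0`.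
`W` = span of the `Rf s`, `finrank ≤ S = card Ix = H * card (expo N B)`, degrees `≤ d`.  `w' x β = ∑ h, C (φ h x) * Rf (h, β)` for `β ∈ expo N B` (else `0`), in `W`.
For `x ∈ I` with some `w' x β ≠ 0` let `e(x) = max {∑ β : w' x β ≠ 0} ≤ B`; `F_e` = the `x` with `e(x) = e`, `e ≤ B`: `zeroW3` (LibCM3/Z10.lean) with `I := F_e`, `e`, `F := F_e` (the terms `∑ β > e` vanish):
`F_e.card * (n - 1 - card (expo N e) S) ≤ card (expo N e) S (d + e (w card (expo N e) S N))`; with `card (expo N e) S ≤ L`: `F_e.card * (n - 1 - L) ≤ L (d + B (w L N))`; sum over `e ≤ B`.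
So the set `Bad` of the `x ∈ I` with some `w' x β ≠ 0` has `Sp * Bad.card ≤ I.card` (`hdeg`, `L + 1 < n`), and for `x ∈ I \ Bad` all `∑ h, φ h x • Rf (h, β) = 0`: `hspread` applied to every coefficient:
`Rf = 0`.  For `s ∈ Sh`: `Om ≠ 0` (`Om_neX` at a node), so `Q s = 0` and `v (s, ·) = 0`.
-/

namespace CM68

open Finset Polynomial

/-- a sum over a subset, in total form -/
private theorem X7_sum {ι : Type} [Fintype ι] (S : Finset ι) (f : ι → ℝ)
    (h0 : ∀ s, s ∉ S → f s = 0) : ∑ s : S, f s = ∑ s, f s := by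
  rw [Finset.sum_coe_sort S f]
  exact Finset.sum_subset (Finset.subset_univ S) fun s _ hs => h0 s hs

/-- counting -/
private theorem X7_card {B : ℕ} {Bad : Finset ℕ} (F : ℕ → Finset ℕ)
    (hB : ∀ x ∈ Bad, ∃ e ≤ B, x ∈ F e) {m A : ℕ} (hF : ∀ e ≤ B, (F e).card * m ≤ A) :
    Bad.card * m ≤ (B + 1) * A := by
  classical
  have h1 : Bad ⊆ (Finset.range (B + 1)).biUnion F := by
    intro x hx
    obtain ⟨e, he, hxe⟩ := hB x hx
    exact Finset.mem_biUnion.2 ⟨e, Finset.mem_range.2 (by omega), hxe⟩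
  calc Bad.card * m ≤ (∑ e ∈ Finset.range (B + 1), (F e).card) * m :=
        Nat.mul_le_mul_right _ ((Finset.card_le_card h1).trans Finset.card_biUnion_le)
    _ = ∑ e ∈ Finset.range (B + 1), (F e).card * m := Finset.sum_mul _ _ _
    _ ≤ ∑ e ∈ Finset.range (B + 1), A := Finset.sum_le_sum fun e he =>
        hF e (by have := Finset.mem_range.1 he; omega)
    _ = (B + 1) * A := by rw [Finset.sum_const, Finset.card_range, smul_eq_mul]

theorem rows_indX (D : DatX) (Sg Sh : Finset D.Ix) (hdis : ∀ s ∈ Sh, s ∉ Sg) {n T d κ : ℕ}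
    (hκ : 1 ≤ κ) (hκd : κ + D.E * (D.ww * win n T) ≤ d) (hn : D.L + 1 < n)
    (hdeg : D.Sp * ((D.B + 1) * (D.L * (d + D.B * (D.w * D.L * D.N)))) ≤
      D.I.card * (n - 1 - D.L))
    (v : Sh × Fin κ → ℝ)
    (hv : (∑ b, v b • fun j : D.Nd n => D.rowB n T b.1.1 b.2 (j : ℕ)) ∈ D.rsp Sg n T d) :
    v = 0 := by
  classical
  obtain ⟨e, he⟩ := (Submodule.mem_span_range_iff_exists_fun ℝ).1 hv
  have hd1 : 1 ≤ d := by omega
  choose Q hQ1 hQ2 hQ3 using fun s : Sh => choose_comb (K := κ) hκ (fun i => v (s, i))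
  choose R hR1 hR2 hR3 using fun s : Sg => choose_comb hd1 (fun i => e (s, i))
  obtain ⟨Q', hQ'⟩ : ∃ Q' : D.Ix → ℝ[X], Q' = fun s => if h : s ∈ Sh then Q ⟨s, h⟩ else 0 :=
    ⟨_, rfl⟩
  obtain ⟨R', hR'⟩ : ∃ R' : D.Ix → ℝ[X], R' = fun s => if h : s ∈ Sg then R ⟨s, h⟩ else 0 :=
    ⟨_, rfl⟩
  have hQin : ∀ s : Sh, Q' s = Q s := by
    intro s
    rw [hQ']
    exact dif_pos s.2
  have hQout : ∀ s, s ∉ Sh → Q' s = 0 := by
    intro s hs
    rw [hQ']
    exact dif_neg hs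
  have hRin : ∀ s : Sg, R' s = R s := by
    intro s
    rw [hR']
    exact dif_pos s.2
  have hRout : ∀ s, s ∉ Sg → R' s = 0 := by
    intro s hs
    rw [hR']
    exact dif_neg hs
  have hQd : ∀ s, (Q' s).natDegree ≤ κ := by
    intro s
    by_cases h : s ∈ Sh
    · have := (hQ1 ⟨s, h⟩).le
      rwa [← hQin] at this
    · rw [hQout s h, natDegree_zero]
      exact Nat.zero_le _
  have hRd : ∀ s, (R' s).natDegree ≤ d := by
    intro s
    by_cases h : s ∈ Sg
    · have := (hR1 ⟨s, h⟩).le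
      rwa [← hRin] at this
    · rw [hRout s h, natDegree_zero]
      exact Nat.zero_le _
  obtain ⟨Rf, hRf⟩ : ∃ Rf : D.Ix → ℝ[X], Rf = fun s => D.Om n T ^ D.E * Q' s - R' s :=
    ⟨_, rfl⟩
  have hRfd : ∀ s, (Rf s).natDegree ≤ d := by
    intro s
    rw [hRf]
    refine (natDegree_sub_le _ _).trans (max_le ?_ (hRd s))
    refine natDegree_mul_le.trans ?_
    have h1 : (D.Om n T ^ D.E).natDegree ≤ D.E * (D.ww * win n T) :=
      natDegree_pow_le.trans (Nat.mul_le_mul_left _ (Om_natDegreeX D n T))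
    have h2 := hQd s
    omega
  -- the relation
  have hrel : ∀ j ∈ D.Nd n, ∑ s : D.Ix, D.row T s j * (Rf s).eval (j : ℝ) = 0 := by
    intro j hj
    have h1 := congrFun he ⟨j, hj⟩
    simp only [Finset.sum_apply, Pi.smul_apply, smul_eq_mul] at h1
    have e1 : ∑ a : Sg × Fin d, e a * D.rowA T a.1.1 a.2 j =
        ∑ s : D.Ix, D.row T s j * (R' s).eval (j : ℝ) := by
      rw [← X7_sum Sg (fun s => D.row T s j * (R' s).eval (j : ℝ))
        (fun s hs => by rw [hRout s hs, eval_zero, mul_zero]), Fintype.sum_prod_type]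
      refine Finset.sum_congr rfl fun s _ => ?_
      simp only
      rw [hRin, hR2, Finset.mul_sum]
      refine Finset.sum_congr rfl fun i _ => ?_
      simp only [DatX.rowA]
      ring
    have e2 : ∑ b : Sh × Fin κ, v b * D.rowB n T b.1.1 b.2 j =
        ∑ s : D.Ix, D.row T s j * ((D.Om n T).eval (j : ℝ) ^ D.E * (Q' s).eval (j : ℝ)) := by
      rw [← X7_sum Sh
        (fun s => D.row T s j * ((D.Om n T).eval (j : ℝ) ^ D.E * (Q' s).eval (j : ℝ)))
        (fun s hs => by rw [hQout s hs, eval_zero, mul_zero, mul_zero]), Fintype.sum_prod_type]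
      refine Finset.sum_congr rfl fun s _ => ?_
      simp only
      rw [hQin, hQ2, Finset.mul_sum, Finset.mul_sum]
      refine Finset.sum_congr rfl fun i _ => ?_
      simp only [DatX.rowB]
      ring
    have e3 : ∑ a : Sg × Fin d, e a * D.rowA T a.1.1 a.2 j =
        ∑ b : Sh × Fin κ, v b * D.rowB n T b.1.1 b.2 j := h1
    rw [e1, e2] at e3
    have e4 : ∑ s : D.Ix, D.row T s j * (Rf s).eval (j : ℝ) =
        ∑ s : D.Ix, D.row T s j * ((D.Om n T).eval (j : ℝ) ^ D.E * (Q' s).eval (j : ℝ)) -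
          ∑ s : D.Ix, D.row T s j * (R' s).eval (j : ℝ) := by
      rw [← Finset.sum_sub_distrib]
      refine Finset.sum_congr rfl fun s _ => ?_
      rw [hRf]
      simp only [eval_sub, eval_mul, eval_pow]
      ring
    rw [e4, e3, sub_self]
  obtain ⟨W, hWdef⟩ : ∃ W : Submodule ℝ ℝ[X], W = Submodule.span ℝ (Set.range Rf) := ⟨_, rfl⟩
  have hmem : ∀ s, Rf s ∈ W := by
    intro s
    rw [hWdef]
    exact Submodule.subset_span ⟨s, rfl⟩
  have hfin : Module.Finite ℝ W := by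
    rw [hWdef]
    exact Module.Finite.span_of_finite ℝ (Set.finite_range Rf)
  have hS : Module.finrank ℝ W ≤ D.H * (expo D.N D.B).card := by
    rw [hWdef]
    refine (finrank_range_le_card (R := ℝ) Rf).trans (le_of_eq ?_)
    show Fintype.card (Fin D.H × (expo D.N D.B)) = _
    rw [Fintype.card_prod, Fintype.card_fin, Fintype.card_coe]
  have hW : ∀ p ∈ W, p.natDegree ≤ d := by
    have h1 : W ≤ degreeLE ℝ ((d : ℕ) : WithBot ℕ) := by
      rw [hWdef, Submodule.span_le]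
      rintro _ ⟨z, rfl⟩
      rw [SetLike.mem_coe, mem_degreeLE, ← natDegree_le_iff_degree_le]
      exact hRfd z
    intro p hp
    have := h1 hp
    rwa [mem_degreeLE, ← natDegree_le_iff_degree_le] at this
  obtain ⟨w', hw'⟩ : ∃ w' : ℕ → (Fin D.N → ℕ) → ℝ[X], w' = fun x β =>
      if h : β ∈ expo D.N D.B then ∑ i : Fin D.H, C ((D.φ i x : ℚ) : ℝ) * Rf (i, ⟨β, h⟩) else 0 :=
    ⟨_, rfl⟩
  have hw'in : ∀ x β (h : β ∈ expo D.N D.B),
      w' x β = ∑ i : Fin D.H, C ((D.φ i x : ℚ) : ℝ) * Rf (i, ⟨β, h⟩) := by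
    intro x β h
    rw [hw']
    exact dif_pos h
  have hw'out : ∀ x β, β ∉ expo D.N D.B → w' x β = 0 := by
    intro x β h
    rw [hw']
    exact dif_neg h
  have hw'W : ∀ x β, w' x β ∈ W := by
    intro x β
    by_cases h : β ∈ expo D.N D.B
    · rw [hw'in x β h]
      refine W.sum_mem fun i _ => ?_
      rw [C_mul']
      exact W.smul_mem _ (hmem _)
    · rw [hw'out x β h]
      exact W.zero_mem
  have hrel' : ∀ j ∈ D.Nd n, ∑ β ∈ expo D.N D.B,
      (w' (j % D.q) β).eval (j : ℝ) * ∏ i, ps D.q T (D.ks i) (j + D.cs i) ^ β i = 0 := by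
    intro j hj
    have h1 := hrel j hj
    rw [← h1]
    have h2 : ∑ s : D.Ix, D.row T s j * (Rf s).eval (j : ℝ) =
        ∑ β : (expo D.N D.B), ∑ i : Fin D.H, D.row T (i, β) j * (Rf (i, β)).eval (j : ℝ) := by
      rw [Finset.sum_comm]
      exact Fintype.sum_prod_type _
    rw [h2, ← Finset.sum_coe_sort (expo D.N D.B)]
    refine Finset.sum_congr rfl fun β _ => ?_
    rw [hw'in _ _ β.2, eval_finsetSum, Finset.sum_mul]
    refine Finset.sum_congr rfl fun i _ => ?_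
    rw [eval_mul, eval_C]
    simp only [DatX.row, DatX.pS, IxT.ex]
    ring
  -- the exceptional classes
  obtain ⟨F, hFdef⟩ : ∃ F : ℕ → Finset ℕ, F = fun m => D.I.filter fun x =>
      (∃ β : Fin D.N → ℕ, ∑ i, β i = m ∧ w' x β ≠ 0) ∧
        ∀ β : Fin D.N → ℕ, m < ∑ i, β i → w' x β = 0 := ⟨_, rfl⟩
  have hFmem : ∀ m x, x ∈ F m ↔ x ∈ D.I ∧ (∃ β : Fin D.N → ℕ, ∑ i, β i = m ∧ w' x β ≠ 0) ∧
      ∀ β : Fin D.N → ℕ, m < ∑ i, β i → w' x β = 0 := by
    intro m x
    rw [hFdef]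
    exact Finset.mem_filter
  have hFcard : ∀ m ≤ D.B, (F m).card * (n - 1 - D.L) ≤
      D.L * (d + D.B * (D.w * D.L * D.N)) := by
    intro m hm
    have hsub : expo D.N m ⊆ expo D.N D.B := fun β hβ =>
      mem_expo.2 ((mem_expo.1 hβ).trans hm)
    have key := zeroW3 (q := D.q) (n := n - 1) (d₁ := d) (w := D.w)
      (T := T) (S := D.H * (expo D.N D.B).card) (e := m) (N := D.N)
      (by have := D.hq; omega) (I := F m) (fun x hx => D.hI x ((hFmem m x).1 hx).1) D.ks D.cs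
      (fun i => ⟨by have := (D.hks i).1; omega, (D.hks i).2⟩) D.hcs D.hinj W hS hW w'
      (fun x _ β => hw'W x β)
      (by
        intro j hj
        have hj1 := Finset.mem_filter.1 hj
        have hjF := (hFmem m _).1 hj1.2
        have hjN : j ∈ D.Nd n := Finset.mem_filter.2 ⟨hj1.1, hjF.1⟩
        rw [← hrel' j hjN]
        refine Finset.sum_subset hsub fun β _ hβ => ?_
        have h1 : m < ∑ i, β i := by
          by_contra hcon
          exact hβ (mem_expo.2 (by omega))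
        rw [hjF.2.2 β h1, eval_zero, zero_mul])
      (F m) (Finset.Subset.refl _) (fun x hx => ((hFmem m x).1 hx).2.1)
    have hL : (expo D.N m).card * (D.H * (expo D.N D.B).card) ≤ D.L := by
      unfold DatX.L
      exact Nat.mul_le_mul_right _ (Finset.card_le_card hsub)
    calc (F m).card * (n - 1 - D.L) ≤
          (F m).card * (n - 1 - (expo D.N m).card * (D.H * (expo D.N D.B).card)) :=
          Nat.mul_le_mul_left _ (by omega)
      _ ≤ _ := key
      _ ≤ D.L * (d + D.B * (D.w * D.L * D.N)) := by gcongr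
  obtain ⟨Bad, hBad⟩ : ∃ Bad : Finset ℕ, Bad = D.I.filter fun x =>
      ∃ β ∈ expo D.N D.B, w' x β ≠ 0 := ⟨_, rfl⟩
  have hBmem : ∀ x, x ∈ Bad ↔ x ∈ D.I ∧ ∃ β ∈ expo D.N D.B, w' x β ≠ 0 := by
    intro x
    rw [hBad]
    exact Finset.mem_filter
  have hcount := X7_card (B := D.B) (Bad := Bad) F (by
    intro x hx
    obtain ⟨hxI, β, hβ, hne⟩ := (hBmem x).1 hx
    have hex : ∃ m, m ≤ D.B ∧ ∃ β : Fin D.N → ℕ, ∑ i, β i = m ∧ w' x β ≠ 0 :=
      ⟨∑ i, β i, mem_expo.1 hβ, β, rfl, hne⟩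
    obtain ⟨m, ⟨hm1, hm2⟩, hmax⟩ : ∃ m, (m ≤ D.B ∧ ∃ β : Fin D.N → ℕ, ∑ i, β i = m ∧
        w' x β ≠ 0) ∧ ∀ m', (m' ≤ D.B ∧ ∃ β : Fin D.N → ℕ, ∑ i, β i = m' ∧ w' x β ≠ 0) →
          m' ≤ m := by
      obtain ⟨m₀, hm₀⟩ := hex
      exact ⟨_, Nat.findGreatest_spec (P := fun m => m ≤ D.B ∧ ∃ β : Fin D.N → ℕ,
          ∑ i, β i = m ∧ w' x β ≠ 0) hm₀.1 hm₀,
        fun m' hm' => Nat.le_findGreatest hm'.1 hm'⟩
    refine ⟨m, hm1, (hFmem m x).2 ⟨hxI, hm2, fun γ hγ => ?_⟩⟩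
    by_contra hcon
    have hγB : ∑ i, γ i ≤ D.B := by
      by_contra h
      exact hcon (hw'out x γ fun h' => h (mem_expo.1 h'))
    have := hmax _ ⟨hγB, γ, rfl, hcon⟩
    omega) hFcard
  have hBsub : Bad ⊆ D.I := by
    rw [hBad]
    exact Finset.filter_subset _ _
  have hBcard : D.Sp * Bad.card ≤ D.I.card := by
    have h1 : D.Sp * Bad.card * (n - 1 - D.L) ≤ D.I.card * (n - 1 - D.L) := by
      rw [mul_assoc]
      exact (Nat.mul_le_mul_left _ hcount).trans hdeg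
    exact Nat.le_of_mul_le_mul_right h1 (by omega)
  have hspr : ∀ a : Fin D.H → ℝ,
      (∀ x ∈ D.I \ Bad, ∑ h, a h * (D.φ h x : ℝ) = 0) → a = 0 := by
    refine D.hspread (D.I \ Bad) Finset.sdiff_subset ?_
    rw [Finset.sdiff_sdiff_eq_self hBsub]
    exact hBcard
  have hRf0 : ∀ s, Rf s = 0 := by
    rintro ⟨h, β⟩
    ext m
    have h1 := hspr (fun i => (Rf (i, β)).coeff m) (by
      intro x hx
      obtain ⟨hxI, hxB⟩ := Finset.mem_sdiff.1 hx
      have h2 : w' x β = 0 := by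
        by_contra hcon
        exact hxB ((hBmem x).2 ⟨hxI, β, β.2, hcon⟩)
      rw [hw'in x β β.2] at h2
      have h3 := congrArg (fun p : ℝ[X] => p.coeff m) h2
      simp only [finsetSum_coeff, coeff_C_mul, coeff_zero] at h3
      rw [← h3]
      exact Finset.sum_congr rfl fun i _ => mul_comm _ _)
    have h2 := congrFun h1 h
    simpa using h2
  have hOm : D.Om n T ≠ 0 := by
    intro h4
    obtain ⟨x, hx⟩ := D.hIne
    have hxq := D.hI x hx
    have hxN : x ∈ D.Nd n := by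
      show x ∈ P D.q (n - 1) D.I
      unfold P
      rw [Finset.mem_filter, Finset.mem_range, Nat.mod_eq_of_lt hxq]
      exact ⟨hxq.trans_le (Nat.le_mul_of_pos_right _ (by omega)), hx⟩
    have h3 := Om_neX D (n := n) (T := T) hxN
    rw [h4, eval_zero] at h3
    exact h3 rfl
  funext b
  obtain ⟨s, i⟩ := b
  have h1 := hRf0 s
  rw [hRf] at h1
  simp only at h1
  rw [hRout s (hdis s s.2), sub_zero, hQin] at h1
  have h2 : Q s = 0 := (mul_eq_zero.1 h1).resolve_left (pow_ne_zero _ hOm)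
  exact congrFun (hQ3 s h2) i

end CM68
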