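import Pool.Agent.LibCM68.CORE
import Pool.Agent.LibCM2.S5
import Pool.Agent.LibCM3.CORE3
import Pool.Agent.LibPX.AdmX
import Pool.Agent.LibPX.X1
import Pool.Agent.LibPX.X6
import Pool.Agent.LibPX.X7

/-!
# The contradiction (assembly, helper5)
-/

namespace CM68

open Finset Polynomial

/-- the inequality for one `n` -/
theorem coreX_n (D : DatX) (Sg Sh : Finset D.Ix) (hdis : ∀ s ∈ Sh, s ∉ Sg)
    {δ k r Q₁ Q₂ n D₀ : ℕ} {Bd Kx : ℝ}
    (hk : 1 ≤ k) (hr : 1 ≤ r) (hδ : k + D.E * D.ww * (2 * r + 2) < δ) (hQ₁ : D.q ≤ Q₁ * δ)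
    (hQ₂ : D.q ≤ Q₂ * k) (hZE : D.Sp * ((D.B + 1) * D.L) * δ < D.I.card) (hD₀ : 1 ≤ D₀)
    (hco : ∀ h, ∀ x < D.q, ∃ m : ℤ, (D₀ : ℚ) * D.φ h x = m)
    (hB1 : 1 ≤ Bd) (hBd : ∀ h, ∀ x < D.q, |(D.φ h x : ℝ)| ≤ Bd) (hK1 : 1 ≤ Kx)
    (hKx : ∀ n r d i : ℕ, 1 ≤ n → 1 ≤ r → i + D.E * (D.ww * win n (r * n)) < d → ∀ s : D.Ix,
      ∃ v' : D.Nd n → ℝ, (v' - fun j : D.Nd n => D.rowB n (r * n) s i j) ∈ D.rsp Sg n (r * n) d ∧
        ∀ j : D.Nd n, |v' j| ≤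
          Kx * (Wb D.q n (r * n) (D.E * D.ww) * (win n (r * n) : ℝ) ^ (D.B + D.E) *
            ((d : ℝ) + 1) ^ D.ec) *
            (1 / (2 * (r : ℝ) + 1)) ^ (d - D.E * (D.ww * win n (r * n)) - i) *
            ((j : ℕ).choose i : ℝ))
    (hn : D.Sp * ((D.B + 1) * (D.L * (D.B * (D.w * D.L * D.N)))) + D.I.card * (D.L + 1) + D.L + 2 ≤
      n) :
    1 ≤ ((D₀ : ℝ) * (⌊Wb D.q n (r * n) (D.E * D.ww)⌋₊ : ℕ)) ^
        (Fintype.card (Sg × Fin (δ * n)) + Fintype.card (Sh × Fin (k * n))) *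
      (Fintype.card (Sg × Fin (δ * n)) + Fintype.card (Sh × Fin (k * n))).factorial *
      (∏ a : Sg × Fin (δ * n), Bd * (win n (r * n) : ℝ) ^ D.B *
        (Real.exp (δ * n : ℕ) * (Q₁ : ℝ) ^ (a.2 : ℕ))) *
      ∏ b : Sh × Fin (k * n), EB2 r (δ * n - D.E * (D.ww * win n (r * n))) (k * n) Q₂ 0
        (Kx * (Wb D.q n (r * n) (D.E * D.ww) * (win n (r * n) : ℝ) ^ (D.B + D.E) *
            (((δ * n : ℕ) : ℝ) + 1) ^ D.ec)) b.2 := by
  classical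
  have hn1 : 1 ≤ n := by omega
  have hq2 := D.hq
  set d := δ * n with hd
  set κ := k * n with hκ
  obtain ⟨g', hg'⟩ : ∃ g', g' = D.E * (D.ww * win n (r * n)) := ⟨_, rfl⟩
  have hwin : win n (r * n) ≤ (2 * r + 2) * n := by
    unfold win
    have h0 : (2 * r + 2) * n = 2 * (r * n) + n + n := by ring
    omega
  have hg'le : g' ≤ D.E * D.ww * (2 * r + 2) * n := by
    rw [hg', ← mul_assoc, mul_assoc (D.E * D.ww)]
    exact Nat.mul_le_mul_left _ hwin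
  have hκd : κ + g' < d := by
    have h1 : (k + D.E * D.ww * (2 * r + 2) + 1) * n ≤ δ * n := Nat.mul_le_mul_right n hδ
    have h2 : (k + D.E * D.ww * (2 * r + 2) + 1) * n =
        k * n + D.E * D.ww * (2 * r + 2) * n + n := by ring
    omega
  have hκ1 : 1 ≤ κ := Nat.mul_pos hk hn1
  have hdeg : D.Sp * ((D.B + 1) * (D.L * (d + D.B * (D.w * D.L * D.N)))) ≤
      D.I.card * (n - 1 - D.L) := by
    have h1 : (D.Sp * ((D.B + 1) * D.L) * δ + 1) * n ≤ D.I.card * n := Nat.mul_le_mul_right n hZE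
    have h2 : D.Sp * ((D.B + 1) * (D.L * (d + D.B * (D.w * D.L * D.N)))) =
        D.Sp * ((D.B + 1) * D.L) * δ * n + D.Sp * ((D.B + 1) * (D.L * (D.B * (D.w * D.L * D.N)))) := by
      rw [hd]
      ring
    have h3 : D.I.card * (n - 1 - D.L) + D.I.card * (D.L + 1) = D.I.card * n := by
      rw [← Nat.mul_add]
      congr 1
      omega
    have h4 : (D.Sp * ((D.B + 1) * D.L) * δ + 1) * n = D.Sp * ((D.B + 1) * D.L) * δ * n + n := by
      ring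
    omega
  have hQ1 : D.q * n ≤ Q₁ * d := by
    rw [hd, ← mul_assoc]
    exact Nat.mul_le_mul_right n hQ₁
  have hQ2 : D.q * n ≤ Q₂ * κ := by
    rw [hκ, ← mul_assoc]
    exact Nat.mul_le_mul_right n hQ₂
  have hQ11 : 1 ≤ Q₁ := by
    rcases Nat.eq_zero_or_pos Q₁ with h0 | h0
    · rw [h0] at hQ₁
      omega
    · exact h0
  have hQ11R : (1 : ℝ) ≤ Q₁ := by exact_mod_cast hQ11
  have hjn : ∀ j ∈ D.Nd n, j ≤ D.q * n := fun j hj => by
    unfold DatX.Nd P at hj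
    exact (mem_range.1 (mem_filter.1 hj).1).le.trans (Nat.mul_le_mul_left _ (Nat.sub_le _ _))
  obtain ⟨hWb1, -⟩ := C3_Wb (n := n) (T := r * n) (w := D.E * D.ww) hq2
  have hwin1 : (1 : ℝ) ≤ (win n (r * n) : ℝ) := by
    have : 1 ≤ win n (r * n) := by unfold win; omega
    exact_mod_cast this
  have hBw1 : 1 ≤ Bd * (win n (r * n) : ℝ) ^ D.B :=
    one_le_mul_of_one_le_of_one_le hB1 (one_le_pow₀ hwin1)
  have hd0 : (0 : ℝ) ≤ (d : ℝ) := Nat.cast_nonneg d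
  choose v' hv'1 hv'2 using fun b : Sh × Fin κ => hKx n r d b.2 hn1 hr (by
    have := b.2.2
    rw [← hg']
    omega) b.1.1
  have hint : ∀ s : D.Ix, ∀ i : ℕ, ∀ j ∈ D.Nd n, ∃ z : ℤ,
      (D₀ : ℝ) * (D.wt n (r * n) j : ℕ) * (D.row (r * n) s j * (j.choose i : ℝ)) = z := by
    intro s i j hjm
    obtain ⟨z, hz⟩ := row_intX D (T := r * n) hco s hjm
    refine ⟨z * (j.choose i : ℕ), ?_⟩
    push_cast
    rw [← hz]
    ring
  refine det_ineq (J := D.Nd n)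
    (fun (a : Sg × Fin d) (j : D.Nd n) => D.rowA (r * n) a.1.1 a.2 j)
    (fun (b : Sh × Fin κ) (j : D.Nd n) => D.rowB n (r * n) b.1.1 b.2 j) v'
    (fun j => D.wt n (r * n) (j : ℕ)) ?_ ?_ ?_ ?_ hD₀ ?_ ?_ ?_ ?_ ?_ ?_
  · intro c hc
    exact rows_indX D Sg Sh hdis hκ1 (by rw [← hg']; exact hκd.le) (by omega) hdeg c hc
  · exact hv'1
  · rintro a ⟨j, hjm⟩
    exact hint _ _ j hjm
  · rintro b ⟨j, hjm⟩
    obtain ⟨z₁, hz₁⟩ := hint b.1.1 b.2 j hjm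
    obtain ⟨z₂, hz₂⟩ := Om_intX D n (r * n) j
    refine ⟨z₁ * z₂ ^ D.E, ?_⟩
    show (D₀ : ℝ) * (D.wt n (r * n) j : ℕ) * D.rowB n (r * n) b.1.1 b.2 j = _
    unfold DatX.rowB
    push_cast
    rw [← hz₁, ← hz₂]
    ring
  · exact Nat.le_floor (by exact_mod_cast hWb1)
  · rintro ⟨j, hjm⟩
    exact wt_posX D hjm
  · rintro ⟨j, hjm⟩
    exact Nat.le_floor (wt_leX D hjm)
  · rintro a ⟨j, hjm⟩
    show |D.row (r * n) a.1.1 j * (j.choose a.2 : ℝ)| ≤ _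
    rw [abs_mul, Nat.abs_cast]
    refine mul_le_mul (row_leX D hBd hjm _)
      (ch_le ((hjn j hjm).trans hQ1)) (Nat.cast_nonneg _) (by linarith)
  · intro a
    exact one_le_mul_of_one_le_of_one_le hBw1 (one_le_mul_of_one_le_of_one_le
      (Real.one_le_exp (Nat.cast_nonneg _)) (one_le_pow₀ hQ11R))
  · rintro b ⟨j, hjm⟩
    refine (hv'2 b ⟨j, hjm⟩).trans ?_
    unfold EB2
    rw [pow_zero, one_mul, ← hg']
    refine mul_le_mul_of_nonneg_left (ch_le ((hjn j hjm).trans hQ2)) ?_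
    have h5 : (0 : ℝ) ≤ Kx := by linarith
    have h6 : (0 : ℝ) ≤ Wb D.q n (r * n) (D.E * D.ww) := by linarith
    positivity

private theorem X_prodA {ι : Type*} [Fintype ι] {d Q : ℕ} {Bw : ℝ} (h1 : 1 ≤ Q) (hB : 1 ≤ Bw) :
    0 < ∏ a : ι × Fin d, Bw * (Real.exp d * (Q : ℝ) ^ (a.2 : ℕ)) ∧
    Real.log (∏ a : ι × Fin d, Bw * (Real.exp d * (Q : ℝ) ^ (a.2 : ℕ))) ≤
      (Fintype.card ι : ℝ) * (d * Real.log Bw + (d : ℝ) ^ 2 + (d : ℝ) ^ 2 / 2 * Real.log Q) := by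
  have hQ : (1 : ℝ) ≤ Q := by exact_mod_cast h1
  have hl : 0 ≤ Real.log Q := Real.log_nonneg hQ
  have hpos : ∀ a : ι × Fin d, 0 < Bw * (Real.exp d * (Q : ℝ) ^ (a.2 : ℕ)) := by
    intro a
    have : 0 < Bw := by linarith
    have : (0 : ℝ) < Q := by linarith
    positivity
  refine ⟨prod_pos fun a _ => hpos a, ?_⟩
  rw [Real.log_prod (fun a _ => (hpos a).ne'), Fintype.sum_prod_type]
  have hin : ∀ i : ι, ∑ x : Fin d, Real.log (Bw * (Real.exp d * (Q : ℝ) ^ ((i, x).2 : ℕ))) ≤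
      d * Real.log Bw + (d : ℝ) ^ 2 + (d : ℝ) ^ 2 / 2 * Real.log Q := by
    intro i
    have e0 : ∀ x : Fin d, Real.log (Bw * (Real.exp d * (Q : ℝ) ^ ((i, x).2 : ℕ))) =
        Real.log Bw + d + ((x : ℕ) : ℝ) * Real.log Q := by
      intro x
      have h2 : (0 : ℝ) < Bw := by linarith
      have h3 : (0 : ℝ) < Q := by linarith
      rw [Real.log_mul h2.ne' (by positivity), Real.log_mul (Real.exp_ne_zero _) (by positivity),
        Real.log_exp, Real.log_pow]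
      ring
    rw [Finset.sum_congr rfl fun x _ => e0 x, Finset.sum_add_distrib, Finset.sum_const,
      Finset.card_univ, Fintype.card_fin, nsmul_eq_mul, ← Finset.sum_mul]
    have h4 : ∑ x : Fin d, ((x : ℕ) : ℝ) ≤ (d : ℝ) ^ 2 / 2 := by
      rw [Fin.sum_univ_eq_sum_range (fun i => ((i : ℕ) : ℝ)) d]
      have h5 := Finset.sum_range_id_mul_two d
      have h6 : (∑ i ∈ range d, (i : ℝ)) * 2 = (d : ℝ) * ((d : ℝ) - 1) := by
        rcases Nat.eq_zero_or_pos d with h0 | h0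
        · subst h0
          simp
        · have h7 : (((∑ i ∈ range d, i) * 2 : ℕ) : ℝ) = ((d * (d - 1) : ℕ) : ℝ) := by rw [h5]
          push_cast [Nat.cast_sub h0] at h7
          exact h7
      have h8 : (0 : ℝ) ≤ d := Nat.cast_nonneg d
      nlinarith
    have h9 := mul_le_mul_of_nonneg_right h4 hl
    have h10 : (d : ℝ) * (Real.log Bw + d) = d * Real.log Bw + (d : ℝ) ^ 2 := by ring
    linarith
  refine (Finset.sum_le_sum fun i _ => hin i).trans ?_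
  rw [Finset.sum_const, Finset.card_univ, nsmul_eq_mul]

theorem coreX (D : DatX) {F₁ F₂ δ k r Q₁ Q₂ : ℕ} (hF₂ : F₂ ≤ Module.finrank ℝ D.R)
    (hF : F₁ + F₂ = Fintype.card D.Ix)
    (hA : AdmX D.q F₁ F₂ (D.E * D.ww) (D.Sp * ((D.B + 1) * D.L)) D.I.card δ k r Q₁ Q₂) :
    False := by
  classical
  obtain ⟨hk, hr, hδ, hQ₁, hQ₂, hZE, hIN⟩ := hA
  have hq2 := D.hq
  have hQ11 : 1 ≤ Q₁ := by
    rcases Nat.eq_zero_or_pos Q₁ with h0 | h0
    · rw [h0] at hQ₁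
      omega
    · exact h0
  have hQ21 : 1 ≤ Q₂ := by
    rcases Nat.eq_zero_or_pos Q₂ with h0 | h0
    · rw [h0] at hQ₂
      omega
    · exact h0
  -- the complement
  obtain ⟨Sg, hSg, hgood⟩ := greedy (ι := D.Ix) (fun s => IxT.dg s) D.R
  obtain ⟨Sh, hSh⟩ : ∃ Sh : Finset D.Ix, Sh = univ \ Sg := ⟨_, rfl⟩
  have hdis : ∀ s ∈ Sh, s ∉ Sg := by
    intro s hs
    rw [hSh, mem_sdiff] at hs
    exact hs.2
  have hcardSh : Sg.card + Sh.card = Fintype.card D.Ix := by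
    rw [hSh, ← Finset.card_univ, add_comm]
    exact Finset.card_sdiff_add_card_eq_card (subset_univ Sg)
  obtain ⟨Kx, hK1, hKx⟩ := rows_smallX D Sg hgood
  -- the denominator and the bound
  obtain ⟨D₀, hD₀, hden⟩ := exists_den
    ((univ : Finset (Fin D.H)) ×ˢ range D.q) (fun t => D.φ t.1 t.2)
  have hco : ∀ h, ∀ x < D.q, ∃ m : ℤ, (D₀ : ℚ) * D.φ h x = m := fun h x hx =>
    hden (h, x) (mem_product.2 ⟨mem_univ _, mem_range.2 hx⟩)
  obtain ⟨Bd, hB1, hBd⟩ : ∃ Bd : ℝ, 1 ≤ Bd ∧ ∀ h, ∀ x < D.q, |(D.φ h x : ℝ)| ≤ Bd := by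
    refine ⟨1 + ∑ t ∈ (univ : Finset (Fin D.H)) ×ˢ range D.q, |(D.φ t.1 t.2 : ℝ)|, ?_, ?_⟩
    · have : 0 ≤ ∑ t ∈ (univ : Finset (Fin D.H)) ×ˢ range D.q, |(D.φ t.1 t.2 : ℝ)| :=
        sum_nonneg fun t _ => abs_nonneg _
      linarith
    · intro h x hx
      have h1 := single_le_sum (f := fun t : Fin D.H × ℕ => |(D.φ t.1 t.2 : ℝ)|)
        (fun t _ => abs_nonneg _) (mem_product.2 ⟨mem_univ h, mem_range.2 hx⟩ :
          (h, x) ∈ (univ : Finset (Fin D.H)) ×ˢ range D.q)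
      have h2 : |(D.φ h x : ℝ)| ≤ _ := h1
      linarith
  -- the constants
  have hq1 : (1 : ℝ) ≤ D.q := by exact_mod_cast (by omega : 1 ≤ D.q)
  have hlogq : 0 ≤ Real.log D.q := Real.log_nonneg hq1
  have hδ0 : (0 : ℝ) < δ := by exact_mod_cast (by omega : 0 < δ)
  obtain ⟨w, hw⟩ : ∃ w : ℕ, w = D.E * D.ww := ⟨_, rfl⟩
  obtain ⟨g, hg⟩ : ∃ g : ℕ, g = w * (2 * r + 2) := ⟨_, rfl⟩
  obtain ⟨G₁, hG₁⟩ : ∃ G₁ : ℕ, G₁ = Sg.card := ⟨_, rfl⟩
  obtain ⟨G₂, hG₂⟩ : ∃ G₂ : ℕ, G₂ = Sh.card := ⟨_, rfl⟩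
  obtain ⟨ρ, hρ⟩ : ∃ ρ : ℕ, ρ = G₁ * δ + G₂ * k := ⟨_, rfl⟩
  have hgR : (g : ℝ) = w * (2 * r + 2) := by rw [hg]; push_cast; ring
  have hρR : (ρ : ℝ) = G₁ * δ + G₂ * k := by rw [hρ]; push_cast; ring
  rw [← hw, ← hgR] at hIN
  have hlogQ1 : 0 ≤ Real.log Q₁ := Real.log_nonneg (by exact_mod_cast hQ11)
  -- the inequality for the true numbers
  obtain ⟨c₁, hc₁⟩ : ∃ c₁ : ℝ, c₁ = (δ : ℝ) ^ 2 * (Real.log Q₁ + 2) +
    26 * δ * g * Real.log D.q := ⟨_, rfl⟩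
  obtain ⟨c₂, hc₂⟩ : ∃ c₂ : ℝ, c₂ = (k : ℝ) ^ 2 * (Real.log Q₂ + 2) +
    52 * k * g * Real.log D.q -
      (2 * ((δ : ℝ) - g) * k - (k : ℝ) ^ 2) * Real.log (2 * r + 1) := ⟨_, rfl⟩
  have hc1 : 0 ≤ c₁ := by
    rw [hc₁]
    positivity
  have hINc : (F₁ : ℝ) * c₁ + F₂ * c₂ < 0 := by
    rw [hc₁, hc₂]
    linarith only [hIN]
  have hF₁0 : (0 : ℝ) ≤ F₁ := Nat.cast_nonneg _
  have hF₂0 : (0 : ℝ) ≤ F₂ := Nat.cast_nonneg _
  have hF₂pos : (0 : ℝ) < F₂ := by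
    rcases hF₂0.eq_or_lt with h0 | h0
    · rw [← h0, zero_mul, add_zero] at hINc
      have := mul_nonneg hF₁0 hc1
      linarith
    · exact h0
  have hc2 : c₂ < 0 := by
    by_contra hcon
    push Not at hcon
    have h1 := mul_nonneg hF₁0 hc1
    have h2 := mul_nonneg hF₂0 hcon
    linarith
  have hFG : (G₁ : ℝ) + G₂ = F₁ + F₂ := by
    have : G₁ + G₂ = F₁ + F₂ := by rw [hG₁, hG₂, hcardSh, hF]
    exact_mod_cast this
  have hF₂G : (F₂ : ℝ) ≤ G₂ := by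
    have : F₂ ≤ G₂ := by
      have h1 : Sg.card + Module.finrank ℝ D.R = Sg.card + Sh.card := hSg.trans hcardSh.symm
      rw [hG₂, ← Nat.add_left_cancel h1]
      exact hF₂
    exact_mod_cast this
  have hING : (G₁ : ℝ) * c₁ + G₂ * c₂ < 0 := by
    have h1 : (G₁ : ℝ) = F₁ - (G₂ - F₂) := by linarith
    have h2 : (0 : ℝ) ≤ G₂ - F₂ := by linarith
    have h3 : (G₂ - F₂ : ℝ) * (c₂ - c₁) ≤ 0 :=
      mul_nonpos_of_nonneg_of_nonpos h2 (by linarith)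
    rw [h1]
    nlinarith
  have hG₂1 : 1 ≤ G₂ := by
    have : (0 : ℝ) < G₂ := by linarith
    exact_mod_cast this
  have hρ1 : 1 ≤ ρ := by
    rw [hρ]
    have : 1 ≤ G₂ * k := Nat.mul_pos hG₂1 hk
    omega
  obtain ⟨E, hE⟩ : ∃ E : ℝ, E = -(G₁ * c₁ + G₂ * c₂) / 2 := ⟨_, rfl⟩
  have hE0 : 0 < E := by
    rw [hE]
    linarith
  refine lim_contra (E := E)
      (a := ρ * Real.log D₀ + G₁ * δ * Real.log Bd + G₂ * k * Real.log Kx) (R₁ := ρ)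
      (c := G₁ * δ * D.B + G₂ * k * (D.B + D.E + D.ec)) (δ := δ + 2 * r + 2) hE0
    (by exact_mod_cast hρ1) (by positivity)
    (D.Sp * ((D.B + 1) * (D.L * (D.B * (D.w * D.L * D.N)))) + D.I.card * (D.L + 1) + D.L + 2) ?_
  intro n hn
  have hn1 : 1 ≤ n := by omega
  have h := coreX_n D Sg Sh hdis hk hr hδ hQ₁ hQ₂ hZE hD₀ hco hB1 hBd hK1 hKx hn
  have hcard : Fintype.card (Sg × Fin (δ * n)) + Fintype.card (Sh × Fin (k * n)) = ρ * n := by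
    simp only [Fintype.card_prod, Fintype.card_fin, Fintype.card_coe]
    rw [hρ, hG₁, hG₂]
    ring
  rw [hcard] at h
  have hwin1 : (1 : ℝ) ≤ (win n (r * n) : ℝ) := by
    have : 1 ≤ win n (r * n) := by unfold win; omega
    exact_mod_cast this
  obtain ⟨X, hX⟩ : ∃ X : ℝ, X = (win n (r * n) : ℝ) := ⟨_, rfl⟩
  obtain ⟨g', hg'⟩ : ∃ g', g' = D.E * (D.ww * win n (r * n)) := ⟨_, rfl⟩
  have hwin : win n (r * n) ≤ (2 * r + 2) * n := by
    unfold win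
    have h0 : (2 * r + 2) * n = 2 * (r * n) + n + n := by ring
    omega
  have hg'le : g' ≤ g * n := by
    rw [hg', ← mul_assoc, hg, hw, mul_assoc (D.E * D.ww)]
    exact Nat.mul_le_mul_left _ hwin
  have hκd : k * n + g' < δ * n := by
    have h1 : (k + D.E * D.ww * (2 * r + 2) + 1) * n ≤ δ * n := Nat.mul_le_mul_right n hδ
    have h2 : (k + D.E * D.ww * (2 * r + 2) + 1) * n =
        k * n + D.E * D.ww * (2 * r + 2) * n + n := by ring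
    rw [hg, hw] at hg'le
    omega
  rw [← hX, ← hg'] at h
  rw [← hX] at hwin1
  have hXB : (1 : ℝ) ≤ X ^ D.B := one_le_pow₀ hwin1
  have hBw1 : 1 ≤ Bd * X ^ D.B := one_le_mul_of_one_le_of_one_le hB1 hXB
  obtain ⟨hWb1, hWblog⟩ := C3_Wb (n := n) (T := r * n) (w := D.E * D.ww) hq2
  obtain ⟨Y, hY⟩ : ∃ Y : ℝ, Y = Wb D.q n (r * n) (D.E * D.ww) := ⟨_, rfl⟩
  rw [← hY] at h hWb1 hWblog
  have hd1 : (1 : ℝ) ≤ ((δ * n : ℕ) : ℝ) + 1 := by
    have : (0 : ℝ) ≤ ((δ * n : ℕ) : ℝ) := Nat.cast_nonneg _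
    linarith
  obtain ⟨Mw, hMw⟩ : ∃ Mw : ℝ, Mw = Kx * (Y * X ^ (D.B + D.E) *
    (((δ * n : ℕ) : ℝ) + 1) ^ D.ec) := ⟨_, rfl⟩
  have hMw1 : 1 ≤ Mw := by
    rw [hMw]
    exact one_le_mul_of_one_le_of_one_le hK1 (one_le_mul_of_one_le_of_one_le
      (one_le_mul_of_one_le_of_one_le hWb1 (one_le_pow₀ hwin1)) (one_le_pow₀ hd1))
  rw [← hMw] at h
  obtain ⟨hUpos, hUlog⟩ := X_prodA (ι := Sg) (d := δ * n) (Q := Q₁) (Bw := Bd * X ^ D.B) hQ11 hBw1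
  have hEpos1 : ∀ p : Fin (k * n), 0 < EB2 r (δ * n - g') (k * n) Q₂ 0 Mw p :=
    fun p => EB2_pos hQ21 hMw1 p
  have hEeq : ∏ b : Sh × Fin (k * n), EB2 r (δ * n - g') (k * n) Q₂ 0 Mw b.2 =
      (∏ p : Fin (k * n), EB2 r (δ * n - g') (k * n) Q₂ 0 Mw p) ^ Sh.card := by
    rw [Fintype.prod_prod_type]
    simp only
    rw [Finset.prod_const, Finset.card_univ, Fintype.card_coe]
  have hEpos2 : 0 < ∏ p : Fin (k * n), EB2 r (δ * n - g') (k * n) Q₂ 0 Mw p :=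
    prod_pos fun p _ => hEpos1 p
  have hElog := EB2_prod (r := r) (d := δ * n - g') (K := k * n) (Q₂ := Q₂) (ec := 0)
    (Mw := Mw) hQ21 hMw1 (by omega)
  obtain ⟨Up, hUp⟩ : ∃ Up, Up = ∏ a : Sg × Fin (δ * n), Bd * X ^ D.B *
    (Real.exp (δ * n : ℕ) * (Q₁ : ℝ) ^ (a.2 : ℕ)) := ⟨_, rfl⟩
  obtain ⟨Ep, hEp⟩ : ∃ Ep, Ep = ∏ p : Fin (k * n),
      EB2 r (δ * n - g') (k * n) Q₂ 0 Mw p := ⟨_, rfl⟩
  rw [hEeq] at h
  rw [← hUp] at h hUpos hUlog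
  rw [← hEp] at h hEpos2 hElog
  obtain ⟨R, hR⟩ : ∃ R, R = ρ * n := ⟨_, rfl⟩
  rw [← hR] at h
  have hR1 : 1 ≤ R := by
    rw [hR]
    exact Nat.mul_pos hρ1 hn1
  have hD0 : (0 : ℝ) < D₀ := by exact_mod_cast hD₀
  obtain ⟨W, hW⟩ : ∃ W : ℕ, W = ⌊Y⌋₊ := ⟨_, rfl⟩
  rw [← hW] at h
  have hW1 : 1 ≤ W := by
    rw [hW]
    exact Nat.le_floor (by exact_mod_cast hWb1)
  have hW0 : (0 : ℝ) < W := by exact_mod_cast hW1
  have hWle : (W : ℝ) ≤ Y := by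
    rw [hW]
    exact Nat.floor_le (by linarith)
  have hlog := Real.log_nonneg h
  rw [Real.log_mul (by positivity) (pow_pos hEpos2 _).ne', Real.log_mul (by positivity) hUpos.ne',
    Real.log_mul (by positivity) (by positivity), Real.log_pow, Real.log_pow,
    Real.log_mul hD0.ne' hW0.ne', ← hG₂] at hlog
  have hfac : Real.log ((R.factorial : ℕ) : ℝ) ≤ R * Real.log R := by
    rw [← Real.log_pow]
    refine Real.log_le_log (by exact_mod_cast R.factorial_pos) ?_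
    exact_mod_cast R.factorial_le_pow
  have hRn : (R : ℝ) = ρ * n := by
    rw [hR]
    push_cast
    ring
  have hn0 : (0 : ℝ) ≤ n := Nat.cast_nonneg n
  have hn1R : (1 : ℝ) ≤ n := by exact_mod_cast hn1
  have hr0 : (0 : ℝ) ≤ r := Nat.cast_nonneg r
  have hk0 : (0 : ℝ) ≤ k := Nat.cast_nonneg k
  have hG₁0 : (0 : ℝ) ≤ G₁ := Nat.cast_nonneg _
  have hG₂0 : (0 : ℝ) ≤ G₂ := Nat.cast_nonneg _
  have hg0 : (0 : ℝ) ≤ g := Nat.cast_nonneg g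
  -- the window
  have hXle : X ≤ (2 * r + 2) * n := by
    rw [hX]
    have : ((win n (r * n) : ℕ) : ℝ) ≤ (((2 * r + 2) * n : ℕ) : ℝ) := by exact_mod_cast hwin
    push_cast at this
    exact this
  have hwX : (w : ℝ) * X ≤ g * n := by
    rw [hgR, mul_assoc]
    exact mul_le_mul_of_nonneg_left hXle (Nat.cast_nonneg w)
  have hlogY : Real.log Y ≤ 13 * (g * n) * Real.log D.q := by
    refine hWblog.trans ?_
    rw [← hX, ← hw]
    have h1 := mul_le_mul_of_nonneg_right hwX hlogq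
    have e1 : 13 * ((w : ℝ) * X) * Real.log D.q = 13 * ((w : ℝ) * X * Real.log D.q) := by ring
    have e2 : 13 * ((g : ℝ) * n) * Real.log D.q = 13 * ((g : ℝ) * n * Real.log D.q) := by ring
    rw [e1, e2]
    linarith only [h1]
  have hlogW : Real.log W ≤ 13 * (g * n) * Real.log D.q := (Real.log_le_log hW0 hWle).trans hlogY
  obtain ⟨Λ, hΛ⟩ : ∃ Λ : ℝ, Λ = Real.log (200 * (((δ : ℝ) + 2 * r + 2) * n + 2) ^ 2) := ⟨_, rfl⟩
  have hbig : ∀ Z : ℝ, 1 ≤ Z → Z ≤ ((δ : ℝ) + 2 * r + 2) * n + 2 → Real.log Z ≤ Λ := by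
    intro Z hZ1 hZ
    rw [hΛ]
    refine Real.log_le_log (by linarith) (hZ.trans ?_)
    have h2 : (1 : ℝ) ≤ ((δ : ℝ) + 2 * r + 2) * n + 2 := hZ1.trans hZ
    have h3 : (((δ : ℝ) + 2 * r + 2) * n + 2) * 1 ≤ (((δ : ℝ) + 2 * r + 2) * n + 2) *
        (((δ : ℝ) + 2 * r + 2) * n + 2) := mul_le_mul_of_nonneg_left h2 (zero_le_one.trans h2)
    rw [sq]
    linarith only [h2, h3]
  have hlogX : Real.log X ≤ Λ := by
    refine hbig X hwin1 (hXle.trans ?_)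
    have h1 : 0 ≤ (δ : ℝ) * n := by positivity
    have e1 : ((δ : ℝ) + 2 * r + 2) * n + 2 = δ * n + (2 * r + 2) * n + 2 := by ring
    rw [e1]
    linarith only [h1]
  have hlogd : Real.log (((δ * n : ℕ) : ℝ) + 1) ≤ Λ := by
    refine hbig _ hd1 ?_
    push_cast
    have h1 : 0 ≤ (2 * (r : ℝ) + 2) * n := by positivity
    have e1 : ((δ : ℝ) + 2 * r + 2) * n + 2 = δ * n + (2 * r + 2) * n + 2 := by ring
    rw [e1]
    linarith only [h1]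
  have e1 : Real.log (Bd * X ^ D.B) = Real.log Bd + D.B * Real.log X := by
    rw [Real.log_mul (by linarith) (by positivity), Real.log_pow]
  have e2 : Real.log Mw = Real.log Kx + Real.log Y + (D.B + D.E : ℕ) * Real.log X +
      D.ec * Real.log (((δ * n : ℕ) : ℝ) + 1) := by
    rw [hMw, Real.log_mul (by linarith) (by positivity), Real.log_mul (by positivity) (by positivity),
      Real.log_mul (by linarith) (by positivity), Real.log_pow, Real.log_pow]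
    ring
  rw [e1, Fintype.card_coe, ← hG₁] at hUlog
  rw [e2] at hElog
  have hsub : ((δ * n - g' : ℕ) : ℝ) = δ * n - g' := by
    rw [Nat.cast_sub (by omega)]
    push_cast
    ring
  rw [hsub] at hElog
  push_cast at hUlog hElog hlogd
  rw [hRn] at hlog hfac
  -- termwise bounds
  have hlr : 0 ≤ Real.log (2 * (r : ℝ) + 1) := Real.log_nonneg (by linarith)
  have t0 : (g' : ℝ) ≤ g * n := by exact_mod_cast hg'le
  have t1 : (ρ : ℝ) * n * Real.log W ≤ 13 * ρ * g * Real.log D.q * (n : ℝ) ^ 2 := by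
    have := mul_le_mul_of_nonneg_left hlogW (by positivity : 0 ≤ (ρ : ℝ) * n)
    calc (ρ : ℝ) * n * Real.log W ≤ (ρ : ℝ) * n * (13 * (g * n) * Real.log D.q) := this
      _ = _ := by ring
  have t2 : (G₁ : ℝ) * (δ * n) * (D.B * Real.log X) ≤ G₁ * δ * D.B * n * Λ := by
    have h1 : (0 : ℝ) ≤ G₁ * (δ * n) * D.B := by positivity
    have h2 := mul_le_mul_of_nonneg_left hlogX h1
    calc (G₁ : ℝ) * (δ * n) * (D.B * Real.log X) = G₁ * (δ * n) * D.B * Real.log X := by ring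
      _ ≤ G₁ * (δ * n) * D.B * Λ := h2
      _ = _ := by ring
  have hElog2 : Real.log Ep ≤ k * n * Real.log Kx +
      13 * k * g * Real.log D.q * (n : ℝ) ^ 2 + k * n * (D.B + D.E + D.ec) * Λ +
      (k : ℝ) ^ 2 * (n : ℝ) ^ 2 + (k : ℝ) ^ 2 * (n : ℝ) ^ 2 / 2 * Real.log Q₂ -
      (((δ : ℝ) - g) * k - (k : ℝ) ^ 2 / 2) * (n : ℝ) ^ 2 * Real.log (2 * r + 1) := by
    have s1 : (k : ℝ) * n * Real.log Y ≤ 13 * k * g * Real.log D.q * (n : ℝ) ^ 2 := by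
      have := mul_le_mul_of_nonneg_left hlogY (by positivity : 0 ≤ (k : ℝ) * n)
      calc (k : ℝ) * n * Real.log Y ≤ (k : ℝ) * n * (13 * (g * n) * Real.log D.q) := this
        _ = _ := by ring
    have s2 : (k : ℝ) * n * (((D.B : ℝ) + D.E) * Real.log X) ≤ k * n * (D.B + D.E) * Λ := by
      have h1 : (0 : ℝ) ≤ k * n * (D.B + D.E) := by positivity
      have h2 := mul_le_mul_of_nonneg_left hlogX h1
      calc (k : ℝ) * n * (((D.B : ℝ) + D.E) * Real.log X) = k * n * (D.B + D.E) * Real.log X := by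
            ring
        _ ≤ _ := h2
    have s3 : (k : ℝ) * n * (D.ec * Real.log ((δ : ℝ) * n + 1)) ≤ k * n * D.ec * Λ := by
      have h1 : (0 : ℝ) ≤ k * n * D.ec := by positivity
      have h2 := mul_le_mul_of_nonneg_left hlogd h1
      calc (k : ℝ) * n * (D.ec * Real.log ((δ : ℝ) * n + 1)) =
          k * n * D.ec * Real.log ((δ : ℝ) * n + 1) := by ring
        _ ≤ _ := h2
    have s4 : (((δ : ℝ) - g) * k - (k : ℝ) ^ 2 / 2) * (n : ℝ) ^ 2 * Real.log (2 * r + 1) ≤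
        (((δ : ℝ) * n - g') * (k * n) - ((k : ℝ) * n) ^ 2 / 2) * Real.log (2 * r + 1) := by
      refine mul_le_mul_of_nonneg_right ?_ hlr
      have h1 : (g' : ℝ) * (k * n) ≤ g * n * (k * n) :=
        mul_le_mul_of_nonneg_right t0 (by positivity)
      have e3 : (((δ : ℝ) - g) * k - (k : ℝ) ^ 2 / 2) * (n : ℝ) ^ 2 =
          δ * n * (k * n) - g * n * (k * n) - ((k : ℝ) * n) ^ 2 / 2 := by ring
      rw [e3]
      linarith only [h1]
    have e4 : ((k : ℝ) * n) ^ 2 = (k : ℝ) ^ 2 * (n : ℝ) ^ 2 := by ring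
    rw [e4] at hElog s4
    linarith only [hElog, s1, s2, s3, s4]
  have hG₂E := mul_le_mul_of_nonneg_left hElog2 hG₂0
  rw [hE, ← hΛ, hc₁, hc₂]
  rw [hρR] at t1 hlog hfac ⊢
  have e5 : ((δ : ℝ) * n) ^ 2 = (δ : ℝ) ^ 2 * (n : ℝ) ^ 2 := by ring
  rw [e5] at hUlog
  have key : 0 ≤ ((G₁ : ℝ) * δ + G₂ * k) * n * (Real.log D₀ + Real.log W) +
      (((G₁ : ℝ) * δ + G₂ * k) * n) * Real.log (((G₁ : ℝ) * δ + G₂ * k) * n) +
      Real.log Up + G₂ * Real.log Ep := by linarith only [hlog, hfac]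
  linarith only [key, hUlog, hG₂E, t1, t2]

end CM68
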