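import Mathlib

namespace CM68

/-- the bound for the number of exceptional residues -/
noncomputable def EP (w K : ℕ) (L : ℝ) : ℝ := w * (416 * K * L ^ 2) ^ (6 * K + 2)

theorem growthX_aux (w c : ℕ) {η : ℝ} (h0 : 0 < η) (h1 : η < 1 / 2) :
    ∃ L₀ : ℝ, 1 ≤ L₀ ∧ ∀ L : ℝ, L₀ ≤ L → ∀ K : ℕ, (K : ℝ) ≤ c * L ^ (1 - 2 * η) →
      EP w K L ≤ Real.exp (L ^ (1 - η)) := by
  obtain ⟨C, hC⟩ : ∃ C : ℝ, C = (24 * c + 8) * (2 / η) + Real.log (w + 1) := ⟨_, rfl⟩
  have hlw : 0 ≤ Real.log ((w : ℝ) + 1) := Real.log_nonneg (by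
    have : (0 : ℝ) ≤ w := Nat.cast_nonneg w
    linarith)
  have hC0 : 0 < C := by
    rw [hC]
    have : (0 : ℝ) < (24 * c + 8) * (2 / η) := by positivity
    linarith
  refine ⟨max 1 (max (416 * (c + 1)) (C ^ (2 / η))), le_max_left _ _, ?_⟩
  intro L hL K hK
  unfold EP
  have hL1 : 1 ≤ L := (le_max_left _ _).trans hL
  have hL2 : 416 * ((c : ℝ) + 1) ≤ L := ((le_max_left _ _).trans (le_max_right _ _)).trans hL
  have hL3 : C ^ (2 / η) ≤ L := ((le_max_right _ _).trans (le_max_right _ _)).trans hL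
  have hL0 : 0 < L := by linarith
  have hc0 : (0 : ℝ) ≤ c := Nat.cast_nonneg c
  have hw0 : (0 : ℝ) ≤ w := Nat.cast_nonneg w
  have hK0 : (0 : ℝ) ≤ K := Nat.cast_nonneg K
  have hKL : (K : ℝ) ≤ c * L := by
    refine hK.trans (mul_le_mul_of_nonneg_left ?_ hc0)
    calc L ^ (1 - 2 * η) ≤ L ^ (1 : ℝ) := Real.rpow_le_rpow_of_exponent_le hL1 (by linarith)
      _ = L := Real.rpow_one L
  rcases Nat.eq_zero_or_pos K with hK00 | hK1
  · rw [hK00]
    simp
    positivity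
  have hK1R : (1 : ℝ) ≤ K := by exact_mod_cast hK1
  -- the base
  have hbase : (416 * K * L ^ 2 : ℝ) ≤ L ^ 4 := by
    have h5 : (416 * c : ℝ) ≤ L := by linarith
    have h6 : (0 : ℝ) ≤ L ^ 3 := by positivity
    have h7 : (0 : ℝ) ≤ L ^ 2 := by positivity
    calc (416 : ℝ) * K * L ^ 2 ≤ 416 * (c * L) * L ^ 2 :=
          mul_le_mul_of_nonneg_right (by linarith) h7
      _ = (416 * c) * L ^ 3 := by ring
      _ ≤ L * L ^ 3 := mul_le_mul_of_nonneg_right h5 h6
      _ = L ^ 4 := by ring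
  have hb1 : (1 : ℝ) ≤ 416 * K * L ^ 2 := by
    have : (1 : ℝ) ≤ L ^ 2 := one_le_pow₀ hL1
    nlinarith
  have hlogL : Real.log L ≤ L ^ (η / 2) / (η / 2) := Real.log_le_rpow_div hL0.le (by positivity)
  have hlogL0 : 0 ≤ Real.log L := Real.log_nonneg hL1
  have hmain : Real.log ((w : ℝ) + 1) + (6 * K + 2) * (4 * Real.log L) ≤ L ^ (1 - η) := by
    have e1 : (6 * (K : ℝ) + 2) ≤ (6 * c + 2) * L ^ (1 - 2 * η) := by
      have : (1 : ℝ) ≤ L ^ (1 - 2 * η) := Real.one_le_rpow hL1 (by linarith)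
      nlinarith
    have hp : (0 : ℝ) ≤ L ^ (1 - 2 * η) := Real.rpow_nonneg hL0.le _
    have e2 : (6 * (K : ℝ) + 2) * (4 * Real.log L) ≤
        ((6 * c + 2) * L ^ (1 - 2 * η)) * (4 * (L ^ (η / 2) / (η / 2))) :=
      mul_le_mul e1 (by linarith) (by linarith) (by positivity)
    have e3 : ((6 * (c : ℝ) + 2) * L ^ (1 - 2 * η)) * (4 * (L ^ (η / 2) / (η / 2))) =
        (24 * c + 8) * (2 / η) * L ^ (1 - 3 / 2 * η) := by
      have : L ^ (1 - 3 / 2 * η) = L ^ (1 - 2 * η) * L ^ (η / 2) := by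
        rw [← Real.rpow_add hL0]
        congr 1
        ring
      rw [this]
      field_simp
      ring
    have e4 : Real.log ((w : ℝ) + 1) ≤ Real.log ((w : ℝ) + 1) * L ^ (1 - 3 / 2 * η) := by
      have : (1 : ℝ) ≤ L ^ (1 - 3 / 2 * η) := Real.one_le_rpow hL1 (by linarith)
      nlinarith
    have e5 : C * L ^ (1 - 3 / 2 * η) ≤ L ^ (1 - η) := by
      have h5 : C ≤ L ^ (η / 2) := by
        have h6 : (C ^ (2 / η)) ^ (η / 2) ≤ L ^ (η / 2) :=
          Real.rpow_le_rpow (Real.rpow_nonneg hC0.le _) hL3 (by positivity)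
        rw [← Real.rpow_mul hC0.le] at h6
        have h7 : 2 / η * (η / 2) = 1 := by field_simp
        rw [h7, Real.rpow_one] at h6
        exact h6
      have h8 : L ^ (1 - η) = L ^ (η / 2) * L ^ (1 - 3 / 2 * η) := by
        rw [← Real.rpow_add hL0]
        congr 1
        ring
      rw [h8]
      exact mul_le_mul_of_nonneg_right h5 (Real.rpow_nonneg hL0.le _)
    calc Real.log ((w : ℝ) + 1) + (6 * K + 2) * (4 * Real.log L)
        ≤ Real.log ((w : ℝ) + 1) * L ^ (1 - 3 / 2 * η) +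
          (24 * c + 8) * (2 / η) * L ^ (1 - 3 / 2 * η) := by
          rw [e3] at e2
          linarith
      _ = C * L ^ (1 - 3 / 2 * η) := by rw [hC]; ring
      _ ≤ _ := e5
  have hpos : (0 : ℝ) < ((w : ℝ) + 1) * (416 * K * L ^ 2) ^ (6 * K + 2) := by positivity
  calc (w : ℝ) * (416 * K * L ^ 2) ^ (6 * K + 2)
      ≤ ((w : ℝ) + 1) * (416 * K * L ^ 2) ^ (6 * K + 2) :=
        mul_le_mul_of_nonneg_right (by linarith) (by positivity)
    _ = Real.exp (Real.log (((w : ℝ) + 1) * (416 * K * L ^ 2) ^ (6 * K + 2))) :=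
        (Real.exp_log hpos).symm
    _ ≤ Real.exp (L ^ (1 - η)) := by
        rw [Real.exp_le_exp, Real.log_mul (by positivity) (by positivity), Real.log_pow]
        refine le_trans ?_ hmain
        have h9 : Real.log (416 * K * L ^ 2) ≤ 4 * Real.log L := by
          have := Real.log_le_log (by linarith) hbase
          rwa [Real.log_pow] at this
        have h10 : (0 : ℝ) ≤ ((6 * K + 2 : ℕ) : ℝ) := Nat.cast_nonneg _
        have h11 := mul_le_mul_of_nonneg_left h9 h10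
        push_cast at h11 ⊢
        linarith

end CM68
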