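import Mathlib

/-!
# From residues to rational numbers of bounded height, and to points near a given point (helper68; after LibMH/HTW.lean by helper60)
-/

namespace CM68

open Finset

open scoped Classical in
private theorem HTX_card (Bad : ℝ → Prop) (q : ℕ) :
    {x : ℕ | 0 < x ∧ x < q ∧ Bad ((x : ℝ) / q)}.ncard =
      ((range q).filter fun x : ℕ => 0 < x ∧ Bad ((x : ℝ) / q)).card := by
  rw [← Set.ncard_coe_finset]
  congr 1
  ext x
  simp only [Set.mem_setOf_eq, coe_filter, mem_range]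
  tauto

open scoped Classical in
theorem height_bound (Bad : ℝ → Prop) {C : ℝ} (hC : 0 ≤ C) (H : ℕ) (hH : 1 ≤ H)
    (h : ∀ q : ℕ, 2 ≤ q → q ≤ H → ({x : ℕ | 0 < x ∧ x < q ∧ Bad ((x : ℝ) / q)}.ncard : ℝ) ≤ C) :
    ({y : ℚ | 0 < y ∧ y < 1 ∧ y.den ≤ H ∧ Bad (y : ℝ)}.ncard : ℝ) ≤ H * C := by
  set F : ℕ → Finset ℕ := fun q => (range q).filter fun x : ℕ => 0 < x ∧ Bad ((x : ℝ) / q) with hF
  set T : Finset ℚ := (Icc 2 H).biUnion fun q => (F q).image fun x : ℕ => (x : ℚ) / q with hT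
  have hHR : (1 : ℝ) ≤ H := by exact_mod_cast hH
  have hsub : {y : ℚ | 0 < y ∧ y < 1 ∧ y.den ≤ H ∧ Bad (y : ℝ)} ⊆ (T : Set ℚ) := by
    rintro y ⟨h0, h1, h2, h3⟩
    have hnum : 0 < y.num := Rat.num_pos.2 h0
    have hden : 0 < y.den := y.pos
    have hlt : y.num < y.den := by
      have := Rat.num_lt_denom_iff.2 h1
      exact this
    have hd2 : 2 ≤ y.den := by omega
    have hcast : ((y.num.toNat : ℕ) : ℤ) = y.num := Int.toNat_of_nonneg hnum.le
    have hy : ((y.num.toNat : ℕ) : ℚ) / (y.den : ℚ) = y := by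
      have : ((y.num.toNat : ℕ) : ℚ) = (y.num : ℚ) := by exact_mod_cast hcast
      rw [this]
      exact Rat.num_div_den y
    rw [hT]
    simp only [coe_biUnion, Set.mem_iUnion, coe_image, Set.mem_image, mem_coe]
    refine ⟨y.den, mem_Icc.2 ⟨hd2, h2⟩, y.num.toNat, ?_, hy⟩
    rw [hF]
    simp only [mem_filter, mem_range]
    refine ⟨by omega, by omega, ?_⟩
    have : ((y.num.toNat : ℕ) : ℝ) / (y.den : ℝ) = (y : ℝ) := by
      conv_rhs => rw [← hy]
      push_cast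
      rfl
    rw [this]
    exact h3
  have hle : ({y : ℚ | 0 < y ∧ y < 1 ∧ y.den ≤ H ∧ Bad (y : ℝ)}.ncard : ℝ) ≤ (T.card : ℝ) := by
    have := Set.ncard_le_ncard hsub (Finset.finite_toSet T)
    rw [Set.ncard_coe_finset] at this
    exact_mod_cast this
  have hT2 : (T.card : ℝ) ≤ ∑ q ∈ Icc 2 H, ((F q).card : ℝ) := by
    have h1 : T.card ≤ ∑ q ∈ Icc 2 H, (F q).card := by
      rw [hT]
      exact card_biUnion_le.trans (sum_le_sum fun q _ => card_image_le)
    exact_mod_cast h1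
  have hT3 : ∑ q ∈ Icc 2 H, ((F q).card : ℝ) ≤ ∑ q ∈ Icc 2 H, C := by
    refine sum_le_sum fun q hq => ?_
    rw [mem_Icc] at hq
    have h1 := h q hq.1 hq.2
    rw [HTX_card] at h1
    exact h1
  refine (hle.trans (hT2.trans hT3)).trans ?_
  rw [sum_const, nsmul_eq_mul, Nat.card_Icc]
  have h1 : ((H + 1 - 2 : ℕ) : ℝ) ≤ H := by exact_mod_cast (by omega : H + 1 - 2 ≤ H)
  exact mul_le_mul_of_nonneg_right h1 hC

open scoped Classical in
theorem near_of_count (Bad : ℝ → Prop) {B : ℝ} (hB : 0 ≤ B) {q : ℕ} (hq : 2 ≤ q)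
    (h : ({x : ℕ | 0 < x ∧ x < q ∧ Bad ((x : ℝ) / q)}.ncard : ℝ) ≤ B) (hBq : B + 3 ≤ q)
    {t : ℝ} (ht0 : 0 ≤ t) (ht1 : t ≤ 1) :
    ∃ x : ℕ, 0 < x ∧ x < q ∧ |(x : ℝ) / q - t| ≤ (B + 3) / q ∧ ¬ Bad ((x : ℝ) / q) := by
  have hqR : (0 : ℝ) < q := by exact_mod_cast (by omega : 0 < q)
  set N : ℕ := ⌊B⌋₊ + 1 with hN
  have hN1 : B < N := by
    rw [hN]
    push_cast
    exact Nat.lt_floor_add_one B
  have hN2 : (N : ℝ) ≤ B + 1 := by
    rw [hN]
    push_cast
    linarith [Nat.floor_le hB]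
  have hNq : N + 2 ≤ q := by
    have : ((N + 2 : ℕ) : ℝ) ≤ q := by
      push_cast
      linarith
    exact_mod_cast this
  have hN0 : 1 ≤ N := by omega
  -- the start
  obtain ⟨a, ha1, ha2, ha3⟩ : ∃ a : ℕ, 1 ≤ a ∧ a + N ≤ q ∧ ∀ x : ℕ, a ≤ x → x < a + N →
      |(x : ℝ) - t * q| ≤ B + 3 := by
    have hu0 : 0 ≤ t * q := by positivity
    have huq : t * q ≤ q := by nlinarith
    set c : ℕ := max 1 ⌈t * q⌉₊ with hc
    have hc1 : (c : ℝ) ≤ t * q + 1 := by
      rw [hc, Nat.cast_max]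
      refine max_le ?_ ?_
      · push_cast
        linarith
      · exact (Nat.ceil_lt_add_one hu0).le
    have hc2 : t * q ≤ c := by
      rw [hc, Nat.cast_max]
      exact (Nat.le_ceil _).trans (le_max_right _ _)
    by_cases hcase : c + N ≤ q
    · refine ⟨c, le_max_left _ _, hcase, fun x hx1 hx2 => ?_⟩
      have h1 : (c : ℝ) ≤ x := by exact_mod_cast hx1
      have h2 : (x : ℝ) + 1 ≤ c + N := by exact_mod_cast (by omega : x + 1 ≤ c + N)
      rw [abs_le]
      constructor <;> linarith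
    · refine ⟨q - N, by omega, by omega, fun x hx1 hx2 => ?_⟩
      have h1 : (q : ℝ) ≤ x + N := by exact_mod_cast (by omega : q ≤ x + N)
      have h2 : (x : ℝ) + 1 ≤ q := by exact_mod_cast (by omega : x + 1 ≤ q)
      have h3 : (q : ℝ) + 1 ≤ c + N := by exact_mod_cast (by omega : q + 1 ≤ c + N)
      rw [abs_le]
      constructor <;> linarith
  by_contra hcon
  push Not at hcon
  have hall : ∀ x : ℕ, a ≤ x → x < a + N → Bad ((x : ℝ) / q) := by
    intro x hx1 hx2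
    have h1 := ha3 x hx1 hx2
    have h2 : |(x : ℝ) / q - t| ≤ (B + 3) / q := by
      have e : (x : ℝ) / q - t = ((x : ℝ) - t * q) / q := by
        field_simp
      rw [e, abs_div, abs_of_pos hqR]
      exact div_le_div_of_nonneg_right h1 hqR.le
    exact hcon x (by omega) (by omega) h2
  rw [HTX_card] at h
  have hsub : Ico a (a + N) ⊆ (range q).filter fun x : ℕ => 0 < x ∧ Bad ((x : ℝ) / q) := by
    intro x hx
    rw [mem_Ico] at hx
    rw [mem_filter, mem_range]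
    exact ⟨by omega, by omega, hall x hx.1 hx.2⟩
  have hcard := card_le_card hsub
  rw [Nat.card_Ico] at hcard
  have h1 : (N : ℝ) ≤ (((range q).filter fun x : ℕ => 0 < x ∧ Bad ((x : ℝ) / q)).card : ℝ) := by
    exact_mod_cast (by omega : N ≤ ((range q).filter fun x : ℕ => 0 < x ∧ Bad ((x : ℝ) / q)).card)
  linarith

end CM68
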