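import Pool.Agent.LibPX.PIX
import Pool.Agent.LibPX.GRX0
import Pool.Agent.LibPX.HTX

/-!
# PX: the final forms (helper68)
-/

namespace CM68

open Finset Polynomial

theorem EP_nonneg {w K : ℕ} {L : ℝ} (hL : 0 ≤ L) : 0 ≤ EP w K L := by
  unfold EP
  positivity

theorem EP_mono {w K : ℕ} {L L' : ℝ} (hL : 0 ≤ L) (h : L ≤ L') : EP w K L ≤ EP w K L' := by
  unfold EP
  gcongr

theorem one_le_EP {w K : ℕ} {L : ℝ} (hw : 1 ≤ w) (hK : 1 ≤ K) (hL : 1 ≤ L) : 1 ≤ EP w K L := by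
  unfold EP
  have h1 : (1 : ℝ) ≤ w := by exact_mod_cast hw
  have h2 : (1 : ℝ) ≤ K := by exact_mod_cast hK
  have h3 : (1 : ℝ) ≤ L ^ 2 := one_le_pow₀ hL
  have h4 : (1 : ℝ) ≤ 416 * K * L ^ 2 := by nlinarith
  exact one_le_mul_of_one_le_of_one_le h1 (one_le_pow₀ h4)

theorem vals_EP {k g D q : ℕ} (hk : 2 ≤ k) (hg : 1 ≤ g) (hD : 1 ≤ D) (hq : 3 ≤ q)
    {V : Submodule ℚ ℝ} (hVf : Module.Finite ℚ V) (hVD : Module.finrank ℚ V ≤ D) :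
    ({x : ℕ | 0 < x ∧ x < q ∧ ∃ ρ ∈ Vals k ((x : ℝ) / q), RootV V g ρ}.ncard : ℝ) ≤
      EP k (D * (2 + g).choose g) (Real.log q) := by
  refine (vals_bound hk hg hD hq hVf hVD).trans (le_of_eq ?_)
  unfold EP
  push_cast
  rfl

theorem relV_EP {Φ Ψ : Finset (ℕ × ℕ)} {w g D q : ℕ} (hne : Φ.Nonempty) (hg : 1 ≤ g)
    (hD : 1 ≤ D) (hq : 3 ≤ q) (hΦ : ∀ p ∈ Φ, 2 ≤ p.1 ∧ p.1 ≤ w ∧ p.2 < q)
    (hΨ : ∀ p ∈ Ψ, 2 ≤ p.1 ∧ p.1 ≤ w ∧ p.2 < q)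
    {V : Submodule ℚ ℝ} (hVf : Module.Finite ℚ V) (hVD : Module.finrank ℚ V ≤ D) :
    ({x : ℕ | x < q ∧ (∀ p ∈ Φ, 0 < (x + p.2) % q) ∧ (∀ p ∈ Ψ, 0 < (x + p.2) % q) ∧
      RelV V Φ Ψ g q x}.ncard : ℝ) ≤
      EP w (D * (Φ.card + Ψ.card + g).choose g) (Real.log q) := by
  refine (relV_bound hne hg hD hq hΦ hΨ hVf hVD).trans (le_of_eq ?_)
  unfold EP
  push_cast
  rfl

theorem zeroPi_EP {J : Finset ℕ} (hne : J.Nonempty) {w : ℕ} (h2 : ∀ k ∈ J, 2 ≤ k ∧ k ≤ w)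
    (h : ℕ) {r g q : ℕ} (hg : 1 ≤ g) (hq : 3 ≤ q)
    {Cs : Finset ℕ} (hcard : Cs.card = r) (hCs : ∀ c ∈ Cs, c < q) :
    ({x : ℕ | x < q ∧ (∀ c ∈ Cs, 0 < (x + c) % q) ∧ ZeroPi h J Cs g q x}.ncard : ℝ) ≤
      EP w ((h + 1) * (J.card * r + g).choose g) (Real.log q) := by
  refine (zeroPi_bound hne h2 h hg hq hcard hCs).trans (le_of_eq ?_)
  unfold EP
  push_cast
  rfl

/-- the growth -/
theorem growthX (w c : ℕ) {η : ℝ} (h0 : 0 < η) (h1 : η < 1 / 2) :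
    ∃ q₀ : ℕ, 3 ≤ q₀ ∧ ∀ q : ℕ, q₀ ≤ q → 1 ≤ Real.log q ∧
      ∀ K : ℕ, (K : ℝ) ≤ c * Real.log q ^ (1 - 2 * η) →
      EP w K (Real.log q) ≤ Real.exp (Real.log q ^ (1 - η)) := by
  obtain ⟨L₀, hL₀, h⟩ := growthX_aux w c h0 h1
  refine ⟨max 3 ⌈Real.exp L₀⌉₊, le_max_left _ _, fun q hq => ?_⟩
  have hq1 : Real.exp L₀ ≤ q := (Nat.le_ceil _).trans (by exact_mod_cast (le_max_right _ _).trans hq)
  have hq0 : (0 : ℝ) < q := (Real.exp_pos _).trans_le hq1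
  have hL : L₀ ≤ Real.log q := by
    rw [Real.le_log_iff_exp_le hq0]
    exact hq1
  exact ⟨hL₀.trans hL, fun K hK => h _ hL K hK⟩

/-- `N` numbers together with `π`: the degrees tend to infinity with `q` -/
theorem tuple_growingX (J : Finset ℕ) (hne : J.Nonempty) (h2 : ∀ k ∈ J, 2 ≤ k) (r : ℕ) {η : ℝ}
    (h0 : 0 < η) (h1 : η < 1 / 2) :
    ∃ q₀ : ℕ, ∀ q : ℕ, q₀ ≤ q → ∀ Cs : Finset ℕ, Cs.card = r → (∀ c ∈ Cs, c < q) →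
    ({x : ℕ | x < q ∧ (∀ c ∈ Cs, 0 < (x + c) % q) ∧ ∃ h g : ℕ,
      (h : ℝ) ≤ Real.log q ^ ((1 - 2 * η) / ((J.card * r : ℝ) + 1)) ∧
      (g : ℝ) ≤ Real.log q ^ ((1 - 2 * η) / ((J.card * r : ℝ) + 1)) ∧
      ZeroPi h J Cs g q x}.ncard : ℝ) ≤ Real.exp (Real.log q ^ (1 - η)) := by
  obtain ⟨N, hN⟩ : ∃ N : ℕ, N = J.card * r := ⟨_, rfl⟩
  have hNR : (J.card * r : ℝ) = N := by rw [hN]; push_cast; ring
  obtain ⟨w, hw⟩ : ∃ w : ℕ, ∀ k ∈ J, k ≤ w := ⟨J.sup id, fun k hk => le_sup (f := id) hk⟩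
  rw [hNR]
  obtain ⟨q₀, hq₀3, hq₀⟩ := growthX w (2 ^ (N + 1)) h0 h1
  refine ⟨q₀, fun q hq Cs hCs hCq => ?_⟩
  obtain ⟨hL, hg⟩ := hq₀ q hq
  obtain ⟨u, hudef⟩ : ∃ u : ℝ, u = Real.log q ^ ((1 - 2 * η) / ((N : ℝ) + 1)) := ⟨_, rfl⟩
  rw [← hudef]
  have hL0 : 0 < Real.log q := by linarith
  have hu1 : 1 ≤ u := by
    rw [hudef]
    exact Real.one_le_rpow hL (by
      have : (0 : ℝ) < (N : ℝ) + 1 := by positivity
      exact div_nonneg (by linarith) this.le)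
  have huN : u ^ (N + 1) = Real.log q ^ (1 - 2 * η) := by
    rw [hudef, ← Real.rpow_natCast, ← Real.rpow_mul hL0.le]
    congr 1
    push_cast
    field_simp
  obtain ⟨G, hGdef⟩ : ∃ G : ℕ, G = ⌊u⌋₊ := ⟨_, rfl⟩
  have hGle : (G : ℝ) ≤ u := by rw [hGdef]; exact Nat.floor_le (by linarith)
  have hG1 : 1 ≤ G := by
    rw [hGdef]
    exact Nat.le_floor (by exact_mod_cast hu1)
  have hK : (((G + 1) * (N + G).choose G : ℕ) : ℝ) ≤ ((2 ^ (N + 1) : ℕ) : ℝ) *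
      Real.log q ^ (1 - 2 * η) := by
    have e1 := TUP_choose N G
    have e2 : (((G + 1) * (N + G).choose G : ℕ) : ℝ) ≤ ((G : ℝ) + 1) ^ (N + 1) := by
      have : (G + 1) * (N + G).choose G ≤ (G + 1) ^ (N + 1) := by
        calc (G + 1) * (N + G).choose G ≤ (G + 1) * (G + 1) ^ N := Nat.mul_le_mul_left _ e1
          _ = (G + 1) ^ (N + 1) := by ring
      exact_mod_cast this
    refine e2.trans ?_
    rw [← huN]
    push_cast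
    rw [← mul_pow]
    exact pow_le_pow_left₀ (by positivity) (by linarith) _
  have hcount := zeroPi_EP (J := J) (w := w) (r := r) (g := G) (q := q) hne
    (fun k hk => ⟨h2 k hk, hw k hk⟩) G hG1 (by omega) hCs hCq
  rw [← hN] at hcount
  have hsub : {x : ℕ | x < q ∧ (∀ c ∈ Cs, 0 < (x + c) % q) ∧ ∃ h g : ℕ, (h : ℝ) ≤ u ∧
      (g : ℝ) ≤ u ∧ ZeroPi h J Cs g q x} ⊆
      {x : ℕ | x < q ∧ (∀ c ∈ Cs, 0 < (x + c) % q) ∧ ZeroPi G J Cs G q x} := by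
    rintro x ⟨hx1, hx2, h, g, hh, hg', hz⟩
    refine ⟨hx1, hx2, zeroPi_mono ?_ ?_ hz⟩
    · rw [hGdef]
      exact Nat.le_floor hh
    · rw [hGdef]
      exact Nat.le_floor hg'
  have h3 := Set.ncard_le_ncard hsub ((Set.finite_Iio q).subset fun x hx => hx.1)
  have h4 : (({x : ℕ | x < q ∧ (∀ c ∈ Cs, 0 < (x + c) % q) ∧ ∃ h g : ℕ, (h : ℝ) ≤ u ∧
      (g : ℝ) ≤ u ∧ ZeroPi h J Cs g q x}.ncard : ℕ) : ℝ) ≤ (({x : ℕ | x < q ∧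
        (∀ c ∈ Cs, 0 < (x + c) % q) ∧ ZeroPi G J Cs G q x}.ncard : ℕ) : ℝ) := by
    exact_mod_cast h3
  exact (h4.trans hcount).trans (hg _ hK)

/-- the degrees and the dimension may tend to infinity with `q` -/
theorem vals_growingX {k : ℕ} (hk : 2 ≤ k) {η : ℝ} (h0 : 0 < η) (h1 : η < 1 / 2) :
    ∃ q₀ : ℕ, ∀ q : ℕ, q₀ ≤ q → ∀ g D : ℕ, 1 ≤ g → 1 ≤ D →
      (g : ℝ) ≤ Real.log q ^ ((1 - 2 * η) / 3) → (D : ℝ) ≤ Real.log q ^ ((1 - 2 * η) / 3) →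
      ∀ V : Submodule ℚ ℝ, Module.Finite ℚ V → Module.finrank ℚ V ≤ D →
      ({x : ℕ | 0 < x ∧ x < q ∧ ∃ ρ ∈ Vals k ((x : ℝ) / q), RootV V g ρ}.ncard : ℝ) ≤
        Real.exp (Real.log q ^ (1 - η)) := by
  obtain ⟨q₀, hq₀3, hq₀⟩ := growthX k 4 h0 h1
  refine ⟨q₀, fun q hq g D hg1 hD1 hgu hDu V hVf hVD => ?_⟩
  obtain ⟨hL, hG⟩ := hq₀ q hq
  have hL0 : 0 < Real.log q := by linarith
  obtain ⟨u, hudef⟩ : ∃ u : ℝ, u = Real.log q ^ ((1 - 2 * η) / 3) := ⟨_, rfl⟩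
  rw [← hudef] at hgu hDu
  have hu1 : 1 ≤ u := by
    rw [hudef]
    exact Real.one_le_rpow hL (by linarith)
  have hu3 : u ^ 3 = Real.log q ^ (1 - 2 * η) := by
    rw [hudef, ← Real.rpow_natCast, ← Real.rpow_mul hL0.le]
    congr 1
    push_cast
    ring
  have hK : ((D * (2 + g).choose g : ℕ) : ℝ) ≤ ((4 : ℕ) : ℝ) * Real.log q ^ (1 - 2 * η) := by
    have e1 := TUP_choose 2 g
    have e2 : (((2 + g).choose g : ℕ) : ℝ) ≤ ((g : ℝ) + 1) ^ 2 := by exact_mod_cast e1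
    rw [← hu3]
    push_cast
    have e3 : ((g : ℝ) + 1) ^ 2 ≤ 4 * u ^ 2 := by nlinarith [Nat.cast_nonneg (α := ℝ) g]
    calc (D : ℝ) * ((2 + g).choose g : ℕ) ≤ u * (4 * u ^ 2) :=
          mul_le_mul hDu (e2.trans e3) (Nat.cast_nonneg _) (by linarith)
      _ = 4 * u ^ 3 := by ring
  exact (vals_EP hk hg1 hD1 (by omega : 3 ≤ q) hVf hVD).trans (hG _ hK)

/-- by height -/
theorem vals_heightX {k g D H : ℕ} (hk : 2 ≤ k) (hg : 1 ≤ g) (hD : 1 ≤ D) (hH : 3 ≤ H)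
    {V : Submodule ℚ ℝ} (hVf : Module.Finite ℚ V) (hVD : Module.finrank ℚ V ≤ D) :
    ({y : ℚ | 0 < y ∧ y < 1 ∧ y.den ≤ H ∧ ∃ ρ ∈ Vals k (y : ℝ), RootV V g ρ}.ncard : ℝ) ≤
      H * EP k (D * (2 + g).choose g) (Real.log H) := by
  have hK : 1 ≤ D * (2 + g).choose g := Nat.mul_pos hD (Nat.choose_pos (Nat.le_add_left _ _))
  have hlH := one_lt_log hH
  refine height_bound (fun y => ∃ ρ ∈ Vals k y, RootV V g ρ) (EP_nonneg (by linarith)) H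
    (by omega) ?_
  intro q hq hqH
  rcases Nat.lt_or_ge q 3 with h3 | h3
  · have hq2 : q = 2 := by omega
    subst hq2
    refine le_trans ?_ (one_le_EP (by omega : 1 ≤ k) hK (by linarith))
    have hsub : {x : ℕ | 0 < x ∧ x < 2 ∧ ∃ ρ ∈ Vals k ((x : ℝ) / (2 : ℕ)), RootV V g ρ} ⊆ {1} := by
      rintro x ⟨hx0, hxq, -⟩
      rw [Set.mem_singleton_iff]
      omega
    have h4 := Set.ncard_le_ncard hsub (Set.finite_singleton _)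
    rw [Set.ncard_singleton] at h4
    exact_mod_cast h4
  · refine (vals_EP hk hg hD h3 hVf hVD).trans (EP_mono ?_ ?_)
    · have := one_lt_log h3
      linarith
    · exact Real.log_le_log (by exact_mod_cast (by omega : 0 < q)) (by exact_mod_cast hqH)

/-- near every point -/
theorem vals_nearX {k g D q : ℕ} (hk : 2 ≤ k) (hg : 1 ≤ g) (hD : 1 ≤ D) (hq : 3 ≤ q)
    {V : Submodule ℚ ℝ} (hVf : Module.Finite ℚ V) (hVD : Module.finrank ℚ V ≤ D)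
    (hl : EP k (D * (2 + g).choose g) (Real.log q) + 3 ≤ q) {t : ℝ} (ht0 : 0 ≤ t) (ht1 : t ≤ 1) :
    ∃ x : ℕ, 0 < x ∧ x < q ∧
      |(x : ℝ) / q - t| ≤ (EP k (D * (2 + g).choose g) (Real.log q) + 3) / q ∧
      ∀ ρ ∈ Vals k ((x : ℝ) / q), ¬ RootV V g ρ := by
  have hlq := one_lt_log hq
  obtain ⟨x, h2, h3, h4, h5⟩ := near_of_count (fun y => ∃ ρ ∈ Vals k y, RootV V g ρ)
    (EP_nonneg (by linarith)) (by omega : 2 ≤ q) (vals_EP hk hg hD hq hVf hVD) hl ht0 ht1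
  exact ⟨x, h2, h3, h4, fun ρ hρ hR => h5 ⟨ρ, hρ, hR⟩⟩

end CM68
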