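import Pool.Agent.LibCM68.Defs2
import Pool.Agent.LibPX.FINX

/-!
# PX: the linear relations (helper68)
-/

namespace CM68

open Finset Polynomial

private noncomputable def LINX_P {Φ : Finset (ℕ × ℕ)} (a b : Φ → ℝ) (v : ℝ) : MvPolynomial (Φ ⊕ Φ) ℝ :=
  ∑ p : Φ, MvPolynomial.C (a p) * MvPolynomial.X (Sum.inl p) +
    ∑ p : Φ, MvPolynomial.C (b p) * MvPolynomial.X (Sum.inr p) - MvPolynomial.C v

open Classical in
private theorem LINX_coeff {Φ : Finset (ℕ × ℕ)} (a b : Φ → ℝ) (v : ℝ) (m : Φ ⊕ Φ →₀ ℕ) :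
    (LINX_P a b v).coeff m = ∑ p : Φ, (if Finsupp.single (Sum.inl p) 1 = m then a p else 0) +
      ∑ p : Φ, (if Finsupp.single (Sum.inr p) 1 = m then b p else 0) - (if 0 = m then v else 0) := by
  unfold LINX_P
  rw [MvPolynomial.coeff_sub, MvPolynomial.coeff_add, MvPolynomial.coeff_sum,
    MvPolynomial.coeff_sum, MvPolynomial.coeff_C]
  congr 2
  · refine Finset.sum_congr rfl fun p _ => ?_
    rw [MvPolynomial.coeff_C_mul, MvPolynomial.coeff_X']
    split_ifs <;> simp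
  · refine Finset.sum_congr rfl fun p _ => ?_
    rw [MvPolynomial.coeff_C_mul, MvPolynomial.coeff_X']
    split_ifs <;> simp

/-- a linear relation modulo the cotangent numbers is a relation `RelV` -/
theorem exc_relV {J Cs : Finset ℕ} {V : Submodule ℚ ℝ} {q x : ℕ} (h1 : (1 : ℝ) ∈ V)
    (h : Exc J Cs V q x) : RelV V (J ×ˢ Cs) (J ×ˢ Cs) 1 q x := by
  classical
  obtain ⟨lam, mu, ⟨c₀, hc₀, k₀, hk₀, hne⟩, hv⟩ := h
  obtain ⟨v, hvd⟩ : ∃ v, v = ∑ c ∈ Cs, ∑ k ∈ J, ((lam c k : ℝ) * hz k ((((x + c) % q : ℕ) : ℝ) / q) +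
      (mu c k : ℝ) * hz k (1 - (((x + c) % q : ℕ) : ℝ) / q)) := ⟨_, rfl⟩
  rw [← hvd] at hv
  have hrat : ∀ r : ℚ, (r : ℝ) ∈ V := by
    intro r
    have h2 := V.smul_mem r h1
    rwa [Rat.smul_def, mul_one] at h2
  obtain ⟨a, ha⟩ : ∃ a : (J ×ˢ Cs : Finset (ℕ × ℕ)) → ℚ, ∀ p, a p =
      lam (p : ℕ × ℕ).2 (p : ℕ × ℕ).1 - (-1) ^ (p : ℕ × ℕ).1 * mu (p : ℕ × ℕ).2 (p : ℕ × ℕ).1 :=
    ⟨_, fun _ => rfl⟩
  obtain ⟨b, hb⟩ : ∃ b : (J ×ˢ Cs : Finset (ℕ × ℕ)) → ℚ, ∀ p, b p =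
      (-1) ^ (p : ℕ × ℕ).1 * mu (p : ℕ × ℕ).2 (p : ℕ × ℕ).1 := ⟨_, fun _ => rfl⟩
  refine ⟨1, LINX_P (fun p => (a p : ℝ)) (fun p => (b p : ℝ)) v, le_rfl, ?_, ?_, ?_, ?_, ?_⟩
  · unfold LINX_P
    refine (MvPolynomial.totalDegree_sub _ _).trans (max_le ((MvPolynomial.totalDegree_add _ _).trans
      (max_le ?_ ?_)) ?_)
    · refine MvPolynomial.totalDegree_finsetSum_le fun p _ => ?_
      refine (MvPolynomial.totalDegree_mul _ _).trans ?_
      rw [MvPolynomial.totalDegree_C, MvPolynomial.totalDegree_X]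
    · refine MvPolynomial.totalDegree_finsetSum_le fun p _ => ?_
      refine (MvPolynomial.totalDegree_mul _ _).trans ?_
      rw [MvPolynomial.totalDegree_C, MvPolynomial.totalDegree_X]
    · rw [MvPolynomial.totalDegree_C]
      omega
  · intro m
    rw [LINX_coeff]
    refine V.sub_mem (V.add_mem (V.sum_mem fun p _ => ?_) (V.sum_mem fun p _ => ?_)) ?_
    · split_ifs
      · exact hrat _
      · exact V.zero_mem
    · split_ifs
      · exact hrat _
      · exact V.zero_mem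
    · split_ifs
      · exact hv
      · exact V.zero_mem
  · intro m hm
    rw [MvPolynomial.mem_support_iff, LINX_coeff] at hm
    by_cases hA : ∃ p : (J ×ˢ Cs : Finset (ℕ × ℕ)), Finsupp.single (Sum.inl p) 1 = m
    · obtain ⟨p, rfl⟩ := hA
      right
      constructor
      · rw [Finset.sum_eq_single p]
        · simp
        · intro p' _ hp'
          rw [Finsupp.single_apply, if_neg]
          intro h
          exact hp' (Sum.inl_injective h).symm
        · intro h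
          exact absurd (mem_univ _) h
      · intro j
        rw [Finsupp.single_apply, if_neg]
        intro h
        cases h
    · left
      by_cases hB : ∃ p : (J ×ˢ Cs : Finset (ℕ × ℕ)), Finsupp.single (Sum.inr p) 1 = m
      · obtain ⟨p, rfl⟩ := hB
        rw [Finset.sum_eq_zero]
        · omega
        · intro p' _
          rw [Finsupp.single_apply, if_neg]
          intro h
          cases h
      · by_cases hC : 0 = m
        · subst hC
          simp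
        · exfalso
          apply hm
          rw [if_neg hC, Finset.sum_eq_zero, Finset.sum_eq_zero, add_zero, sub_zero]
          · intro p _
            exact if_neg fun h => hB ⟨p, h⟩
          · intro p _
            exact if_neg fun h => hA ⟨p, h⟩
  · refine ⟨Finsupp.single (Sum.inl ⟨(k₀, c₀), mem_product.2 ⟨hk₀, hc₀⟩⟩) 1, ?_, ?_⟩
    · rw [MvPolynomial.mem_support_iff, LINX_coeff]
      rw [Finset.sum_eq_single ⟨(k₀, c₀), mem_product.2 ⟨hk₀, hc₀⟩⟩, if_pos rfl, Finset.sum_eq_zero,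
        if_neg, add_zero, sub_zero]
      · rw [ha]
        intro h0
        apply hne
        have h2 : lam c₀ k₀ - (-1) ^ k₀ * mu c₀ k₀ = 0 := by exact_mod_cast h0
        linarith
      · intro h0
        have := DFunLike.congr_fun h0 (Sum.inl ⟨(k₀, c₀), mem_product.2 ⟨hk₀, hc₀⟩⟩)
        simp at this
      · intro p _
        refine if_neg fun h => ?_
        have := DFunLike.congr_fun h (Sum.inr p)
        simp at this
      · intro p _ hp
        refine if_neg fun h => hp ?_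
        have h2 := (Finsupp.single_left_inj one_ne_zero).1 h
        exact Sum.inl_injective h2
      · intro h
        exact absurd (mem_univ _) h
    · rw [Finset.sum_eq_single ⟨(k₀, c₀), mem_product.2 ⟨hk₀, hc₀⟩⟩]
      · simp
      · intro p' _ hp'
        rw [Finsupp.single_apply, if_neg]
        intro h
        exact hp' (Sum.inl_injective h).symm
      · intro h
        exact absurd (mem_univ _) h
  · unfold LINX_P
    rw [map_sub, map_add, map_sum, map_sum, MvPolynomial.eval_C]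
    simp only [map_mul, MvPolynomial.eval_C, MvPolynomial.eval_X]
    rw [← Finset.sum_add_distrib, sub_eq_zero, hvd, ← Finset.sum_product_right']
    rw [← Finset.sum_coe_sort (J ×ˢ Cs)]
    refine Finset.sum_congr rfl fun p _ => ?_
    unfold ptG
    rw [Sum.elim_inl, Sum.elim_inr, ha, hb]
    push_cast
    have h3 : ((-1 : ℝ) ^ (p : ℕ × ℕ).1) * (-1) ^ (p : ℕ × ℕ).1 = 1 := by
      rw [← mul_pow]
      simp
    linear_combination (mu (p : ℕ × ℕ).2 (p : ℕ × ℕ).1 : ℝ) *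
      hz (p : ℕ × ℕ).1 (1 - (((x + (p : ℕ × ℕ).2) % q : ℕ) : ℝ) / q) * h3

/-- the count for the linear relations -/
theorem lin_EP {J : Finset ℕ} (hne : J.Nonempty) {w : ℕ} (h2 : ∀ k ∈ J, 2 ≤ k ∧ k ≤ w)
    {r D q : ℕ} (hr : 1 ≤ r) (hD : 1 ≤ D) (hq : 3 ≤ q)
    {V : Submodule ℚ ℝ} (hVf : Module.Finite ℚ V) (hVD : Module.finrank ℚ V ≤ D) (h1 : (1 : ℝ) ∈ V)
    {Cs : Finset ℕ} (hcard : Cs.card = r) (hCs : ∀ c ∈ Cs, c < q) :
    ({x : ℕ | x < q ∧ (∀ c ∈ Cs, 0 < (x + c) % q) ∧ Exc J Cs V q x}.ncard : ℝ) ≤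
      EP w (D * (2 * (J.card * r) + 1)) (Real.log q) := by
  have hCne : Cs.Nonempty := by
    rw [← Finset.card_pos]
    omega
  have hΦ : ∀ p ∈ J ×ˢ Cs, 2 ≤ p.1 ∧ p.1 ≤ w ∧ p.2 < q := by
    rintro ⟨k, c⟩ hp
    obtain ⟨h3, h4⟩ := mem_product.1 hp
    exact ⟨(h2 k h3).1, (h2 k h3).2, hCs c h4⟩
  have h3 := relV_EP (Φ := J ×ˢ Cs) (Ψ := J ×ˢ Cs) (w := w) (g := 1) (D := D) (q := q)
    (hne.product hCne) le_rfl hD hq hΦ hΦ hVf hVD
  have e1 : ((J ×ˢ Cs).card + (J ×ˢ Cs).card + 1).choose 1 = 2 * (J.card * r) + 1 := by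
    rw [Nat.choose_one_right, card_product, hcard]
    ring
  rw [e1] at h3
  refine le_trans ?_ h3
  have hsub : {x : ℕ | x < q ∧ (∀ c ∈ Cs, 0 < (x + c) % q) ∧ Exc J Cs V q x} ⊆
      {x : ℕ | x < q ∧ (∀ p ∈ J ×ˢ Cs, 0 < (x + p.2) % q) ∧ (∀ p ∈ J ×ˢ Cs, 0 < (x + p.2) % q) ∧
        RelV V (J ×ˢ Cs) (J ×ˢ Cs) 1 q x} := by
    rintro x ⟨hx1, hx2, hx3⟩
    have hx4 : ∀ p ∈ J ×ˢ Cs, 0 < (x + p.2) % q := by
      rintro ⟨k, c⟩ hp
      exact hx2 c (mem_product.1 hp).2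
    exact ⟨hx1, hx4, hx4, exc_relV h1 hx3⟩
  exact_mod_cast Set.ncard_le_ncard hsub ((Set.finite_Iio q).subset fun x hx => hx.1)

end CM68
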