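import Pool.Agent.LibPX.VALX
import Pool.Agent.LibCM3.PI3

/-!
# The counts in terms of `log q` (helper5)

`LX q = ⌈log q⌉ + 2`, `bX w K (LX q) ≤ w (416 K (log q)^2)^(6 K + 2)` for `q ≥ 3`.
-/

namespace CM68

open Finset Polynomial

/-- the parameter of the construction -/
noncomputable def LX (q : ℕ) : ℕ := ⌈Real.log q⌉₊ + 2

theorem le_LX (q : ℕ) : Real.log q + 2 ≤ LX q := by
  unfold LX
  push_cast
  have := Nat.le_ceil (Real.log q)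
  linarith

theorem one_lt_log {q : ℕ} (hq : 3 ≤ q) : 1 + 9 / 100 ≤ Real.log q := by
  have h1 : Real.log 3 ≤ Real.log q := Real.log_le_log (by norm_num) (by exact_mod_cast hq)
  have h2 : (1 + 9 / 100 : ℝ) ≤ Real.log 3 := by
    rw [Real.le_log_iff_exp_le (by norm_num)]
    have h3 : Real.exp (1 + 9 / 100) = Real.exp 1 * Real.exp (9 / 100) := Real.exp_add _ _
    have h4 := Real.exp_one_lt_d9
    have h5 : Real.exp (9 / 100) ≤ 100 / 91 := by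
      have h6 := Real.add_one_le_exp (-(9 / 100) : ℝ)
      have h7 : Real.exp (9 / 100) * Real.exp (-(9 / 100)) = 1 := by
        rw [← Real.exp_add]
        norm_num
      have h8 := Real.exp_pos (9 / 100)
      nlinarith
    rw [h3]
    have h9 : (0 : ℝ) < Real.exp (9 / 100) := Real.exp_pos _
    calc Real.exp 1 * Real.exp (9 / 100) ≤ 2.7182818286 * (100 / 91) := by gcongr
      _ ≤ 3 := by norm_num
  linarith

theorem LX_le {q : ℕ} (hq : 3 ≤ q) : (LX q : ℝ) + 1 / 5 ≤ 4 * Real.log q := by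
  have h1 := one_lt_log hq
  have h2 := Nat.ceil_lt_add_one (by linarith : (0 : ℝ) ≤ Real.log q)
  unfold LX
  push_cast
  linarith

/-- the bound with one more point -/
theorem bX_real {q w K : ℕ} (hq : 3 ≤ q) (hw : 1 ≤ w) (hK : 1 ≤ K) :
    (bX w K (LX q) : ℝ) + 1 ≤ w * (416 * K * Real.log q ^ 2) ^ (6 * K + 2) := by
  have h1 := LX_le hq
  have h2 := le_LX q
  have h3 := one_lt_log hq
  have hw1 : (1 : ℝ) ≤ w := by exact_mod_cast hw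
  have hK1 : (1 : ℝ) ≤ K := by exact_mod_cast hK
  obtain ⟨a, ha⟩ : ∃ a : ℝ, a = 26 * K * (LX q : ℝ) ^ 2 := ⟨_, rfl⟩
  have ha0 : 0 ≤ a := by rw [ha]; positivity
  have h4 : a + 1 ≤ 416 * K * Real.log q ^ 2 := by
    have e1 : ((LX q : ℝ) + 1 / 5) ^ 2 ≤ (4 * Real.log q) ^ 2 := by
      have : (0 : ℝ) ≤ LX q := Nat.cast_nonneg _
      gcongr
    have e2 : (3 : ℝ) ≤ LX q := by linarith
    have e3 : (LX q : ℝ) ^ 2 + 1 ≤ 16 * Real.log q ^ 2 := by nlinarith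
    rw [ha]
    nlinarith
  have h5 : a ^ (6 * K + 2) + 1 ≤ (416 * K * Real.log q ^ 2) ^ (6 * K + 2) := by
    calc a ^ (6 * K + 2) + 1 = a ^ (6 * K + 2) + 1 ^ (6 * K + 2) := by rw [one_pow]
      _ ≤ (a + 1) ^ (6 * K + 2) := pow_add_pow_le ha0 zero_le_one (by omega)
      _ ≤ _ := by gcongr
  unfold bX
  push_cast
  rw [← ha]
  nlinarith [pow_nonneg ha0 (6 * K + 2)]

/-- (Vals, V) -/
theorem vals_bound {k g D q : ℕ} (hk : 2 ≤ k) (hg : 1 ≤ g) (hD : 1 ≤ D) (hq : 3 ≤ q)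
    {V : Submodule ℚ ℝ} (hVf : Module.Finite ℚ V) (hVD : Module.finrank ℚ V ≤ D) :
    ({x : ℕ | 0 < x ∧ x < q ∧ ∃ ρ ∈ Vals k ((x : ℝ) / q), RootV V g ρ}.ncard : ℝ) ≤
      k * (416 * (D * ((2 + g).choose g : ℝ)) * Real.log q ^ 2) ^
        (6 * (D * (2 + g).choose g) + 2) := by
  classical
  have h1 := vals_countX (k := k) (g := g) (D := D) (q := q) (lam := LX q) hk hg (by omega)
    (le_LX q) hVf hVD
  have hfin : {x : ℕ | 0 < x ∧ x < q ∧ 2 * x ≠ q ∧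
      ∃ ρ ∈ Vals k ((x : ℝ) / q), RootV V g ρ}.Finite :=
    (Set.finite_Iio q).subset fun x hx => hx.2.1
  have h2 : {x : ℕ | 0 < x ∧ x < q ∧ ∃ ρ ∈ Vals k ((x : ℝ) / q), RootV V g ρ}.ncard ≤
      bX k (D * (2 + g).choose g) (LX q) + 1 := by
    have hsub : {x : ℕ | 0 < x ∧ x < q ∧ ∃ ρ ∈ Vals k ((x : ℝ) / q), RootV V g ρ} ⊆
        {x : ℕ | 0 < x ∧ x < q ∧ 2 * x ≠ q ∧
          ∃ ρ ∈ Vals k ((x : ℝ) / q), RootV V g ρ} ∪ {q / 2} := by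
      rintro x ⟨hx0, hxq, hx⟩
      by_cases h : 2 * x = q
      · right
        rw [Set.mem_singleton_iff]
        omega
      · left
        exact ⟨hx0, hxq, h, hx⟩
    refine (Set.ncard_le_ncard hsub (hfin.union (Set.finite_singleton _))).trans ?_
    refine (Set.ncard_union_le _ _).trans ?_
    rw [Set.ncard_singleton]
    exact Nat.add_le_add_right h1 1
  have h3 := bX_real (q := q) (w := k) (K := D * (2 + g).choose g) hq (by omega)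
    (Nat.mul_pos hD (Nat.choose_pos (Nat.le_add_left _ _)))
  have h4 : ({x : ℕ | 0 < x ∧ x < q ∧ ∃ ρ ∈ Vals k ((x : ℝ) / q), RootV V g ρ}.ncard : ℝ) ≤
      (bX k (D * (2 + g).choose g) (LX q) : ℝ) + 1 := by exact_mod_cast h2
  refine h4.trans (h3.trans (le_of_eq ?_))
  push_cast
  ring

/-- (Vals, π) -/
theorem vals_pi_bound {k g q : ℕ} (h : ℕ) (hk : 2 ≤ k) (hg : 1 ≤ g) (hq : 3 ≤ q) :
    ({x : ℕ | 0 < x ∧ x < q ∧ ∃ ρ ∈ Vals k ((x : ℝ) / q), RootPi h g ρ}.ncard : ℝ) ≤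
      k * (416 * ((h + 1) * ((2 + g).choose g : ℝ)) * Real.log q ^ 2) ^
        (6 * ((h + 1) * (2 + g).choose g) + 2) := by
  have h1 := vals_bound (D := h + 1) hk hg (by omega) hq (vpi_finite h) (vpi_rank h)
  have hfin : {x : ℕ | 0 < x ∧ x < q ∧ ∃ ρ ∈ Vals k ((x : ℝ) / q), RootV (VPi h) g ρ}.Finite :=
    (Set.finite_Iio q).subset fun x hx => hx.2.1
  have hsub : {x : ℕ | 0 < x ∧ x < q ∧ ∃ ρ ∈ Vals k ((x : ℝ) / q), RootPi h g ρ} ⊆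
      {x : ℕ | 0 < x ∧ x < q ∧ ∃ ρ ∈ Vals k ((x : ℝ) / q), RootV (VPi h) g ρ} := by
    rintro x ⟨hx0, hxq, ρ, hρ, hR⟩
    exact ⟨hx0, hxq, ρ, hρ, rootPi_V hR⟩
  have h2 : ({x : ℕ | 0 < x ∧ x < q ∧ ∃ ρ ∈ Vals k ((x : ℝ) / q), RootPi h g ρ}.ncard : ℝ) ≤
      ({x : ℕ | 0 < x ∧ x < q ∧ ∃ ρ ∈ Vals k ((x : ℝ) / q), RootV (VPi h) g ρ}.ncard : ℝ) := by
    exact_mod_cast Set.ncard_le_ncard hsub hfin
  push_cast at h1
  exact h2.trans h1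

/-- (X, Y relations over V) -/
theorem relV_bound {Φ Ψ : Finset (ℕ × ℕ)} {w g D q : ℕ} (hne : Φ.Nonempty) (hg : 1 ≤ g)
    (hD : 1 ≤ D) (hq : 3 ≤ q) (hΦ : ∀ p ∈ Φ, 2 ≤ p.1 ∧ p.1 ≤ w ∧ p.2 < q)
    (hΨ : ∀ p ∈ Ψ, 2 ≤ p.1 ∧ p.1 ≤ w ∧ p.2 < q)
    {V : Submodule ℚ ℝ} (hVf : Module.Finite ℚ V) (hVD : Module.finrank ℚ V ≤ D) :
    ({x : ℕ | x < q ∧ (∀ p ∈ Φ, 0 < (x + p.2) % q) ∧ (∀ p ∈ Ψ, 0 < (x + p.2) % q) ∧
      RelV V Φ Ψ g q x}.ncard : ℝ) ≤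
      w * (416 * (D * ((Φ.card + Ψ.card + g).choose g : ℝ)) * Real.log q ^ 2) ^
        (6 * (D * (Φ.card + Ψ.card + g).choose g) + 2) := by
  have hw : 1 ≤ w := by
    obtain ⟨p, hp⟩ := hne
    have := hΦ p hp
    omega
  have h1 := count_GX (Φ := Φ) (Ψ := Ψ) (w := w) (g := g) (D := D) (q := q) (lam := LX q)
    hg (by omega) (le_LX q) hΦ hΨ hVf hVD
  have h3 := bX_real (q := q) (w := w) (K := D * (Φ.card + Ψ.card + g).choose g) hq hw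
    (Nat.mul_pos hD (Nat.choose_pos (Nat.le_add_left _ _)))
  have h4 : ({x : ℕ | x < q ∧ (∀ p ∈ Φ, 0 < (x + p.2) % q) ∧ (∀ p ∈ Ψ, 0 < (x + p.2) % q) ∧
      RelV V Φ Ψ g q x}.ncard : ℝ) ≤
      (bX w (D * (Φ.card + Ψ.card + g).choose g) (LX q) : ℝ) := by exact_mod_cast h1
  refine (h4.trans (by linarith)).trans (h3.trans (le_of_eq ?_))
  push_cast
  ring

/-- (π and the numbers `ζ(k, (x + c)/q)`) -/
theorem zeroPi_bound {J : Finset ℕ} (hne : J.Nonempty) {w : ℕ} (h2 : ∀ k ∈ J, 2 ≤ k ∧ k ≤ w)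
    (h : ℕ) {r g q : ℕ} (hg : 1 ≤ g) (hq : 3 ≤ q)
    {Cs : Finset ℕ} (hcard : Cs.card = r) (hCs : ∀ c ∈ Cs, c < q) :
    ({x : ℕ | x < q ∧ (∀ c ∈ Cs, 0 < (x + c) % q) ∧ ZeroPi h J Cs g q x}.ncard : ℝ) ≤
      w * (416 * ((h + 1) * ((J.card * r + g).choose g : ℝ)) * Real.log q ^ 2) ^
        (6 * ((h + 1) * (J.card * r + g).choose g) + 2) := by
  have hw : 1 ≤ w := by
    obtain ⟨k, hk⟩ := hne
    have := h2 k hk
    omega
  have h1 := zeroV_countX (D := h + 1) (lam := LX q) h2 hg (by omega) (le_LX q)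
    (vpi_finite h) (vpi_rank h) hcard hCs
  have h3 := bX_real (q := q) (w := w) (K := (h + 1) * (J.card * r + g).choose g) hq hw
    (Nat.mul_pos (by omega) (Nat.choose_pos (Nat.le_add_left _ _)))
  have hfin : {x : ℕ | x < q ∧ (∀ c ∈ Cs, 0 < (x + c) % q) ∧
      ZeroV (VPi h) J Cs g q x}.Finite := (Set.finite_Iio q).subset fun x hx => hx.1
  have hsub : {x : ℕ | x < q ∧ (∀ c ∈ Cs, 0 < (x + c) % q) ∧ ZeroPi h J Cs g q x} ⊆
      {x : ℕ | x < q ∧ (∀ c ∈ Cs, 0 < (x + c) % q) ∧ ZeroV (VPi h) J Cs g q x} := by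
    rintro x ⟨hx0, hxq, hR⟩
    exact ⟨hx0, hxq, zeroPi_V hR⟩
  have h4 : ({x : ℕ | x < q ∧ (∀ c ∈ Cs, 0 < (x + c) % q) ∧ ZeroPi h J Cs g q x}.ncard : ℝ) ≤
      (bX w ((h + 1) * (J.card * r + g).choose g) (LX q) : ℝ) := by
    exact_mod_cast (Set.ncard_le_ncard hsub hfin).trans h1
  refine (h4.trans (by linarith)).trans (h3.trans (le_of_eq ?_))
  push_cast
  ring

end CM68
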