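import Pool.Agent.LibCM3.FINx
import Pool.Agent.LibPX.RGX

/-!
# The counts for the numbers `ζ(k, y) / ζ(k, 1 - y)`, `lam ζ(k, y) + mu ζ(k, 1 - y)` and for `N` numbers (assembly, helper5)
-/

namespace CM68

open Finset Polynomial

private theorem VX_lam3 {q lam : ℕ} (hq : 2 ≤ q) (hlam : Real.log q + 2 ≤ lam) : 3 ≤ lam := by
  have h1 : Real.log 2 ≤ Real.log q := Real.log_le_log (by norm_num) (by exact_mod_cast hq)
  have h2 := Real.log_two_gt_d9
  have h3 : (2 : ℝ) < lam := by linarith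
  exact_mod_cast h3

theorem countL {q k g e DD lam : ℕ} {V : Submodule ℚ ℝ} [Module.Finite ℚ V]
    (hD : Module.finrank ℚ V = DD + 1) {I₀ : Finset ℕ} (hq : 2 ≤ q)
    (hlam : Real.log q + 2 ≤ lam) (hk : 2 ≤ k) (he : 1 ≤ e) (heg : e ≤ g)
    (hI : ∀ x ∈ I₀, 0 < x ∧ x < q ∧ ∃ c : ℕ → ℕ → ℝ, RelLV V k g e q x c) :
    g * I₀.card ≤ bX k ((2 + g).choose g * (DD + 1)) lam := by
  classical
  have hb : ∃ b : ℕ → ℕ → ℕ → ℝ, ∀ x ∈ I₀, RelLV V k g e q x (b x) := by
    choose! hx0 hxq b hb using hI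
    exact ⟨b, hb⟩
  obtain ⟨b, hb⟩ := hb
  have hmod : ∀ x ∈ I₀, (x + 0) % q = x := by
    intro x hx
    rw [add_zero, Nat.mod_eq_of_lt (hI x hx).2.1]
  have hmain := countX (q := q) (w := k) (g := g) (e := e) (N := 1) (M := 1) (DD := DD)
    (lam := lam) (fun _ => k) (fun _ => 0)
    (fun _ => k) (fun _ => 0) V hD I₀ (fun μ x => b x (μ.1 0) (μ.2 0))
    hq hlam (VX_lam3 hq hlam) (fun _ => ⟨hk, le_refl _⟩) (fun _ => ⟨hk, le_refl _⟩)
    (fun _ => by omega)
    (fun _ => by omega) (fun a b _ => Subsingleton.elim a b) (fun x hx => (hI x hx).2.1)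
    (fun x hx _ => by rw [hmod x hx]; exact (hI x hx).1)
    (fun x hx _ => by rw [hmod x hx]; exact (hI x hx).1) he heg
    (fun x hx μ => (hb x hx).1 _ _) ?_ ?_ ?_
  · rw [card_monos] at hmain
    exact hmain
  · intro x hx μ _ hμ
    have e1 : ∑ i, μ.1 i = μ.1 0 := by simp
    rw [e1]
    rcases (hb x hx).2.1 _ _ hμ with h | h
    · exact Or.inl h
    · refine Or.inr ⟨h.1, funext fun a => ?_⟩
      rw [Subsingleton.elim a 0]
      exact h.2
  · intro x hx
    exact ⟨fun _ => e, by simp, (hb x hx).2.2.1⟩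
  · intro x hx
    refine Eq.trans (Finset.sum_congr rfl fun μ _ => ?_) (hb x hx).2.2.2
    simp only [Finset.univ_unique, Finset.prod_singleton, Sx, Tx, hmod x hx]
    rfl

/-- the homogeneous relations are such relations -/
theorem relLV_of_BV {V : Submodule ℚ ℝ} {k g e q x : ℕ} (heg : e ≤ g) {b : ℕ → ℝ}
    (h : RelBV V k e q x b) :
    RelLV V k g e q x fun i j => if i + j = e then b i else 0 := by
  obtain ⟨h1, h2, h3⟩ := h
  refine ⟨fun i j => ?_, fun i j hij => ?_, ?_, ?_⟩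
  · show (if i + j = e then b i else 0) ∈ V
    split_ifs
    · exact h1 _
    · exact V.zero_mem
  · have h4 : i + j = e := by
      by_contra h
      exact hij (if_neg h)
    omega
  · show (if e + 0 = e then b e else 0) ≠ 0
    rw [if_pos (add_zero e)]
    exact h2
  · refine Eq.trans (Eq.symm ?_) h3
    refine Finset.sum_of_injOn (fun i => ((fun _ => i, fun _ => e - i) : Mon 1 1)) ?_ ?_ ?_ ?_
    · intro i _ j _ hij
      have h1 := congrArg (fun μ : Mon 1 1 => μ.1 0) hij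
      exact h1
    · intro i hi
      have hi' : i < e + 1 := Finset.mem_range.1 (Finset.mem_coe.1 hi)
      rw [Finset.mem_coe, mem_monos]
      simp only [Finset.univ_unique, Finset.sum_const, Finset.card_singleton, one_smul]
      omega
    · intro μ _ hμ
      show (if μ.1 0 + μ.2 0 = e then b (μ.1 0) else 0) * _ = 0
      rw [if_neg, zero_mul]
      intro h1
      apply hμ
      refine ⟨μ.1 0, ?_, ?_⟩
      · rw [Finset.mem_coe, Finset.mem_range]
        omega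
      · refine Prod.ext (funext fun a => ?_) (funext fun a => ?_)
        · show μ.1 0 = μ.1 a
          rw [Subsingleton.elim a 0]
        · show e - μ.1 0 = μ.2 a
          rw [Subsingleton.elim a 0]
          omega
    · intro i hi
      have hi' : i < e + 1 := Finset.mem_range.1 hi
      have h1 : i + (e - i) = e := by omega
      simp only [h1, if_true]
      ring

/-- the count for all the numbers in `Vals`, coefficients in `V` -/
theorem vals_countX {k g D q lam : ℕ} (hk : 2 ≤ k) (hg : 1 ≤ g) (hq : 2 ≤ q)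
    (hlam : Real.log q + 2 ≤ lam) {V : Submodule ℚ ℝ} (hVf : Module.Finite ℚ V)
    (hVD : Module.finrank ℚ V ≤ D) :
    {x : ℕ | 0 < x ∧ x < q ∧ 2 * x ≠ q ∧ ∃ ρ ∈ Vals k ((x : ℝ) / q), RootV V g ρ}.ncard ≤
      bX k (D * (2 + g).choose g) lam := by
  classical
  have hlam3 := VX_lam3 hq hlam
  rcases Nat.eq_zero_or_pos (Module.finrank ℚ V) with hr0 | hrpos
  · have hbot : V = ⊥ := by
      have hVf' := hVf
      exact Submodule.finrank_eq_zero.1 hr0
    have hemp : {x : ℕ | 0 < x ∧ x < q ∧ 2 * x ≠ q ∧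
        ∃ ρ ∈ Vals k ((x : ℝ) / q), RootV V g ρ} = ∅ := by
      rw [Set.eq_empty_iff_forall_notMem]
      rintro x ⟨-, -, -, ρ, -, P, hP0, -, hPV, -⟩
      apply hP0
      ext i
      have h1 := hPV i
      rw [hbot, Submodule.mem_bot] at h1
      rw [h1, coeff_zero]
    rw [hemp, Set.ncard_empty]
    exact Nat.zero_le _
  obtain ⟨s, hs⟩ : ∃ s, Module.finrank ℚ V = s + 1 := ⟨Module.finrank ℚ V - 1, by omega⟩
  obtain ⟨I, hIdef⟩ : ∃ I : ℕ → Finset ℕ, ∀ e, I e =
      (range q).filter fun x => 0 < x ∧ ∃ c : ℕ → ℕ → ℝ, RelLV V k g e q x c := ⟨_, fun _ => rfl⟩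
  have hch : 1 ≤ (2 + g).choose g := Nat.choose_pos (Nat.le_add_left _ _)
  obtain ⟨K, hK⟩ : ∃ K, K = D * (2 + g).choose g := ⟨_, rfl⟩
  have hK' : (2 + g).choose g * (s + 1) ≤ K := by
    rw [hK, mul_comm]
    exact Nat.mul_le_mul_right _ (by omega)
  have hK1 : 1 ≤ K := le_trans (Nat.mul_pos hch (by omega)) hK'
  have hIcard : ∀ e ∈ Icc 1 g, g * (I e).card ≤ bX k K lam := by
    intro e he
    rw [mem_Icc] at he
    have hVf' := hVf
    have h1 := countL (V := V) hs (e := e) (g := g) (I₀ := I e) hq hlam hk he.1 he.2 (by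
      intro x hx
      rw [hIdef, mem_filter, mem_range] at hx
      exact ⟨hx.2.1, hx.1, hx.2.2⟩)
    exact h1.trans (bX_mono (by omega) le_rfl hK' hK1)
  have hsub : {x : ℕ | 0 < x ∧ x < q ∧ 2 * x ≠ q ∧
      ∃ ρ ∈ Vals k ((x : ℝ) / q), RootV V g ρ} ⊆
      (((Icc 1 g).biUnion fun e => I e : Finset ℕ) : Set ℕ) := by
    rintro x ⟨hx0, hxq, hx2, ρ, hρ, hR⟩
    rw [mem_coe, mem_biUnion]
    rcases hρ with rfl | ⟨l, m, hlm, rfl⟩
    · obtain ⟨e, he1, heg, b, hb⟩ := relBV_of hq hk hx0 hxq hx2 hR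
      refine ⟨e, mem_Icc.2 ⟨he1, heg⟩, ?_⟩
      rw [hIdef, mem_filter, mem_range]
      exact ⟨hxq, hx0, _, relLV_of_BV heg hb⟩
    · obtain ⟨e, he1, heg, c, hc⟩ := relLV_of hq hk hx0 hxq hlm hR
      refine ⟨e, mem_Icc.2 ⟨he1, heg⟩, ?_⟩
      rw [hIdef, mem_filter, mem_range]
      exact ⟨hxq, hx0, c, hc⟩
  have hfin := Set.ncard_le_ncard hsub (Finset.finite_toSet _)
  rw [Set.ncard_coe_finset] at hfin
  rw [← hK]
  refine hfin.trans ?_
  have h1 : g * ((Icc 1 g).biUnion fun e => I e).card ≤ g * bX k K lam := by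
    calc g * ((Icc 1 g).biUnion fun e => I e).card ≤ g * ∑ e ∈ Icc 1 g, (I e).card :=
          Nat.mul_le_mul_left _ card_biUnion_le
      _ = ∑ e ∈ Icc 1 g, g * (I e).card := Finset.mul_sum _ _ _
      _ ≤ ∑ _e ∈ Icc 1 g, bX k K lam := Finset.sum_le_sum hIcard
      _ = g * bX k K lam := by
          rw [Finset.sum_const, Nat.card_Icc, smul_eq_mul, Nat.add_sub_cancel]
  exact Nat.le_of_mul_le_mul_left h1 hg

/-- the numbers of `ZeroV` are relations `RelV` without cotangent numbers -/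
theorem relV_of_zeroV {V : Submodule ℚ ℝ} {J Cs : Finset ℕ} {g q x : ℕ}
    (h : ZeroV V J Cs g q x) : RelV V (J ×ˢ Cs) ∅ g q x := by
  classical
  obtain ⟨P, hP, hPg, hPV, hP0⟩ := h
  have hinj : Function.Injective
      (Sum.inl : (J ×ˢ Cs : Finset (ℕ × ℕ)) → (J ×ˢ Cs : Finset (ℕ × ℕ)) ⊕ (∅ : Finset (ℕ × ℕ))) :=
    Sum.inl_injective
  obtain ⟨Q, hQ⟩ : ∃ Q : MvPolynomial ((J ×ˢ Cs : Finset (ℕ × ℕ)) ⊕ (∅ : Finset (ℕ × ℕ))) ℝ,
    Q = MvPolynomial.rename Sum.inl P := ⟨_, rfl⟩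
  have hQ0 : Q ≠ 0 := by
    rw [hQ]
    intro h0
    exact hP (MvPolynomial.rename_injective _ hinj (by rw [h0, map_zero]))
  have hne : Q.support.Nonempty := by
    rw [Finset.nonempty_iff_ne_empty, Ne, MvPolynomial.support_eq_empty]
    exact hQ0
  have hsum : ∀ m : ((J ×ˢ Cs : Finset (ℕ × ℕ)) ⊕ (∅ : Finset (ℕ × ℕ))) →₀ ℕ,
      (m.sum fun _ a => a) = ∑ i : (J ×ˢ Cs : Finset (ℕ × ℕ)), m (Sum.inl i) := by
    intro m
    rw [Finsupp.sum_fintype _ _ (fun _ => rfl), Fintype.sum_sum_type]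
    simp
  have hQg : Q.totalDegree ≤ g := by
    rw [hQ]
    exact (MvPolynomial.totalDegree_rename_le _ _).trans hPg
  obtain ⟨m, hm, hm2⟩ := Finset.exists_mem_eq_sup Q.support hne
    (fun s => s.sum fun _ e => e)
  have hm3 : (m.sum fun _ a => a) = Q.totalDegree := hm2.symm
  have hev : MvPolynomial.eval (ptG (J ×ˢ Cs) ∅ q x) Q = 0 := by
    rw [hQ, MvPolynomial.eval_rename]
    exact hP0
  refine ⟨Q.totalDegree, Q, ?_, hQg, ?_, ?_, ⟨m, hm, ?_⟩, hev⟩
  · by_contra hcon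
    have h0 : Q.totalDegree = 0 := by omega
    rw [MvPolynomial.totalDegree_eq_zero_iff_eq_C] at h0
    rw [h0, MvPolynomial.eval_C] at hev
    rw [hev, MvPolynomial.C_0] at h0
    exact hQ0 h0
  · intro m'
    by_cases hr : ∃ u, Finsupp.mapDomain Sum.inl u = m'
    · obtain ⟨u, rfl⟩ := hr
      rw [hQ, MvPolynomial.coeff_rename_mapDomain _ hinj]
      exact hPV u
    · have : Q.coeff m' = 0 := by
        rw [hQ]
        refine MvPolynomial.coeff_rename_eq_zero _ _ _ ?_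
        intro u hu
        exact absurd ⟨u, hu⟩ hr
      rw [this]
      exact V.zero_mem
  · intro m' hm'
    have h1 := MvPolynomial.le_totalDegree hm'
    rw [hsum] at h1
    rcases h1.lt_or_eq with h2 | h2
    · exact Or.inl h2
    · exact Or.inr ⟨h2, fun j => absurd j.2 (Finset.notMem_empty _)⟩
  · rw [← hsum, hm3]

/-- the count for `N = |J| r` numbers -/
theorem zeroV_countX {J : Finset ℕ} {w : ℕ} (h2 : ∀ k ∈ J, 2 ≤ k ∧ k ≤ w)
    {r g D q lam : ℕ} (hg : 1 ≤ g) (hq : 2 ≤ q) (hlam : Real.log q + 2 ≤ lam)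
    {V : Submodule ℚ ℝ} (hVf : Module.Finite ℚ V) (hVD : Module.finrank ℚ V ≤ D)
    {Cs : Finset ℕ} (hcard : Cs.card = r) (hCs : ∀ c ∈ Cs, c < q) :
    {x : ℕ | x < q ∧ (∀ c ∈ Cs, 0 < (x + c) % q) ∧ ZeroV V J Cs g q x}.ncard ≤
      bX w (D * (J.card * r + g).choose g) lam := by
  classical
  have h1 := count_GX (Φ := J ×ˢ Cs) (Ψ := ∅) (w := w) (g := g) (D := D) (q := q) (lam := lam)
    hg hq hlam (by
      rintro ⟨k, c⟩ hp
      obtain ⟨h3, h4⟩ := mem_product.1 hp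
      exact ⟨(h2 k h3).1, (h2 k h3).2, hCs c h4⟩) (by
      intro p hp
      exact absurd hp (Finset.notMem_empty p)) hVf hVD
  rw [card_product, hcard, card_empty, add_zero] at h1
  refine (Set.ncard_le_ncard ?_ ((Set.finite_Iio q).subset fun x hx => hx.1)).trans h1
  rintro x ⟨hx1, hx2, hx3⟩
  refine ⟨hx1, ?_, ?_, relV_of_zeroV hx3⟩
  · rintro ⟨k, c⟩ hp
    exact hx2 c (mem_product.1 hp).2
  · intro p hp
    exact absurd hp (Finset.notMem_empty p)

end CM68
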