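import Mathlib

/-!
# Row X2: Hilbert function and spread (STRONG, ONLY MATHLIB)

`K = card κ`.  For `b ≤ b₀` let `Mb I b` be the real span in `I → ℝ` (or in `ℕ → ℝ`, functions cut off outside `I`) of the monomials `mon m x = ∏ k, c k x ^ m k`, `∑ m ≤ b`,
restricted to `I`, `hf I b` its dimension (rank).  Facts: `hf I b ≤ (b + 1)^K` (number of exponents `m : κ → ℕ` with `∑ m ≤ b`: all `m k ≤ b`), `hf I 0 ≥ 1` for `I ≠ ∅`
(`mon 0 = 1`), `hf` is monotone in `b`.
(1) DESCENT (on `hf · b₀`): there is `I ⊆ I₀`, `I₀.card ≤ 2 I.card`, such that no `F ⊆ I` with `Sp * (I \ F).card ≤ I.card` has `hf F b₀ < hf I b₀`: otherwise replace `I` by `F`; at most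
`(b₀ + 1)^K` steps (`hf` drops), each removes at most `I₀.card / Sp` elements, `2 (b₀+1)^K ≤ Sp`.  (Induction on `hf`: prove for all `I`, `t = hf I b₀`: there is `I' ⊆ I` with the property and
`Sp * (I \ I').card ≤ t * I.card`.)
(2) For such `I` and `F` the restriction `Mb I b₀ → Mb F b₀` is injective (surjective, same dimension), so a real combination of monomials of degree `≤ b₀` which vanishes on `F` vanishes on `I`.
(3) PIGEONHOLE: some `b < b₀` has `hf I (b+1) ≤ (1 + ε) hf I b`, otherwise `(1 + ε)^b₀ ≤ hf I b₀ ≤ (b₀ + 1)^K` (induction).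
(4) `φ` = monomials of degree `≤ b + 1` whose restrictions form a basis of `Mb I (b+1)` (`exists_linearIndependent'`-like; `H = hf I (b+1)`), `ψ` the same for `b`, `H' = hf I b ≥ 1`.  Spread of `φ`: (2).
`ψ l * c k` is a monomial of degree `≤ b + 1`, so on `I` a combination of the `φ`.
-/

namespace CM68

open Finset

section X2aux
variable {κ : Type*} [Fintype κ]

private noncomputable def X2_v (c : κ → ℕ → ℚ) (I : Finset ℕ) (m : κ → ℕ) : ℕ → ℝ :=
  fun x => if x ∈ I then ((∏ k, c k x ^ m k : ℚ) : ℝ) else 0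

private noncomputable def X2_P (F : Finset ℕ) : (ℕ → ℝ) →ₗ[ℝ] (ℕ → ℝ) where
  toFun g := fun x => if x ∈ F then g x else 0
  map_add' g h := by
    funext x
    by_cases hx : x ∈ F <;> simp [hx]
  map_smul' r g := by
    funext x
    by_cases hx : x ∈ F <;> simp [hx]

private abbrev X2_M (κ : Type*) [Fintype κ] (b : ℕ) : Type _ := {m : κ → ℕ // ∑ k, m k ≤ b}

private theorem X2_le {b : ℕ} (m : X2_M κ b) (k : κ) : m.1 k < b + 1 :=
  Nat.lt_succ_of_le ((Finset.single_le_sum (f := m.1) (fun _ _ => Nat.zero_le _) (Finset.mem_univ k)).trans m.2)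

private theorem X2_inj (b : ℕ) :
    Function.Injective (fun (m : X2_M κ b) (k : κ) => (⟨m.1 k, X2_le m k⟩ : Fin (b + 1))) := by
  intro m m' h
  apply Subtype.ext
  funext k
  have := congrFun h k
  simpa using this

private instance X2_fin (b : ℕ) : Finite (X2_M κ b) := Finite.of_injective _ (X2_inj b)

private theorem X2_card (b : ℕ) : Nat.card (X2_M κ b) ≤ (b + 1) ^ Fintype.card κ := by
  classical
  have h := Nat.card_le_card_of_injective _ (X2_inj (κ := κ) b)
  have h2 : Nat.card (κ → Fin (b + 1)) = (b + 1) ^ Fintype.card κ := by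
    rw [Nat.card_eq_fintype_card, Fintype.card_fun, Fintype.card_fin]
  exact h.trans h2.le

private noncomputable def X2_W (c : κ → ℕ → ℚ) (I : Finset ℕ) (b : ℕ) : Submodule ℝ (ℕ → ℝ) :=
  Submodule.span ℝ (Set.range (fun m : X2_M κ b => X2_v c I m.1))

private instance X2_fd (c : κ → ℕ → ℚ) (I : Finset ℕ) (b : ℕ) :
    FiniteDimensional ℝ (X2_W c I b) := by
  unfold X2_W
  exact FiniteDimensional.span_of_finite ℝ (Set.finite_range _)

private noncomputable def X2_hf (c : κ → ℕ → ℚ) (I : Finset ℕ) (b : ℕ) : ℕ :=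
  Module.finrank ℝ (X2_W c I b)

private theorem X2_hf_le (c : κ → ℕ → ℚ) (I : Finset ℕ) (b : ℕ) :
    X2_hf c I b ≤ (b + 1) ^ Fintype.card κ := by
  classical
  have : Fintype (X2_M κ b) := Fintype.ofFinite _
  have h := finrank_range_le_card (R := ℝ) (fun m : X2_M κ b => X2_v c I m.1)
  have h2 := X2_card (κ := κ) b
  rw [Nat.card_eq_fintype_card] at h2
  exact h.trans h2

private theorem X2_mono (c : κ → ℕ → ℚ) (I : Finset ℕ) {b b' : ℕ} (h : b ≤ b') :
    X2_W c I b ≤ X2_W c I b' := by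
  apply Submodule.span_mono
  rintro _ ⟨m, rfl⟩
  exact ⟨⟨m.1, m.2.trans h⟩, rfl⟩

private theorem X2_one (c : κ → ℕ → ℚ) {I : Finset ℕ} (hI : I.Nonempty) : 1 ≤ X2_hf c I 0 := by
  obtain ⟨x, hx⟩ := hI
  have hmem : X2_v c I (fun _ => 0) ∈ X2_W c I 0 :=
    Submodule.subset_span ⟨⟨fun _ => 0, by simp⟩, rfl⟩
  have hne : X2_v c I (fun _ => 0) ≠ 0 := by
    intro h
    have := congrFun h x
    simp [X2_v, hx] at this
  unfold X2_hf
  apply Nat.one_le_iff_ne_zero.mpr
  intro h0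
  have hbot := Submodule.finrank_eq_zero.mp h0
  rw [hbot, Submodule.mem_bot] at hmem
  exact hne hmem

private theorem X2_Pv (c : κ → ℕ → ℚ) {F I : Finset ℕ} (hF : F ⊆ I) (m : κ → ℕ) :
    X2_P F (X2_v c I m) = X2_v c F m := by
  funext x
  by_cases hx : x ∈ F
  · simp [X2_P, X2_v, hx, hF hx]
  · simp [X2_P, X2_v, hx]

private theorem X2_map (c : κ → ℕ → ℚ) {F I : Finset ℕ} (hF : F ⊆ I) (b : ℕ) :
    X2_W c F b = (X2_W c I b).map (X2_P F) := by
  unfold X2_W
  rw [Submodule.map_span, ← Set.range_comp]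
  congr 1
  apply congrArg
  funext m
  exact (X2_Pv c hF m.1).symm

private theorem X2_descent (c : κ → ℕ → ℚ) (b₀ Sp : ℕ) : ∀ (t : ℕ) (I : Finset ℕ), X2_hf c I b₀ ≤ t →
    ∃ I' ⊆ I, Sp * (I \ I').card ≤ t * I.card ∧
      ∀ F : Finset ℕ, F ⊆ I' → Sp * (I' \ F).card ≤ I'.card → X2_hf c I' b₀ ≤ X2_hf c F b₀ := by
  intro t
  induction t with
  | zero =>
    intro I hI
    refine ⟨I, Finset.Subset.refl _, by simp, fun F _ _ => hI.trans (Nat.zero_le _)⟩
  | succ t ih =>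
    intro I hI
    by_cases h : ∀ F : Finset ℕ, F ⊆ I → Sp * (I \ F).card ≤ I.card → X2_hf c I b₀ ≤ X2_hf c F b₀
    · exact ⟨I, Finset.Subset.refl _, by simp, h⟩
    · push Not at h
      obtain ⟨F, hF, hc, hlt⟩ := h
      obtain ⟨I', hI', hc', hp⟩ := ih F (by omega)
      refine ⟨I', hI'.trans hF, ?_, hp⟩
      have h1 : (I \ I').card ≤ (I \ F).card + (F \ I').card := by
        have : I \ I' ⊆ (I \ F) ∪ (F \ I') := by
          intro x hx
          rw [Finset.mem_sdiff] at hx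
          by_cases hxF : x ∈ F
          · exact Finset.mem_union_right _ (Finset.mem_sdiff.mpr ⟨hxF, hx.2⟩)
          · exact Finset.mem_union_left _ (Finset.mem_sdiff.mpr ⟨hx.1, hxF⟩)
        exact (Finset.card_le_card this).trans (Finset.card_union_le _ _)
      have h2 : F.card ≤ I.card := Finset.card_le_card hF
      calc Sp * (I \ I').card ≤ Sp * ((I \ F).card + (F \ I').card) := Nat.mul_le_mul_left _ h1
        _ = Sp * (I \ F).card + Sp * (F \ I').card := by ring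
        _ ≤ I.card + t * F.card := Nat.add_le_add hc hc'
        _ ≤ I.card + t * I.card := Nat.add_le_add_left (Nat.mul_le_mul_left _ h2) _
        _ = (t + 1) * I.card := by ring

private theorem X2_basis (c : κ → ℕ → ℚ) (I : Finset ℕ) (b : ℕ) :
    ∃ μ : Fin (X2_hf c I b) → κ → ℕ, (∀ h, ∑ k, μ h k ≤ b) ∧
      LinearIndependent ℝ (fun h => X2_v c I (μ h)) ∧
      X2_W c I b = Submodule.span ℝ (Set.range (fun h => X2_v c I (μ h))) := by
  classical
  obtain ⟨κ', a, ha, hs, hli⟩ := exists_linearIndependent' ℝ (fun m : X2_M κ b => X2_v c I m.1)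
  have : Finite κ' := Finite.of_injective a ha
  have : Fintype κ' := Fintype.ofFinite κ'
  have hcard : Fintype.card κ' = X2_hf c I b := by
    have h1 := finrank_span_eq_card hli
    rw [← h1, hs]
    rfl
  let e : Fin (X2_hf c I b) ≃ κ' := (Fintype.equivFinOfCardEq hcard).symm
  refine ⟨fun h => (a (e h)).1, fun h => (a (e h)).2, ?_, ?_⟩
  · exact hli.comp e e.injective
  · unfold X2_W
    rw [← hs]
    congr 1
    ext g
    constructor
    · rintro ⟨i, rfl⟩
      exact ⟨e.symm i, by simp⟩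
    · rintro ⟨h, rfl⟩
      exact ⟨e h, rfl⟩

private theorem X2_eval (c : κ → ℕ → ℚ) {I : Finset ℕ} {x : ℕ} (hx : x ∈ I) (m : κ → ℕ) :
    X2_v c I m x = ((∏ k, c k x ^ m k : ℚ) : ℝ) := by
  simp only [X2_v, hx, if_true]

private theorem X2_comb (c : κ → ℕ → ℚ) {H : ℕ} (I : Finset ℕ) (μ : Fin H → κ → ℕ) (a : Fin H → ℝ) (x : ℕ)
    (hx : x ∈ I) : (∑ h, a h • X2_v c I (μ h)) x = ∑ h, a h * ((∏ k, c k x ^ μ h k : ℚ) : ℝ) := by
  rw [Finset.sum_apply]
  refine Finset.sum_congr rfl fun h _ => ?_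
  rw [Pi.smul_apply, smul_eq_mul, X2_eval c hx]

private theorem X2_zero_of (c : κ → ℕ → ℚ) {H : ℕ} {F I : Finset ℕ} (μ : Fin H → κ → ℕ) {a : Fin H → ℝ}
    (hF : F ⊆ I) (h : ∀ x ∈ F, ∑ h, a h * ((∏ k, c k x ^ μ h k : ℚ) : ℝ) = 0) :
    X2_P F (∑ h, a h • X2_v c I (μ h)) = 0 := by
  funext x
  by_cases hx : x ∈ F
  · have h1 : X2_P F (∑ h, a h • X2_v c I (μ h)) x = (∑ h, a h • X2_v c I (μ h)) x := by
      simp only [X2_P, LinearMap.coe_mk, AddHom.coe_mk, hx, if_true]
    rw [h1, X2_comb c I μ a x (hF hx), h x hx]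
    rfl
  · simp only [X2_P, LinearMap.coe_mk, AddHom.coe_mk, hx, if_false]
    rfl

private theorem X2_pig (c : κ → ℕ → ℚ) {I : Finset ℕ} (hI : I.Nonempty) {b₀ : ℕ} {ε : ℝ} (hε : 0 < ε)
    (hb : ((b₀ : ℝ) + 1) ^ Fintype.card κ < (1 + ε) ^ b₀) :
    ∃ b, b < b₀ ∧ (X2_hf c I (b + 1) : ℝ) ≤ (1 + ε) * X2_hf c I b := by
  by_contra hcon
  push Not at hcon
  have key : ∀ b, b ≤ b₀ → (1 + ε) ^ b ≤ (X2_hf c I b : ℝ) := by
    intro b
    induction b with
    | zero =>
      intro _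
      have := X2_one c hI
      rw [pow_zero]
      exact_mod_cast this
    | succ b ih =>
      intro hb1
      have h1 := ih (by omega)
      have h2 := hcon b (by omega)
      calc (1 + ε) ^ (b + 1) = (1 + ε) * (1 + ε) ^ b := by ring
        _ ≤ (1 + ε) * X2_hf c I b := mul_le_mul_of_nonneg_left h1 (by linarith)
        _ ≤ X2_hf c I (b + 1) := h2.le
  have h1 := key b₀ le_rfl
  have h2 : (X2_hf c I b₀ : ℝ) ≤ ((b₀ : ℝ) + 1) ^ Fintype.card κ := by
    exact_mod_cast X2_hf_le c I b₀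
  linarith

end X2aux

theorem hilb {κ : Type*} [Fintype κ] (c : κ → ℕ → ℚ) (I₀ : Finset ℕ) (hne : I₀.Nonempty)
    {b₀ Sp : ℕ} {ε : ℝ} (hε : 0 < ε) (hSp : 2 * (b₀ + 1) ^ Fintype.card κ ≤ Sp)
    (hb : ((b₀ : ℝ) + 1) ^ Fintype.card κ < (1 + ε) ^ b₀) :
    ∃ I ⊆ I₀, I₀.card ≤ 2 * I.card ∧ ∃ (H H' : ℕ) (φ : Fin H → ℕ → ℚ) (ψ : Fin H' → ℕ → ℚ),
      1 ≤ H' ∧ (H : ℝ) ≤ (1 + ε) * H' ∧ H ≤ (b₀ + 1) ^ Fintype.card κ ∧
      (∀ F : Finset ℕ, F ⊆ I → Sp * (I \ F).card ≤ I.card → ∀ a : Fin H → ℝ,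
        (∀ x ∈ F, ∑ h, a h * (φ h x : ℝ) = 0) → a = 0) ∧
      (∀ a : Fin H' → ℝ, (∀ x ∈ I, ∑ l, a l * (ψ l x : ℝ) = 0) → a = 0) ∧
      ∀ (l : Fin H') (k : κ), ∃ t : Fin H → ℝ, ∀ x ∈ I,
        (ψ l x : ℝ) * (c k x : ℝ) = ∑ h, t h * (φ h x : ℝ) := by
  classical
  set K := Fintype.card κ with hK
  have hpow : 1 ≤ (b₀ + 1) ^ K := Nat.one_le_pow _ _ (Nat.succ_pos _)
  have hSp0 : 0 < Sp := by omega
  obtain ⟨I, hI, hc, hp⟩ := X2_descent c b₀ Sp ((b₀ + 1) ^ K) I₀ (X2_hf_le c I₀ b₀)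
  have hcard : I₀.card ≤ 2 * I.card := by
    have h1 : 2 * (Sp * (I₀ \ I).card) ≤ Sp * I₀.card :=
      calc 2 * (Sp * (I₀ \ I).card) ≤ 2 * ((b₀ + 1) ^ K * I₀.card) := Nat.mul_le_mul_left _ hc
        _ = (2 * (b₀ + 1) ^ K) * I₀.card := by ring
        _ ≤ Sp * I₀.card := Nat.mul_le_mul_right _ hSp
    have h2 : 2 * (I₀ \ I).card ≤ I₀.card := by
      apply Nat.le_of_mul_le_mul_left _ hSp0
      calc Sp * (2 * (I₀ \ I).card) = 2 * (Sp * (I₀ \ I).card) := by ring
        _ ≤ _ := h1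
    have h3 : (I₀ \ I).card + I.card = I₀.card := Finset.card_sdiff_add_card_eq_card hI
    omega
  have hIne : I.Nonempty := by
    rw [← Finset.card_pos]
    have := hne.card_pos
    omega
  obtain ⟨b, hbb, hpig⟩ := X2_pig c hIne hε hb
  obtain ⟨μ, hμs, hμi, hμW⟩ := X2_basis c I (b + 1)
  obtain ⟨ν, hνs, hνi, hνW⟩ := X2_basis c I b
  refine ⟨I, hI, hcard, X2_hf c I (b + 1), X2_hf c I b, fun h x => ∏ k, c k x ^ μ h k,
    fun l x => ∏ k, c k x ^ ν l k, ?_, hpig, ?_, ?_, ?_, ?_⟩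
  · exact (X2_one c hIne).trans (Submodule.finrank_mono (X2_mono c I (Nat.zero_le b)))
  · calc X2_hf c I (b + 1) ≤ (b + 1 + 1) ^ K := X2_hf_le c I (b + 1)
      _ ≤ (b₀ + 1) ^ K := Nat.pow_le_pow_left (by omega) _
  · intro F hF hFc a ha
    have hz := X2_zero_of c (I := I) μ hF ha
    have hrank : X2_hf c I b₀ ≤ X2_hf c F b₀ := hp F hF hFc
    have hmap := X2_map c hF b₀
    have hinj : Function.Injective ((X2_P F).domRestrict (X2_W c I b₀)) := by
      rw [← LinearMap.ker_eq_bot]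
      have hrn := LinearMap.finrank_range_add_finrank_ker ((X2_P F).domRestrict (X2_W c I b₀))
      have hrange : LinearMap.range ((X2_P F).domRestrict (X2_W c I b₀)) = X2_W c F b₀ := by
        rw [hmap, LinearMap.range_domRestrict]
      rw [hrange] at hrn
      have : Module.finrank ℝ (LinearMap.ker ((X2_P F).domRestrict (X2_W c I b₀))) = 0 := by
        unfold X2_hf at hrank
        omega
      exact Submodule.finrank_eq_zero.mp this
    have hmem : (∑ h, a h • X2_v c I (μ h)) ∈ X2_W c I b₀ := by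
      apply X2_mono c I (show b + 1 ≤ b₀ by omega)
      rw [hμW]
      exact Submodule.sum_mem _ fun h _ => Submodule.smul_mem _ _ (Submodule.subset_span ⟨h, rfl⟩)
    have hzero : (⟨_, hmem⟩ : X2_W c I b₀) = 0 := by
      apply hinj
      rw [map_zero, LinearMap.domRestrict_apply]
      exact hz
    have hzero' : ∑ h, a h • X2_v c I (μ h) = 0 := congrArg Subtype.val hzero
    funext h
    exact (Fintype.linearIndependent_iff.mp hμi) a hzero' h
  · intro a ha
    have hz := X2_zero_of c (I := I) ν (Finset.Subset.refl I) ha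
    have hself : X2_P I (∑ l, a l • X2_v c I (ν l)) = ∑ l, a l • X2_v c I (ν l) := by
      rw [map_sum]
      refine Finset.sum_congr rfl fun l _ => ?_
      rw [map_smul, X2_Pv c (Finset.Subset.refl I)]
    rw [hself] at hz
    funext l
    exact (Fintype.linearIndependent_iff.mp hνi) a hz l
  · intro l k
    have hsum : ∑ j, (Function.update (ν l) k (ν l k + 1)) j ≤ b + 1 := by
      have h1 : ∑ j, (Function.update (ν l) k (ν l k + 1)) j = (∑ j, ν l j) + 1 := by
        rw [Finset.sum_update_of_mem (Finset.mem_univ k)]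
        have h2 := Finset.add_sum_erase Finset.univ (ν l) (Finset.mem_univ k)
        rw [Finset.sdiff_singleton_eq_erase]
        omega
      rw [h1]
      have := hνs l
      omega
    have hmem : X2_v c I (Function.update (ν l) k (ν l k + 1)) ∈ X2_W c I (b + 1) :=
      Submodule.subset_span ⟨⟨_, hsum⟩, rfl⟩
    rw [hμW, Submodule.mem_span_range_iff_exists_fun] at hmem
    obtain ⟨t, ht⟩ := hmem
    refine ⟨t, fun x hx => ?_⟩
    have h1 := congrFun ht x
    rw [X2_comb c I μ t x hx, X2_eval c hx] at h1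
    rw [h1]
    have hprod : ∏ j, c j x ^ (Function.update (ν l) k (ν l k + 1)) j = (∏ j, c j x ^ ν l j) * c k x := by
      rw [← Finset.mul_prod_erase Finset.univ _ (Finset.mem_univ k),
        ← Finset.mul_prod_erase Finset.univ (fun j => c j x ^ ν l j) (Finset.mem_univ k)]
      have h3 : ∏ j ∈ Finset.univ.erase k, c j x ^ (Function.update (ν l) k (ν l k + 1)) j =
          ∏ j ∈ Finset.univ.erase k, c j x ^ ν l j := by
        refine Finset.prod_congr rfl fun j hj => ?_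
        rw [Function.update_of_ne (Finset.ne_of_mem_erase hj)]
      rw [h3, Function.update_self]
      ring
    rw [hprod]
    push_cast
    ring


end CM68
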